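import Mathlib

/- Derivations of the complex numbers and of the rational function field (helper39). -/

namespace Pool.Agent.Lib.MP_4f5f6e_ag

open TensorProduct

universe u v w

/-- Derivations extend along formally étale algebras. -/
lemma exists_derivation_of_formallyEtale {K A F : Type*} [CommRing K] [CommRing A] [CommRing F]
    [Algebra K A] [Algebra K F] [Algebra A F] [IsScalarTower K A F] [Algebra.FormallyEtale A F]
    (d : Derivation K A F) : ∃ E : Derivation K F F, ∀ a, E (algebraMap A F a) = d a := by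
  let φ : F ⊗[A] Ω[A⁄K] →ₗ[F] F :=
    TensorProduct.AlgebraTensorModule.lift
      { toFun := fun z => z • d.liftKaehlerDifferential
        map_add' := fun y z => add_smul y z _
        map_smul' := fun y z => by simp [mul_smul] }
  refine ⟨(φ ∘ₗ ((KaehlerDifferential.tensorKaehlerEquivOfFormallyEtale K A F).symm :
    Ω[F⁄K] →ₗ[F] F ⊗[A] Ω[A⁄K])).compDer (KaehlerDifferential.D K F), fun a => ?_⟩
  change φ ((KaehlerDifferential.tensorKaehlerEquivOfFormallyEtale K A F).symm
    (KaehlerDifferential.D K F (algebraMap A F a))) = d a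
  rw [KaehlerDifferential.tensorKaehlerEquivOfFormallyEtale_symm_D_algebraMap]
  simp [φ]

open scoped IntermediateField.algebraAdjoinAdjoin in
/- derivations with prescribed values on a transcendence basis -/
theorem exists_derivation_of_basis {K F : Type*} [Field K] [CharZero K] [Field F] [Algebra K F]
    {ι : Type*} (x : ι → F) (hx : IsTranscendenceBasis K x) (v : ι → F) :
    ∃ E : Derivation K F F, ∀ c, E (x c) = v c := by
  have hind := hx.1
  let B := Algebra.adjoin K (Set.range x)
  let k := IntermediateField.adjoin K (Set.range x)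
  let a1 : Algebra (MvPolynomial ι K) F :=
    (MvPolynomial.aeval x : MvPolynomial ι K →ₐ[K] F).toAlgebra
  let a2 : Algebra (MvPolynomial ι K) B :=
    (hind.aevalEquiv : MvPolynomial ι K →ₐ[K] B).toAlgebra
  have : IsScalarTower K (MvPolynomial ι K) F :=
    IsScalarTower.of_algebraMap_eq' (MvPolynomial.aeval x : MvPolynomial ι K →ₐ[K] F).comp_algebraMap.symm
  have : IsScalarTower (MvPolynomial ι K) B F :=
    IsScalarTower.of_algebraMap_eq fun a => (hind.algebraMap_aevalEquiv a).symm
  have : Algebra.FormallyEtale (MvPolynomial ι K) B :=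
    Algebra.FormallyEtale.of_equiv (AlgEquiv.ofBijective (Algebra.ofId (MvPolynomial ι K) B)
      hind.aevalEquiv.bijective)
  have : Algebra.FormallyEtale B k := Algebra.FormallyEtale.of_isLocalization (nonZeroDivisors B)
  have : CharZero k := inferInstance
  have : Algebra.IsAlgebraic k F := hx.isAlgebraic_field
  have : Algebra.FormallyEtale k F := Algebra.FormallyEtale.of_isSeparable k F
  have : Algebra.FormallyEtale B F := Algebra.FormallyEtale.comp B k F
  have : Algebra.FormallyEtale (MvPolynomial ι K) F :=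
    Algebra.FormallyEtale.comp (MvPolynomial ι K) B F
  obtain ⟨E, hE⟩ := exists_derivation_of_formallyEtale (MvPolynomial.mkDerivation K v)
  refine ⟨E, fun c => ?_⟩
  have h1 : x c = algebraMap (MvPolynomial ι K) F (MvPolynomial.X c) :=
    (MvPolynomial.aeval_X x c).symm
  rw [h1, hE, MvPolynomial.mkDerivation_X]

/- a derivation moving a transcendental element -/
theorem exists_derivation_of_transcendental {K F : Type*} [Field K] [CharZero K] [Field F]
    [Algebra K F] {c : F} (hc : Transcendental K c) :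
    ∃ E : Derivation K F F, E c ≠ 0 := by
  classical
  have hx : AlgebraicIndependent K (fun _ : Unit => c) :=
    algebraicIndependent_unique_type_iff.2 hc
  have hr : AlgebraicIndepOn K id (Set.range (fun _ : Unit => c)) :=
    AlgebraicIndependent.coe_range hx
  obtain ⟨s, hs, hb⟩ := exists_isTranscendenceBasis_superset hr
  obtain ⟨E, hE⟩ := exists_derivation_of_basis (fun a : s => (a : F)) hb (fun _ => 1)
  refine ⟨E, ?_⟩
  rw [hE ⟨c, hs ⟨(), rfl⟩⟩]
  exact one_ne_zero

/- elements outside an algebraically closed subfield are transcendental -/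
theorem transcendental_of_not_mem (k : Subfield ℂ) [IsAlgClosed k] {c : ℂ} (hc : c ∉ k) :
    Transcendental k c := by
  intro h
  have hint : IsIntegral k c := h.isIntegral
  have h1 := IsAlgClosed.degree_eq_one_of_irreducible k (minpoly.irreducible hint)
  obtain ⟨z, hz⟩ := minpoly.mem_range_of_degree_eq_one k c h1
  exact hc (hz ▸ z.2)

theorem exists_delta (k : Subfield ℂ) [IsAlgClosed k] {c : ℂ} (hc : c ∉ k) :
    ∃ δ : Derivation ℤ ℂ ℂ, (∀ z ∈ k, δ z = 0) ∧ δ c ≠ 0 := by
  obtain ⟨E, hE⟩ := exists_derivation_of_transcendental (transcendental_of_not_mem k hc)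
  refine ⟨E.restrictScalars ℤ, fun z hz => ?_, hE⟩
  exact E.map_algebraMap ⟨z, hz⟩

/- extension of a derivation to the fraction field -/
lemma extend_deriv {R L : Type*} [CommRing R] [Field L] [Algebra R L]
    [IsFractionRing R L] [Nontrivial R] (d : Derivation ℤ R R) :
    ∃ δ : Derivation ℤ L L, ∀ f : R, δ (algebraMap R L f) = algebraMap R L (d f) := by
  have hd : ∀ f g, d (f * g) = f * d g + g * d f := fun f g => by
    rw [Derivation.leibniz]; rfl
  let d₀ : Derivation ℤ R L := Derivation.mk'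
    (((algebraMap R L).toAddMonoidHom.comp
      (d : R →ₗ[ℤ] R).toAddMonoidHom).toIntLinearMap) (fun f g => by
      simp [Algebra.smul_def])
  have hu : ∀ x : nonZeroDivisors R, IsUnit ((algebraMap R (Module.End R L)) x) := by
    intro x
    have hx : algebraMap R L x ≠ 0 := IsFractionRing.to_map_ne_zero_of_mem_nonZeroDivisors x.2
    rw [Module.End.isUnit_iff]
    constructor
    · intro a b hab
      have h : (x : R) • a = (x : R) • b := hab
      rw [Algebra.smul_def, Algebra.smul_def] at h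
      exact mul_left_cancel₀ hx h
    · intro a
      refine ⟨(algebraMap R L x)⁻¹ * a, ?_⟩
      change (x : R) • ((algebraMap R L x)⁻¹ * a) = a
      rw [Algebra.smul_def, mul_inv_cancel_left₀ hx]
  let l₁ : KaehlerDifferential ℤ L →ₗ[R] L := IsLocalizedModule.lift (nonZeroDivisors R)
    (KaehlerDifferential.map ℤ ℤ R L) d₀.liftKaehlerDifferential hu
  let l₂ : KaehlerDifferential ℤ L →ₗ[L] L := l₁.extendScalarsOfIsLocalization (nonZeroDivisors R) L
  refine ⟨l₂.compDer (KaehlerDifferential.D ℤ L), fun f => ?_⟩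
  have h1 : (l₂.compDer (KaehlerDifferential.D ℤ L)) (algebraMap R L f) =
    l₁ (KaehlerDifferential.map ℤ ℤ R L (KaehlerDifferential.D ℤ R f)) := by
    rw [KaehlerDifferential.map_D]
    rfl
  rw [h1, IsLocalizedModule.lift_apply]
  exact Derivation.liftKaehlerDifferential_comp_D d₀ f

open Polynomial

attribute [local instance 10000] Ring.toIntAlgebra

/- derivations over the integers (with the canonical structure of algebra over the integers) -/
abbrev DZ (K : Type) [Field K] := Derivation ℤ K K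

/- the coefficientwise derivation on polynomials -/
noncomputable def mc (δ : Derivation ℤ ℂ ℂ) : Derivation ℤ ℂ[X] ℂ[X] :=
  letI : Differential ℂ := ⟨δ⟩
  Differential.mapCoeffs

lemma mc_coeff (δ : Derivation ℤ ℂ ℂ) (p : ℂ[X]) (i : ℕ) : (mc δ p).coeff i = δ (p.coeff i) :=
  rfl

lemma mc_C (δ : Derivation ℤ ℂ ℂ) (c : ℂ) : mc δ (C c) = C (δ c) := by
  ext i
  rw [mc_coeff, coeff_C, coeff_C]
  split_ifs <;> simp

lemma mc_X (δ : Derivation ℤ ℂ ℂ) : mc δ X = 0 := by
  ext i
  rw [mc_coeff, coeff_X]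
  split_ifs <;> simp

lemma mc_natDegree (δ : Derivation ℤ ℂ ℂ) (p : ℂ[X]) : (mc δ p).natDegree ≤ p.natDegree := by
  rw [natDegree_le_iff_coeff_eq_zero]
  intro N hN
  rw [mc_coeff, coeff_eq_zero_of_natDegree_lt hN, map_zero]

/- d / dX as a derivation over the integers -/
noncomputable def dpol : Derivation ℤ ℂ[X] ℂ[X] :=
  (Polynomial.derivative' : Derivation ℂ ℂ[X] ℂ[X]).restrictScalars ℤ

lemma dpol_apply (p : ℂ[X]) : dpol p = derivative p := rfl

/- the extension of the derivation of the constants, killing X -/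
noncomputable def Dl (δ : Derivation ℤ ℂ ℂ) : DZ (RatFunc ℂ) :=
  (extend_deriv (L := RatFunc ℂ) (mc δ)).choose

lemma Dl_poly (δ : Derivation ℤ ℂ ℂ) (p : ℂ[X]) :
    Dl δ (algebraMap ℂ[X] (RatFunc ℂ) p) = algebraMap ℂ[X] (RatFunc ℂ) (mc δ p) :=
  (extend_deriv (L := RatFunc ℂ) (mc δ)).choose_spec p

/- d / dX on rational functions -/
noncomputable def Dx : DZ (RatFunc ℂ) :=
  (extend_deriv (L := RatFunc ℂ) dpol).choose

lemma Dx_poly (p : ℂ[X]) :
    Dx (algebraMap ℂ[X] (RatFunc ℂ) p) = algebraMap ℂ[X] (RatFunc ℂ) (derivative p) :=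
  (extend_deriv (L := RatFunc ℂ) dpol).choose_spec p

lemma alg_C (c : ℂ) : algebraMap ℂ (RatFunc ℂ) c = algebraMap ℂ[X] (RatFunc ℂ) (C c) := by
  rw [RatFunc.algebraMap_C, RatFunc.algebraMap_eq_C]

lemma Dl_C (δ : Derivation ℤ ℂ ℂ) (c : ℂ) :
    Dl δ (algebraMap ℂ (RatFunc ℂ) c) = algebraMap ℂ (RatFunc ℂ) (δ c) := by
  rw [alg_C, alg_C, Dl_poly, mc_C]

lemma Dx_C (c : ℂ) : Dx (algebraMap ℂ (RatFunc ℂ) c) = 0 := by
  rw [alg_C, Dx_poly, derivative_C, map_zero]

lemma Dl_X (δ : Derivation ℤ ℂ ℂ) : Dl δ RatFunc.X = 0 := by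
  rw [← RatFunc.algebraMap_X, Dl_poly, mc_X, map_zero]

lemma Dx_X : Dx RatFunc.X = 1 := by
  rw [← RatFunc.algebraMap_X, Dx_poly, derivative_X, map_one]

/- derivations agreeing on polynomials agree -/
lemma der_ext {D1 D2 : DZ (RatFunc ℂ)}
    (h : ∀ p : ℂ[X], D1 (algebraMap ℂ[X] (RatFunc ℂ) p) = D2 (algebraMap ℂ[X] (RatFunc ℂ) p))
    (x : RatFunc ℂ) : D1 x = D2 x := by
  rw [← RatFunc.num_div_denom x, Derivation.leibniz_div, Derivation.leibniz_div, h, h]

lemma der_ext' {D1 D2 : DZ (RatFunc ℂ)}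
    (hC : ∀ c : ℂ, D1 (algebraMap ℂ (RatFunc ℂ) c) = D2 (algebraMap ℂ (RatFunc ℂ) c))
    (hX : D1 RatFunc.X = D2 RatFunc.X) (x : RatFunc ℂ) : D1 x = D2 x := by
  apply der_ext
  intro p
  induction p using Polynomial.induction_on' with
  | add p q hp hq => rw [map_add, map_add, map_add, hp, hq]
  | monomial n a =>
    rw [← C_mul_X_pow_eq_monomial, map_mul, map_pow, RatFunc.algebraMap_X, ← alg_C,
      Derivation.leibniz, Derivation.leibniz, Derivation.leibniz_pow, Derivation.leibniz_pow,
      hC, hX]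

/- the two derivations commute -/
lemma Dl_Dx_comm (δ : Derivation ℤ ℂ ℂ) (x : RatFunc ℂ) :
    Dl δ (Dx x) = Dx (Dl δ x) := by
  have h := der_ext' (D1 := ⁅Dl δ, Dx⁆) (D2 := 0) (fun c => by
    rw [Derivation.commutator_apply, Dx_C, Dl_C, Dx_C, map_zero, sub_zero]; rfl)
    (by rw [Derivation.commutator_apply, Dx_X, Dl_X, map_zero, sub_zero,
      Derivation.map_one_eq_zero]; rfl) x
  rw [Derivation.commutator_apply] at h
  exact sub_eq_zero.1 h

end Pool.Agent.Lib.MP_4f5f6e_ag
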