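import Mathlib

/- Places of a field K over the complex numbers, with two derivations (helper39). -/

namespace Pool.Agent.Lib.MP_4f5f6e_ag

/- a place of K (order function, residues) with a derivation d (along a uniformizer) and a
derivation D lifting a derivation of the complex numbers -/
structure Pl (K : Type) [Field K] [Algebra ℂ K] (δ : ℂ → ℂ) where
  v : K → ℤ
  v_mul : ∀ {x y : K}, x ≠ 0 → y ≠ 0 → v (x * y) = v x + v y
  v_add : ∀ {x y : K}, x ≠ 0 → y ≠ 0 → x + y ≠ 0 → min (v x) (v y) ≤ v (x + y)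
  v_C : ∀ c : ℂ, v (algebraMap ℂ K c) = 0
  res : ∀ x : K, x ≠ 0 → 0 ≤ v x →
    ∃ c : ℂ, x - algebraMap ℂ K c = 0 ∨ 1 ≤ v (x - algebraMap ℂ K c)
  d : Derivation ℤ K K
  D : Derivation ℤ K K
  d_C : ∀ c : ℂ, d (algebraMap ℂ K c) = 0
  D_C : ∀ c : ℂ, D (algebraMap ℂ K c) = algebraMap ℂ K (δ c)
  d_ord : ∀ x : K, x ≠ 0 → v x ≠ 0 → d x ≠ 0 ∧ v (d x) = v x - 1
  D_ord : ∀ x : K, x ≠ 0 → D x = 0 ∨ v x ≤ v (D x)

namespace Pl

variable {K : Type} [Field K] [Algebra ℂ K] {δ : ℂ → ℂ} (P : Pl K δ)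

/- the order of x is at least n -/
def ge (n : ℤ) (x : K) : Prop := x = 0 ∨ n ≤ P.v x

lemma ge_zero (n : ℤ) : P.ge n 0 := Or.inl rfl

lemma ge_self (x : K) : P.ge (P.v x) x := Or.inr le_rfl

variable {P}

lemma ge.mono {m n : ℤ} {x : K} (h : P.ge n x) (hmn : m ≤ n) : P.ge m x :=
  h.elim Or.inl fun h => Or.inr (hmn.trans h)

lemma ge.le {n : ℤ} {x : K} (h : P.ge n x) (hx : x ≠ 0) : n ≤ P.v x :=
  h.resolve_left hx

lemma ge.mul {m n : ℤ} {x y : K} (hx : P.ge m x) (hy : P.ge n y) : P.ge (m + n) (x * y) := by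
  by_cases h1 : x = 0
  · left; rw [h1, zero_mul]
  by_cases h2 : y = 0
  · left; rw [h2, mul_zero]
  right
  rw [P.v_mul h1 h2]
  exact add_le_add (hx.le h1) (hy.le h2)

lemma ge.add {n : ℤ} {x y : K} (hx : P.ge n x) (hy : P.ge n y) : P.ge n (x + y) := by
  by_cases h1 : x = 0
  · rw [h1, zero_add]; exact hy
  by_cases h2 : y = 0
  · rw [h2, add_zero]; exact hx
  by_cases h3 : x + y = 0
  · left; exact h3
  right
  exact (le_min (hx.le h1) (hy.le h2)).trans (P.v_add h1 h2 h3)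

variable (P)

lemma v_one : P.v 1 = 0 := by
  have := P.v_C 1
  rwa [map_one] at this

lemma v_neg_one : P.v (-1) = 0 := by
  have := P.v_C (-1)
  rwa [map_neg, map_one] at this

lemma v_neg (x : K) : P.v (-x) = P.v x := by
  by_cases h : x = 0
  · rw [h, neg_zero]
  rw [← neg_one_mul, P.v_mul (neg_ne_zero.2 one_ne_zero) h, P.v_neg_one, zero_add]

lemma v_inv {x : K} (h : x ≠ 0) : P.v x⁻¹ = - P.v x := by
  have h1 := P.v_mul h (inv_ne_zero h)
  rw [mul_inv_cancel₀ h, P.v_one] at h1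
  omega

lemma v_div {x y : K} (hx : x ≠ 0) (hy : y ≠ 0) : P.v (x / y) = P.v x - P.v y := by
  rw [div_eq_mul_inv, P.v_mul hx (inv_ne_zero hy), P.v_inv hy, sub_eq_add_neg]

lemma v_pow {x : K} (hx : x ≠ 0) (n : ℕ) : P.v (x ^ n) = n * P.v x := by
  induction n with
  | zero => rw [pow_zero, P.v_one]; simp
  | succ n ih =>
    rw [pow_succ, P.v_mul (pow_ne_zero n hx) hx, ih]
    push_cast
    ring

lemma ge_C (c : ℂ) : P.ge 0 (algebraMap ℂ K c) := Or.inr (P.v_C c).ge

lemma ge_one : P.ge 0 1 := Or.inr P.v_one.ge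

lemma ge_ofNat (n : ℕ) [n.AtLeastTwo] : P.ge 0 (OfNat.ofNat n : K) := by
  have := P.ge_C (OfNat.ofNat n : ℂ)
  rwa [map_ofNat] at this

variable {P}

lemma ge.neg {n : ℤ} {x : K} (hx : P.ge n x) : P.ge n (-x) := by
  rcases hx with hx | hx
  · left; rw [hx, neg_zero]
  · right; rw [P.v_neg]; exact hx

lemma ge.sub {n : ℤ} {x y : K} (hx : P.ge n x) (hy : P.ge n y) : P.ge n (x - y) := by
  rw [sub_eq_add_neg]
  exact hx.add hy.neg

lemma ge.pow {n : ℤ} {x : K} (hx : P.ge n x) (m : ℕ) : P.ge (m * n) (x ^ m) := by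
  induction m with
  | zero => rw [pow_zero]; simpa using P.ge_one
  | succ m ih =>
    rw [pow_succ]
    refine (ih.mul hx).mono ?_
    push_cast
    rw [add_mul, one_mul]

lemma ge.ofNat_mul {n : ℤ} {x : K} (hx : P.ge n x) (m : ℕ) [m.AtLeastTwo] :
    P.ge n ((OfNat.ofNat m : K) * x) := by
  have := (P.ge_ofNat m).mul hx
  rwa [zero_add] at this

lemma ge.C_mul {n : ℤ} {x : K} (hx : P.ge n x) (c : ℂ) :
    P.ge n (algebraMap ℂ K c * x) := by
  have := (P.ge_C c).mul hx
  rwa [zero_add] at this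

lemma ge.div {n : ℤ} {x y : K} (hx : P.ge n x) (hy : y ≠ 0) : P.ge (n - P.v y) (x / y) := by
  rcases hx with hx | hx
  · left; rw [hx, zero_div]
  · by_cases h : x = 0
    · left; rw [h, zero_div]
    right; rw [P.v_div h hy]; omega

variable (P)

lemma exists_res {x : K} (hx : P.ge 0 x) : ∃ c : ℂ, P.ge 1 (x - algebraMap ℂ K c) := by
  by_cases h : x = 0
  · exact ⟨0, by rw [h, map_zero, sub_zero]; exact P.ge_zero 1⟩
  · exact P.res x h (hx.le h)

variable {P}

lemma ge.D {n : ℤ} {x : K} (hx : P.ge n x) : P.ge n (P.D x) := by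
  by_cases h : x = 0
  · left; rw [h, map_zero]
  · rcases P.D_ord x h with h1 | h1
    · left; exact h1
    · right; exact (hx.le h).trans h1

lemma ge.d0 {x : K} (hx : P.ge 0 x) : P.ge 0 (P.d x) := by
  obtain ⟨c, hc⟩ := P.exists_res hx
  have h1 : P.d x = P.d (x - algebraMap ℂ K c) := by rw [map_sub, P.d_C, sub_zero]
  rw [h1]
  by_cases h : x - algebraMap ℂ K c = 0
  · rw [h, map_zero]; exact P.ge_zero 0
  · have h2 := hc.le h
    have h3 := (P.d_ord _ h (by omega)).2
    right; omega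

lemma ge.d {n : ℤ} {x : K} (hx : P.ge n x) : P.ge (n - 1) (P.d x) := by
  by_cases h : x = 0
  · left; rw [h, map_zero]
  by_cases hv : P.v x = 0
  · have h1 := hx.le h
    have h2 : P.ge 0 x := Or.inr hv.ge
    exact h2.d0.mono (by omega)
  · have h1 := hx.le h
    right
    have h3 := (P.d_ord _ h hv).2
    omega

/- dominant term -/
lemma v_add_of_lt {x y : K} (hx : x ≠ 0) (hy : P.ge (P.v x + 1) y) :
    x + y ≠ 0 ∧ P.v (x + y) = P.v x := by
  by_cases h : y = 0
  · rw [h, add_zero]; exact ⟨hx, rfl⟩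
  have h1 := hy.le h
  have h2 : x + y ≠ 0 := by
    intro h2
    have h3 : x = -y := eq_neg_of_add_eq_zero_left h2
    have h4 : P.v x = P.v y := by rw [h3, P.v_neg]
    omega
  refine ⟨h2, ?_⟩
  have h3 := P.v_add hx h h2
  have h4 : x = (x + y) + (-y) := by ring
  have h5 : min (P.v (x + y)) (P.v (-y)) ≤ P.v ((x + y) + (-y)) :=
    P.v_add h2 (neg_ne_zero.2 h) (by rw [← h4]; exact hx)
  rw [← h4, P.v_neg] at h5
  rcases le_total (P.v (x + y)) (P.v y) with h6 | h6
  · rw [min_eq_left h6] at h5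
    rw [min_eq_left (by omega)] at h3
    omega
  · rw [min_eq_right h6] at h5
    omega

/- an element of order at least 0 and not at least 1 has order 0 -/
lemma v_eq_zero_of {x : K} (h0 : P.ge 0 x) (h1 : ¬ P.ge 1 x) : x ≠ 0 ∧ P.v x = 0 := by
  have hx : x ≠ 0 := fun h => h1 (Or.inl h)
  refine ⟨hx, ?_⟩
  have h2 := h0.le hx
  have h3 : ¬ (1 ≤ P.v x) := fun h => h1 (Or.inr h)
  omega

lemma not_ge_one_C {c : ℂ} (hc : c ≠ 0) : ¬ P.ge 1 (algebraMap ℂ K c) := by
  rintro (h | h)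
  · exact hc ((map_eq_zero _).1 h)
  · rw [P.v_C] at h; omega

/- uniqueness of residues -/
lemma res_unique {x : K} {c c' : ℂ} (h : P.ge 1 (x - algebraMap ℂ K c))
    (h' : P.ge 1 (x - algebraMap ℂ K c')) : c = c' := by
  by_contra hne
  have h1 : P.ge 1 (algebraMap ℂ K (c' - c)) := by
    have := h.sub h'
    have h2 : x - algebraMap ℂ K c - (x - algebraMap ℂ K c') = algebraMap ℂ K (c' - c) := by
      rw [map_sub]; ring
    rwa [h2] at this
  exact not_ge_one_C (sub_ne_zero.2 (Ne.symm hne)) h1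

/- Lemma R -/
theorem lemR (N : Derivation ℤ K K) {E : ℤ}
    (hN : ∀ (n : ℤ) (x : K), P.ge n x → P.ge (n - E) (N x))
    {e : ℤ} (he : 1 ≤ e) {A B x y l : K} (hA : N A = 4 * l * A) (hB : N B = 6 * l * B)
    (hl : P.ge (-E) l) (hA0 : P.ge 0 A) (hB0 : P.ge 0 B) (hxy : y ^ 2 = x ^ 3 + A * x + B)
    (hy : y ≠ 0) (hmin : ¬ (P.ge (4 * e) A ∧ P.ge (6 * e) B)) :
    P.ge (P.v y - (e - 1) - E) (N x - 2 * l * x) := by
  set w := N x - 2 * l * x with hw
  by_cases hw0 : w = 0
  · left; exact hw0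
  have hx : x ≠ 0 := by
    rintro rfl
    apply hw0
    rw [hw, map_zero, mul_zero, sub_zero]
  right
  have hNA : N x = w + 2 * l * x := by rw [hw]; ring
  have hNq : N (y ^ 2) = (3 * x ^ 2 + A) * N x + 4 * l * A * x + 6 * l * B := by
    rw [hxy, map_add, map_add, Derivation.leibniz_pow, Derivation.leibniz, hA, hB]
    simp only [smul_eq_mul, nsmul_eq_mul]
    push_cast
    ring
  have id1 : (3 * x ^ 2 + A) * w = N (y ^ 2) - 6 * l * y ^ 2 := by
    rw [hNq, hxy, hw]; ring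
  have hNh : N (3 * x ^ 2 + A) = 6 * x * N x + 4 * l * A := by
    have h3 : (3 : K) * x ^ 2 = x ^ 2 + x ^ 2 + x ^ 2 := by ring
    rw [h3, map_add, map_add, map_add, Derivation.leibniz_pow, hA]
    simp only [smul_eq_mul, nsmul_eq_mul]
    push_cast
    ring
  have id2 : 6 * x * w = N (3 * x ^ 2 + A) - 4 * l * (3 * x ^ 2 + A) := by
    rw [hNh, hw]; ring
  -- orders
  have hwx : P.ge (P.v x - E) w := by
    have h1 := hN _ _ (P.ge_self x)
    have h2 := (hl.mul (P.ge_self x)).ofNat_mul 2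
    rw [hw, mul_assoc]
    exact h1.sub (h2.mono (by omega))
  have hr := hwx.le hw0
  have hy2 : P.v (y ^ 2) = 2 * P.v y := by
    rw [P.v_pow hy]; norm_num
  by_cases hm : P.v x < 0
  · -- x has a pole
    have h1 : P.ge (P.v (x ^ 3) + 1) (A * x + B) := by
      rw [P.v_pow hx]
      push_cast
      refine ge.add ?_ (hB0.mono (by omega))
      exact (hA0.mul (P.ge_self x)).mono (by omega)
    have h2 := (P.v_add_of_lt (pow_ne_zero 3 hx) h1).2
    rw [← add_assoc, ← hxy, hy2, P.v_pow hx] at h2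
    push_cast at h2
    omega
  · push Not at hm
    by_contra hcon
    push Not at hcon
    have hx0 : P.ge 0 x := Or.inr hm
    have hwq : P.ge (2 * P.v y - E) ((3 * x ^ 2 + A) * w) := by
      rw [id1]
      have h1 : P.ge (2 * P.v y) (y ^ 2) := Or.inr hy2.ge
      have h2 := ((hl.mul h1).ofNat_mul 6)
      rw [mul_assoc]
      exact (hN _ _ h1).sub (h2.mono (by omega))
    have h6 : (6 : K) ≠ 0 := by
      have : algebraMap ℂ K 6 ≠ 0 := by simp
      rwa [map_ofNat] at this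
    have hh0 : 3 * x ^ 2 + A ≠ 0 := by
      intro h0
      rw [h0, map_zero, mul_zero, sub_zero] at id2
      exact (mul_ne_zero (mul_ne_zero h6 hx) hw0) id2
    have h3 : 2 * P.v y - E ≤ P.v (3 * x ^ 2 + A) + P.v w := by
      have := hwq.le (mul_ne_zero hh0 hw0)
      rwa [P.v_mul hh0 hw0] at this
    have hv6 : P.v (6 : K) = 0 := by
      have := P.v_C 6
      rwa [map_ofNat] at this
    have h4 : P.v (3 * x ^ 2 + A) - E ≤ P.v x + P.v w := by
      have h5 : P.ge (P.v (3 * x ^ 2 + A) - E) (6 * x * w) := by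
        rw [id2]
        have h1 := P.ge_self (3 * x ^ 2 + A)
        have h2 := ((hl.mul h1).ofNat_mul 4)
        rw [mul_assoc 4 l]
        exact (hN _ _ h1).sub (h2.mono (by omega))
      have h7 := h5.le (mul_ne_zero (mul_ne_zero h6 hx) hw0)
      rw [P.v_mul (mul_ne_zero h6 hx) hw0, P.v_mul h6 hx, hv6] at h7
      omega
    apply hmin
    have hA4 : P.ge (4 * e) A := by
      have h8 : A = (3 * x ^ 2 + A) - 3 * x ^ 2 := by ring
      rw [h8]
      refine ge.sub (Or.inr (by omega)) ?_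
      refine ((P.ge_self x).pow 2).ofNat_mul 3 |>.mono ?_
      push_cast
      omega
    refine ⟨hA4, ?_⟩
    have h9 : B = y ^ 2 - x ^ 3 - A * x := by rw [hxy]; ring
    rw [h9]
    refine ge.sub (ge.sub (Or.inr (by omega)) ?_) ?_
    · refine ((P.ge_self x).pow 3).mono ?_
      push_cast
      omega
    · exact (hA4.mul (P.ge_self x)).mono (by omega)

/- Lemma S -/
theorem lemS (N : Derivation ℤ K K) {M : ℤ}
    (hN : ∀ (n : ℤ) (x : K), P.ge n x → P.ge (n - 1 - M) (N x))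
    (hN0 : ∀ x : K, P.ge 0 x → P.ge (-M) (N x))
    {A B x q l : K} (hA : N A = 4 * l * A) (hB : N B = 6 * l * B)
    (hl : P.ge (-M) l) (hA0 : P.ge 0 A) (hB0 : P.ge 0 B)
    (hdisc : ¬ P.ge 1 (4 * A ^ 3 + 27 * B ^ 2))
    (hq : q = x ^ 3 + A * x + B) :
    N x - 2 * l * x = 0 ∨ P.v q - 2 * M - 1 ≤ 2 * P.v (N x - 2 * l * x) := by
  set w := N x - 2 * l * x with hw
  by_cases hw0 : w = 0
  · left; exact hw0
  have hx : x ≠ 0 := by
    rintro rfl
    apply hw0
    rw [hw, map_zero, mul_zero, sub_zero]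
  right
  have hNq : N q = (3 * x ^ 2 + A) * N x + 4 * l * A * x + 6 * l * B := by
    rw [hq, map_add, map_add, Derivation.leibniz_pow, Derivation.leibniz, hA, hB]
    simp only [smul_eq_mul, nsmul_eq_mul]
    push_cast
    ring
  have id1 : (3 * x ^ 2 + A) * w = N q - 6 * l * q := by
    rw [hNq, hq, hw]; ring
  by_cases hm : P.v x < 0
  · have h1 : P.ge (P.v (x ^ 3) + 1) (A * x + B) := by
      rw [P.v_pow hx]
      push_cast
      refine ge.add ?_ (hB0.mono (by omega))
      exact (hA0.mul (P.ge_self x)).mono (by omega)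
    have h2 := (P.v_add_of_lt (pow_ne_zero 3 hx) h1).2
    rw [← add_assoc, ← hq, P.v_pow hx] at h2
    push_cast at h2
    have h3 : P.ge (P.v x - 1 - M) w := by
      rw [hw, mul_assoc]
      refine (hN _ _ (P.ge_self x)).sub ?_
      exact ((hl.mul (P.ge_self x)).ofNat_mul 2).mono (by omega)
    have h4 := h3.le hw0
    omega
  · push Not at hm
    have hx0 : P.ge 0 x := Or.inr hm
    have h3 : P.ge (-M) w := by
      rw [hw, mul_assoc]
      refine (hN0 _ hx0).sub ?_
      exact ((hl.mul hx0).ofNat_mul 2).mono (by omega)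
    have h4 := h3.le hw0
    by_cases hvq : P.v q ≤ 0
    · omega
    · push Not at hvq
      have hq1 : P.ge 1 q := Or.inr (by omega)
      have hh1 : ¬ P.ge 1 (3 * x ^ 2 + A) := by
        intro hh
        apply hdisc
        have id3 : 4 * A ^ 3 + 27 * B ^ 2 = (6 * (A * x ^ 2) - 9 * (B * x) + 4 * A ^ 2) *
            (3 * x ^ 2 + A) + (27 * B - 18 * (A * x)) * q := by
          rw [hq]; ring
        rw [id3]
        have hx2 : P.ge 0 (x ^ 2) := by simpa using hx0.pow 2
        have hA2 : P.ge 0 (A ^ 2) := by simpa using hA0.pow 2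
        have u1 : P.ge 0 (6 * (A * x ^ 2) - 9 * (B * x) + 4 * A ^ 2) := by
          refine ge.add (ge.sub ?_ ?_) ?_
          · simpa using (hA0.mul hx2).ofNat_mul 6
          · simpa using (hB0.mul hx0).ofNat_mul 9
          · simpa using hA2.ofNat_mul 4
        have u2 : P.ge 0 (27 * B - 18 * (A * x)) := by
          refine ge.sub ?_ ?_
          · simpa using hB0.ofNat_mul 27
          · simpa using (hA0.mul hx0).ofNat_mul 18
        have u3 := u1.mul hh
        have u4 := u2.mul hq1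
        rw [zero_add] at u3 u4
        exact u3.add u4
      have hh0 : P.ge 0 (3 * x ^ 2 + A) := by
        refine ge.add ?_ hA0
        have := (hx0.pow 2).ofNat_mul 3
        simpa using this
      obtain ⟨hhne, hhv⟩ := P.v_eq_zero_of hh0 hh1
      have h5 : P.ge (P.v q - 1 - M) ((3 * x ^ 2 + A) * w) := by
        rw [id1, mul_assoc]
        refine (hN _ _ (P.ge_self q)).sub ?_
        exact ((hl.mul (P.ge_self q)).ofNat_mul 6).mono (by omega)
      have h6 := h5.le (mul_ne_zero hhne hw0)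
      rw [P.v_mul hhne hw0, hhv] at h6
      omega

end Pl

end Pool.Agent.Lib.MP_4f5f6e_ag
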