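import Mathlib
import Pool.Agent.Lib.MP_4f5f6e_ag.Place

/- Local estimates (helper39). -/

namespace Pool.Agent.Lib.MP_4f5f6e_ag

namespace Pl

variable {K : Type} [Field K] [Algebra ℂ K] {δ : ℂ → ℂ} {P : Pl K δ}

lemma C_ne_zero {c : ℂ} (hc : c ≠ 0) : algebraMap ℂ K c ≠ 0 := by
  simpa using hc

lemma four_ne : (4 : K) ≠ 0 := by
  have : algebraMap ℂ K 4 ≠ 0 := by simp
  rwa [map_ofNat] at this

lemma six_ne : (6 : K) ≠ 0 := by
  have : algebraMap ℂ K 6 ≠ 0 := by simp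
  rwa [map_ofNat] at this

lemma v_four : P.v (4 : K) = 0 := by
  have := P.v_C 4
  rwa [map_ofNat] at this

/- type I: the value of f is infinite or killed by the derivation -/
lemma kappa_I {f : K} (hf : ∀ c : ℂ, f ≠ algebraMap ℂ K c)
    (hI : P.v f < 0 ∨ ∃ c : ℂ, δ c = 0 ∧ P.ge 1 (f - algebraMap ℂ K c)) :
    P.d f ≠ 0 ∧ P.ge 1 (P.D f / P.d f) := by
  have key : ∀ h : K, h ≠ 0 → P.v h ≠ 0 → P.d h ≠ 0 ∧ P.ge 1 (P.D h / P.d h) := by
    intro h h0 hv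
    obtain ⟨h1, h2⟩ := P.d_ord h h0 hv
    refine ⟨h1, ?_⟩
    have h3 := ((P.ge_self h).D).div h1
    exact h3.mono (by omega)
  rcases hI with h | ⟨c, hc, h⟩
  · have hf0 : f ≠ 0 := by
      have := hf 0
      rwa [map_zero] at this
    exact key f hf0 (by omega)
  · have h0 : f - algebraMap ℂ K c ≠ 0 := sub_ne_zero.2 (hf c)
    have h1 := h.le h0
    have h2 := key _ h0 (by omega)
    rw [map_sub, P.d_C, sub_zero, map_sub, P.D_C, hc, map_zero, sub_zero] at h2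
    exact h2

/- type II: the value of f is moved by the derivation -/
lemma kappa_II {f : K} (hf : ∀ c : ℂ, f ≠ algebraMap ℂ K c) {c : ℂ} (hc : δ c ≠ 0)
    (h : P.ge 1 (f - algebraMap ℂ K c)) :
    P.d f ≠ 0 ∧ P.D f / P.d f ≠ 0 ∧
      P.v (P.D f / P.d f) = 1 - P.v (f - algebraMap ℂ K c) := by
  have h0 : f - algebraMap ℂ K c ≠ 0 := sub_ne_zero.2 (hf c)
  have h1 := h.le h0
  obtain ⟨h2, h3⟩ := P.d_ord _ h0 (by omega)
  rw [map_sub, P.d_C, sub_zero] at h2 h3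
  have h4 : P.D f = algebraMap ℂ K (δ c) + P.D (f - algebraMap ℂ K c) := by
    rw [map_sub, P.D_C]; ring
  have h5 := P.v_add_of_lt (x := algebraMap ℂ K (δ c)) (y := P.D (f - algebraMap ℂ K c))
    (C_ne_zero hc) (by rw [P.v_C]; exact h.D.mono (by omega))
  rw [← h4, P.v_C] at h5
  refine ⟨h2, div_ne_zero h5.1 h2, ?_⟩
  rw [P.v_div h5.1 h2, h5.2, h3]
  omega

/- type I: N does not decrease orders -/
lemma N_I {N : Derivation ℤ K K} {κ : K} (hN : ∀ x, N x = P.D x - κ * P.d x)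
    (hκ : P.ge 1 κ) (n : ℤ) (x : K) (hx : P.ge n x) : P.ge (n - 0) (N x) := by
  rw [hN, sub_zero]
  exact hx.D.sub ((hκ.mul hx.d).mono (by omega))

/- type II -/
lemma N_II {N : Derivation ℤ K K} {κ : K} (hN : ∀ x, N x = P.D x - κ * P.d x) {G : ℤ}
    (hG : 1 ≤ G) (hκ : P.ge (1 - G) κ) (n : ℤ) (x : K) (hx : P.ge n x) :
    P.ge (n - G) (N x) := by
  rw [hN]
  exact (hx.D.mono (by omega)).sub ((hκ.mul hx.d).mono (by omega))

lemma N_II0 {N : Derivation ℤ K K} {κ : K} (hN : ∀ x, N x = P.D x - κ * P.d x) {G : ℤ}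
    (hG : 1 ≤ G) (hκ : P.ge (1 - G) κ) (x : K) (hx : P.ge 0 x) :
    P.ge (1 - G) (N x) := by
  rw [hN]
  exact (hx.D.mono (by omega)).sub ((hκ.mul hx.d0).mono (by omega))

lemma l_eq_A {N : Derivation ℤ K K} {A l : K} (hA : N A = 4 * l * A) (h : A ≠ 0) :
    l = N A / (4 * A) := by
  rw [hA, eq_div_iff (mul_ne_zero four_ne h)]; ring

lemma l_eq_B {N : Derivation ℤ K K} {B l : K} (hB : N B = 6 * l * B) (h : B ≠ 0) :
    l = N B / (6 * B) := by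
  rw [hB, eq_div_iff (mul_ne_zero six_ne h)]; ring

lemma v_six : P.v (6 : K) = 0 := by
  have := P.v_C 6
  rwa [map_ofNat] at this

/- the weight function -/
lemma l_ge {N : Derivation ℤ K K} {E : ℤ}
    (hN : ∀ (n : ℤ) (x : K), P.ge n x → P.ge (n - E) (N x))
    {A B l : K} (hAB : A ≠ 0 ∨ B ≠ 0) (hA : N A = 4 * l * A) (hB : N B = 6 * l * B) :
    P.ge (-E) l := by
  rcases hAB with h | h
  · rw [l_eq_A hA h]
    have h2 := (hN _ _ (P.ge_self A)).div (mul_ne_zero (four_ne (K := K)) h)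
    rw [P.v_mul four_ne h, v_four] at h2
    exact h2.mono (by omega)
  · rw [l_eq_B hB h]
    have h2 := (hN _ _ (P.ge_self B)).div (mul_ne_zero (six_ne (K := K)) h)
    rw [P.v_mul six_ne h, v_six] at h2
    exact h2.mono (by omega)

/- at a smooth fibre A or B is a unit -/
lemma unit_of_disc {A B : K} (hA0 : P.ge 0 A) (hB0 : P.ge 0 B)
    (hdisc : ¬ P.ge 1 (4 * A ^ 3 + 27 * B ^ 2)) :
    (A ≠ 0 ∧ P.v A = 0) ∨ (B ≠ 0 ∧ P.v B = 0) := by
  by_cases h : P.ge 1 A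
  · right
    apply v_eq_zero_of hB0
    intro h'
    apply hdisc
    refine ge.add ?_ ?_
    · exact ((h.pow 3).mono (by norm_num)).ofNat_mul 4
    · exact ((h'.pow 2).mono (by norm_num)).ofNat_mul 27
  · left
    exact v_eq_zero_of hA0 h

lemma l_smooth {N : Derivation ℤ K K} {M : ℤ} (hN0 : ∀ x : K, P.ge 0 x → P.ge (-M) (N x))
    {A B l : K} (hA0 : P.ge 0 A) (hB0 : P.ge 0 B)
    (hdisc : ¬ P.ge 1 (4 * A ^ 3 + 27 * B ^ 2))
    (hA : N A = 4 * l * A) (hB : N B = 6 * l * B) : P.ge (-M) l := by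
  rcases unit_of_disc hA0 hB0 hdisc with ⟨h, hv⟩ | ⟨h, hv⟩
  · rw [l_eq_A hA h]
    have h2 := (hN0 _ hA0).div (mul_ne_zero (four_ne (K := K)) h)
    rw [P.v_mul four_ne h, v_four, hv] at h2
    exact h2.mono (by omega)
  · rw [l_eq_B hB h]
    have h2 := (hN0 _ hB0).div (mul_ne_zero (six_ne (K := K)) h)
    rw [P.v_mul six_ne h, v_six, hv] at h2
    exact h2.mono (by omega)

/- nu at a place with t finite, minimal model -/
theorem nu_fin {N : Derivation ℤ K K} {E : ℤ}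
    (hN : ∀ (n : ℤ) (x : K), P.ge n x → P.ge (n - E) (N x))
    {t A B x y l : K} {t₀ : ℂ} (ht : t - algebraMap ℂ K t₀ ≠ 0)
    (he : 1 ≤ P.v (t - algebraMap ℂ K t₀)) (hAB : A ≠ 0 ∨ B ≠ 0)
    (hA : N A = 4 * l * A) (hB : N B = 6 * l * B)
    (hA0 : P.ge 0 A) (hB0 : P.ge 0 B) (hxy : y ^ 2 = x ^ 3 + A * x + B)
    (hy : y ≠ 0) (hmin : ¬ (P.ge (4 * P.v (t - algebraMap ℂ K t₀)) A ∧
      P.ge (6 * P.v (t - algebraMap ℂ K t₀)) B)) :
    P.ge (-E) (P.d t * (N x - 2 * l * x) / y) := by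
  have h1 := lemR N hN he hA hB (l_ge hN hAB hA hB) hA0 hB0 hxy hy hmin
  obtain ⟨h2, h3⟩ := P.d_ord _ ht (by omega)
  rw [map_sub, P.d_C, sub_zero] at h2 h3
  have h4 : P.ge (P.v (P.d t)) (P.d t) := P.ge_self _
  exact ((h4.mul h1).div hy).mono (by omega)

/- nu at a place of type II with smooth fibre -/
theorem nu_smooth {N : Derivation ℤ K K} {κ : K} (hN : ∀ x, N x = P.D x - κ * P.d x)
    {G : ℤ} (hG : 1 ≤ G) (hκ : P.ge (1 - G) κ)
    {t A B x y l : K} {t₀ : ℂ} (ht : t - algebraMap ℂ K t₀ ≠ 0)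
    (he : 1 ≤ P.v (t - algebraMap ℂ K t₀))
    (hA : N A = 4 * l * A) (hB : N B = 6 * l * B)
    (hA0 : P.ge 0 A) (hB0 : P.ge 0 B)
    (hdisc : ¬ P.ge 1 (4 * A ^ 3 + 27 * B ^ 2)) (hxy : y ^ 2 = x ^ 3 + A * x + B)
    (hy : y ≠ 0) :
    P.ge (P.v (t - algebraMap ℂ K t₀) - G) (P.d t * (N x - 2 * l * x) / y) := by
  have hN1 : ∀ (n : ℤ) (x : K), P.ge n x → P.ge (n - 1 - (G - 1)) (N x) := fun n x hx =>
    (N_II hN hG hκ n x hx).mono (by omega)
  have hN0 : ∀ x : K, P.ge 0 x → P.ge (-(G - 1)) (N x) := fun x hx =>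
    (N_II0 hN hG hκ x hx).mono (by omega)
  have hl := l_smooth hN0 hA0 hB0 hdisc hA hB
  rcases lemS N hN1 hN0 hA hB hl hA0 hB0 hdisc hxy with h | h
  · left
    rw [h, mul_zero, zero_div]
  · by_cases hw : N x - 2 * l * x = 0
    · left
      rw [hw, mul_zero, zero_div]
    · right
      obtain ⟨h2, h3⟩ := P.d_ord _ ht (by omega)
      rw [map_sub, P.d_C, sub_zero] at h2 h3
      rw [P.v_div (mul_ne_zero h2 hw) hy, P.v_mul h2 hw, h3]
      rw [P.v_pow hy] at h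
      push_cast at h
      omega

/- nu at a place with t infinite (type I) -/
theorem nu_inf {N : Derivation ℤ K K}
    (hN : ∀ (n : ℤ) (x : K), P.ge n x → P.ge (n - 0) (N x))
    {t A B x y l : K} (ht : t ≠ 0) (he : P.v t ≤ -1) (hAB : A ≠ 0 ∨ B ≠ 0) (χ : ℕ)
    (hA : N A = 4 * l * A) (hB : N B = 6 * l * B)
    (hA0 : P.ge 0 (A / t ^ (4 * χ))) (hB0 : P.ge 0 (B / t ^ (6 * χ)))
    (hxy : y ^ 2 = x ^ 3 + A * x + B)
    (hy : y ≠ 0) (hmin : ¬ (P.ge (-(4 * P.v t)) (A / t ^ (4 * χ)) ∧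
      P.ge (-(6 * P.v t)) (B / t ^ (6 * χ)))) :
    P.ge (-(((χ : ℤ) - 2) * P.v t)) (P.d t * (N x - 2 * l * x) / y) := by
  have hp : ∀ n : ℕ, t ^ n ≠ 0 := fun n => pow_ne_zero n ht
  -- N (t ^ n) = n * (N t / t) * t ^ n
  have hNp : ∀ n : ℕ, N (t ^ n) = n * (N t / t) * t ^ n := by
    intro n
    rw [Derivation.leibniz_pow]
    simp only [smul_eq_mul, nsmul_eq_mul]
    rcases n with _ | n
    · simp
    · rw [Nat.add_sub_cancel, pow_succ]
      field_simp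
  have hNd : ∀ (g : K) (n : ℕ), N (g / t ^ n) = (N g - n * (N t / t) * g) / t ^ n := by
    intro g n
    have h1 : N g = t ^ n * N (g / t ^ n) + (g / t ^ n) * N (t ^ n) := by
      conv_lhs => rw [← mul_div_cancel₀ g (hp n), Derivation.leibniz]
      simp only [smul_eq_mul]
    rw [hNp] at h1
    rw [eq_div_iff (hp n), h1]
    field_simp
    ring
  set l1 : K := l - χ * (N t / t) with hl1
  have hA1 : N (A / t ^ (4 * χ)) = 4 * l1 * (A / t ^ (4 * χ)) := by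
    rw [hNd, hA, hl1]
    push_cast
    ring
  have hB1 : N (B / t ^ (6 * χ)) = 6 * l1 * (B / t ^ (6 * χ)) := by
    rw [hNd, hB, hl1]
    push_cast
    ring
  have hx1 : N (x / t ^ (2 * χ)) - 2 * l1 * (x / t ^ (2 * χ)) =
      (N x - 2 * l * x) / t ^ (2 * χ) := by
    rw [hNd, hl1]
    push_cast
    ring
  have hxy1 : (y / t ^ (3 * χ)) ^ 2 = (x / t ^ (2 * χ)) ^ 3 +
      (A / t ^ (4 * χ)) * (x / t ^ (2 * χ)) + B / t ^ (6 * χ) := by
    rw [div_pow, div_pow, hxy, ← pow_mul, ← pow_mul, div_mul_div_comm, ← pow_add]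
    have e1 : 3 * χ * 2 = 6 * χ := by ring
    have e2 : 2 * χ * 3 = 6 * χ := by ring
    have e3 : 4 * χ + 2 * χ = 6 * χ := by ring
    rw [e1, e2, e3]
    ring
  have hAB1 : A / t ^ (4 * χ) ≠ 0 ∨ B / t ^ (6 * χ) ≠ 0 :=
    hAB.imp (fun h => div_ne_zero h (hp _)) (fun h => div_ne_zero h (hp _))
  have hmin' : ¬ (P.ge (4 * (-P.v t)) (A / t ^ (4 * χ)) ∧
      P.ge (6 * (-P.v t)) (B / t ^ (6 * χ))) := by
    rw [mul_neg, mul_neg]; exact hmin
  have h1 := lemR N hN (e := - P.v t) (by omega) hA1 hB1 (l_ge hN hAB1 hA1 hB1) hA0 hB0 hxy1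
    (div_ne_zero hy (hp _)) hmin'
  rw [hx1] at h1
  have hvd : P.v (P.d t) = P.v t - 1 := (P.d_ord t ht (by omega)).2
  have h2 : P.d t * (N x - 2 * l * x) / y =
      P.d t * t ^ (2 * χ) * ((N x - 2 * l * x) / t ^ (2 * χ)) / y := by
    have := hp (2 * χ)
    field_simp
  rw [h2]
  have h3 := (((P.ge_self (P.d t)).mul (P.ge_self (t ^ (2 * χ)))).mul h1).div hy
  refine h3.mono ?_
  rw [P.v_div hy (hp _), P.v_pow ht, P.v_pow ht, hvd]
  push_cast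
  nlinarith

end Pl

end Pool.Agent.Lib.MP_4f5f6e_ag
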