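import Mathlib
import Pool.Agent.Lib.MP_4f5f6e_ag.Loc

/- Orders of polynomials evaluated at an element (helper39). -/

namespace Pool.Agent.Lib.MP_4f5f6e_ag

open Polynomial

namespace Pl

variable {K : Type} [Field K] [Algebra ℂ K] {δ : ℂ → ℂ} {P : Pl K δ}

lemma ge_sum {ι : Type*} (s : Finset ι) (g : ι → K) (n : ℤ) (h : ∀ i ∈ s, P.ge n (g i)) :
    P.ge n (∑ i ∈ s, g i) := by
  classical
  induction s using Finset.induction_on with
  | empty => rw [Finset.sum_empty]; exact P.ge_zero n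
  | insert i s hi ih =>
    rw [Finset.sum_insert hi]
    exact (h i (Finset.mem_insert_self i s)).add
      (ih fun j hj => h j (Finset.mem_insert_of_mem hj))

lemma ev_ge0 {t : K} (ht : P.ge 0 t) (q : ℂ[X]) : P.ge 0 (aeval t q) := by
  rw [aeval_eq_sum_range]
  apply ge_sum
  intro i _
  rw [Algebra.smul_def]
  have := (ht.pow i).C_mul (q.coeff i)
  rwa [mul_zero] at this

section finite

variable {t : K} {t₀ : ℂ} (ht : P.ge 1 (t - algebraMap ℂ K t₀))

include ht

lemma ge0_of_fin : P.ge 0 t := by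
  have h : t = (t - algebraMap ℂ K t₀) + algebraMap ℂ K t₀ := by ring
  rw [h]
  exact (ht.mono (by omega)).add (P.ge_C t₀)

/- residues -/
lemma ev_res (q : ℂ[X]) : P.ge 1 (aeval t q - algebraMap ℂ K (q.eval t₀)) := by
  obtain ⟨r, hr⟩ := X_sub_C_dvd_sub_C_eval (a := t₀) (p := q)
  have h1 : aeval t q - algebraMap ℂ K (q.eval t₀) = (t - algebraMap ℂ K t₀) * aeval t r := by
    have := congrArg (aeval t) hr
    simpa using this
  rw [h1]
  have := ht.mul (ev_ge0 (ge0_of_fin ht) r)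
  rwa [add_zero] at this

lemma ev_unit {q : ℂ[X]} (hq : q.eval t₀ ≠ 0) : aeval t q ≠ 0 ∧ P.v (aeval t q) = 0 := by
  apply P.v_eq_zero_of (ev_ge0 (ge0_of_fin ht) q)
  intro h
  have h1 := h.sub (ev_res ht q)
  rw [sub_sub_cancel] at h1
  exact not_ge_one_C hq h1

lemma ev_mult (ht0 : t - algebraMap ℂ K t₀ ≠ 0) {q : ℂ[X]} (hq : q ≠ 0) :
    aeval t q ≠ 0 ∧
      P.v (aeval t q) = q.rootMultiplicity t₀ * P.v (t - algebraMap ℂ K t₀) := by
  obtain ⟨r, hr, hr2⟩ := exists_eq_pow_rootMultiplicity_mul_and_not_dvd q hq t₀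
  have hr3 : r.eval t₀ ≠ 0 := fun h => hr2 (dvd_iff_isRoot.2 h)
  obtain ⟨h1, h2⟩ := ev_unit ht hr3
  have h3 : aeval t q = (t - algebraMap ℂ K t₀) ^ q.rootMultiplicity t₀ * aeval t r := by
    conv_lhs => rw [hr]
    simp
  rw [h3]
  have h4 := pow_ne_zero (q.rootMultiplicity t₀) ht0
  exact ⟨mul_ne_zero h4 h1, by rw [P.v_mul h4 h1, P.v_pow ht0, h2, add_zero]⟩

end finite

section infinite

variable {t : K} (ht : P.v t < 0)

include ht

lemma ne_zero_of_inf : t ≠ 0 := by
  rintro rfl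
  have h1 := P.v_C 0
  rw [map_zero] at h1
  omega

lemma ge_inf {q : ℂ[X]} {m : ℕ} (hq : q.natDegree ≤ m) : P.ge (m * P.v t) (aeval t q) := by
  rw [aeval_eq_sum_range' (n := m + 1) (by omega)]
  apply ge_sum
  intro i hi
  rw [Algebra.smul_def]
  refine (((P.ge_self t).pow i).C_mul (q.coeff i)).mono ?_
  have : i ≤ m := by
    have := Finset.mem_range.1 hi
    omega
  have h1 : (i : ℤ) ≤ m := by exact_mod_cast this
  nlinarith

lemma ev_inf {q : ℂ[X]} (hq : q ≠ 0) :
    aeval t q ≠ 0 ∧ P.v (aeval t q) = q.natDegree * P.v t := by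
  have ht0 := ne_zero_of_inf ht
  have hlc : q.leadingCoeff ≠ 0 := leadingCoeff_ne_zero.2 hq
  have h1 : aeval t q = algebraMap ℂ K q.leadingCoeff * t ^ q.natDegree +
      aeval t q.eraseLead := by
    have h := congrArg (aeval t) (eraseLead_add_C_mul_X_pow q)
    rw [map_add, map_mul, aeval_C, map_pow, aeval_X] at h
    rw [← h, add_comm]
  have h2 : algebraMap ℂ K q.leadingCoeff * t ^ q.natDegree ≠ 0 :=
    mul_ne_zero (C_ne_zero hlc) (pow_ne_zero _ ht0)
  have h3 : P.v (algebraMap ℂ K q.leadingCoeff * t ^ q.natDegree) = q.natDegree * P.v t := by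
    rw [P.v_mul (C_ne_zero hlc) (pow_ne_zero _ ht0), P.v_C, P.v_pow ht0, zero_add]
  have h4 : P.ge (P.v (algebraMap ℂ K q.leadingCoeff * t ^ q.natDegree) + 1)
      (aeval t q.eraseLead) := by
    rw [h3]
    by_cases h0 : q.natDegree = 0
    · have : q.eraseLead = 0 := by
        have hq' : q = C (q.coeff 0) := eq_C_of_natDegree_eq_zero h0
        rw [hq', ← monomial_zero_left, eraseLead_monomial]
      rw [this, map_zero]
      exact P.ge_zero _
    · have h5 := ge_inf ht (eraseLead_natDegree_le q)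
      refine h5.mono ?_
      have h6 : ((q.natDegree - 1 : ℕ) : ℤ) = q.natDegree - 1 := by omega
      rw [h6]
      nlinarith
  have h5 := P.v_add_of_lt h2 h4
  rw [← h1, h3] at h5
  exact h5

end infinite

lemma d_ne_zero {x : K} (hx : ∀ c : ℂ, x ≠ algebraMap ℂ K c) : P.d x ≠ 0 := by
  have hx0 : x ≠ 0 := by
    have := hx 0
    rwa [map_zero] at this
  by_cases hv : P.v x = 0
  · obtain ⟨c, hc⟩ := P.exists_res (x := x) (Or.inr hv.ge)
    have h1 : x - algebraMap ℂ K c ≠ 0 := sub_ne_zero.2 (hx c)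
    have h2 := hc.le h1
    have h3 := (P.d_ord _ h1 (by omega)).1
    rwa [map_sub, P.d_C, sub_zero] at h3
  · exact (P.d_ord x hx0 hv).1

/- every element has a pole or a residue -/
lemma pole_or_res (x : K) : P.v x < 0 ∨ ∃ c : ℂ, P.ge 1 (x - algebraMap ℂ K c) := by
  by_cases h : P.v x < 0
  · exact Or.inl h
  · right
    exact P.exists_res (Or.inr (by omega))

end Pl

end Pool.Agent.Lib.MP_4f5f6e_ag
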