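import Mathlib
import Pool.Agent.Lib.MP_4f5f6e_ag.Ev
import Pool.Agent.Lib.MP_4f5f6e_ag.Der

/- The bound of nu at every place (helper39). -/

namespace Pool.Agent.Lib.MP_4f5f6e_ag

open Polynomial

/- polynomials with coefficients in an algebraically closed subfield have no other roots -/
lemma eval_ne_zero_of_coeff (k : Subfield ℂ) [IsAlgClosed k] {V : ℂ[X]}
    (hV : ∀ i, V.coeff i ∈ k) (hV0 : V ≠ 0) {c : ℂ} (hc : c ∉ k) : V.eval c ≠ 0 := by
  intro h
  have h1 : V ∈ Polynomial.lifts (algebraMap k ℂ) := by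
    rw [Polynomial.lifts_iff_coeff_lifts]
    intro n
    exact ⟨⟨V.coeff n, hV n⟩, rfl⟩
  obtain ⟨W, hW⟩ := (Polynomial.mem_lifts V).1 h1
  apply transcendental_of_not_mem k hc
  refine ⟨W, ?_, ?_⟩
  · rintro rfl
    rw [Polynomial.map_zero] at hW
    exact hV0 hW.symm
  · rw [← hW, eval_map_algebraMap] at h
    exact h

/- the data: Weierstrass coefficients a, b, the map p / q, the relation over k -/
structure Dat (k : Subfield ℂ) (a b p q U V : ℂ[X]) (χ : ℕ) : Prop where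
  hdisc : 4 * a ^ 3 + 27 * b ^ 2 ≠ 0
  hmin : ∀ z, ¬ ((X - C z) ^ 4 ∣ a ∧ (X - C z) ^ 6 ∣ b)
  hχa : a.natDegree ≤ 4 * χ
  hχb : b.natDegree ≤ 6 * χ
  hχ1 : 1 ≤ χ
  hχ : ¬ (a.natDegree ≤ 4 * (χ - 1) ∧ b.natDegree ≤ 6 * (χ - 1))
  hcop : IsCoprime p q
  hq : q ≠ 0
  hnc : ∀ c, p - C c * q ≠ 0
  hinf : p.natDegree = q.natDegree → p.leadingCoeff / q.leadingCoeff ∈ k
  hU : ∀ i, U.coeff i ∈ k
  hV : ∀ i, V.coeff i ∈ k
  hUV : U ≠ 0 ∨ V ≠ 0

/- the multiplicity of the moving point z; d is the discriminant -/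
noncomputable def mu (k : Subfield ℂ) (p q d : ℂ[X]) (z : ℂ) : ℕ := by
  classical
  exact if p.eval z / q.eval z ∈ k then 0 else
    (p - C (p.eval z / q.eval z) * q).rootMultiplicity z - 1 + if d.eval z = 0 then 1 else 0

lemma Dat.hab {k : Subfield ℂ} {a b p q U V : ℂ[X]} {χ : ℕ} (hD : Dat k a b p q U V χ) :
    a ≠ 0 ∨ b ≠ 0 := by
  by_contra h
  push Not at h
  apply hD.hdisc
  rw [h.1, h.2]
  ring

section

variable {K : Type} [Field K] [Algebra ℂ K]

/- the value of p / q at t -/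
noncomputable def fK (p q : ℂ[X]) (t : K) : K := aeval t p / aeval t q

lemma aeval_ne {t : K} (ht : Transcendental ℂ t) {q : ℂ[X]} (hq : q ≠ 0) : aeval t q ≠ 0 :=
  fun h => hq ((transcendental_iff.1 ht) q h)

lemma t_ne_C {t : K} (ht : Transcendental ℂ t) (c : ℂ) : t ≠ algebraMap ℂ K c := by
  rintro rfl
  exact ht (isAlgebraic_algebraMap c)

variable {k : Subfield ℂ} {a b p q U V : ℂ[X]} {χ : ℕ}

lemma f_sub {t : K} (ht : Transcendental ℂ t) (hq : q ≠ 0) (c : ℂ) :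
    fK p q t - algebraMap ℂ K c = aeval t (p - C c * q) / aeval t q := by
  rw [fK, map_sub, map_mul, aeval_C, sub_div, mul_div_assoc, div_self (aeval_ne ht hq), mul_one]

lemma f_ne_C {t : K} (ht : Transcendental ℂ t) (hq : q ≠ 0) (hnc : ∀ c, p - C c * q ≠ 0)
    (c : ℂ) : fK p q t ≠ algebraMap ℂ K c := by
  intro h
  have h1 := f_sub (p := p) ht hq c
  rw [h, sub_self] at h1
  exact (div_ne_zero (aeval_ne ht (hnc c)) (aeval_ne ht hq)) h1.symm

lemma disc_aeval (t : K) (a b : ℂ[X]) :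
    aeval t (4 * a ^ 3 + 27 * b ^ 2) = 4 * (aeval t a) ^ 3 + 27 * (aeval t b) ^ 2 := by
  rw [map_add, map_mul, map_mul, map_ofNat, map_ofNat, map_pow, map_pow]

end

namespace Pl

variable {K : Type} [Field K] [Algebra ℂ K] {δ : ℂ → ℂ} {P : Pl K δ}
variable {k : Subfield ℂ} {a b p q U V : ℂ[X]} {χ : ℕ}

lemma v_f_sub {t : K} {t₀ : ℂ} (htr : Transcendental ℂ t) (hq : q ≠ 0)
    (hnc : ∀ c, p - C c * q ≠ 0)
    (ht : P.ge 1 (t - algebraMap ℂ K t₀)) (hqt : q.eval t₀ ≠ 0) (c : ℂ) :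
    P.v (fK p q t - algebraMap ℂ K c) =
      (p - C c * q).rootMultiplicity t₀ * P.v (t - algebraMap ℂ K t₀) := by
  have ht0 : t - algebraMap ℂ K t₀ ≠ 0 := sub_ne_zero.2 (t_ne_C htr t₀)
  rw [f_sub htr hq, P.v_div (aeval_ne htr (hnc c)) (aeval_ne htr hq),
    (ev_mult ht ht0 (hnc c)).2, (ev_unit ht hqt).2, sub_zero]

lemma f_res {t : K} {t₀ : ℂ} (htr : Transcendental ℂ t) (hq : q ≠ 0)
    (hnc : ∀ c, p - C c * q ≠ 0)
    (ht : P.ge 1 (t - algebraMap ℂ K t₀)) (hqt : q.eval t₀ ≠ 0) :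
    P.ge 1 (fK p q t - algebraMap ℂ K (p.eval t₀ / q.eval t₀)) := by
  right
  have ht0 : t - algebraMap ℂ K t₀ ≠ 0 := sub_ne_zero.2 (t_ne_C htr t₀)
  rw [v_f_sub htr hq hnc ht hqt]
  have h1 : (p - C (p.eval t₀ / q.eval t₀) * q).eval t₀ = 0 := by
    rw [eval_sub, eval_mul, eval_C, div_mul_cancel₀ _ hqt, sub_self]
  have h2 : 0 < (p - C (p.eval t₀ / q.eval t₀) * q).rootMultiplicity t₀ := by
    rw [rootMultiplicity_pos (hnc _)]; exact h1
  have h3 := ht.le ht0
  have h4 : (1 : ℤ) ≤ (p - C (p.eval t₀ / q.eval t₀) * q).rootMultiplicity t₀ := by omega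
  nlinarith

/- when t is infinite, f is of type I -/
lemma f_inf (hD : Dat k a b p q U V χ) (hk : ∀ z ∈ k, δ z = 0) {t : K}
    (htr : Transcendental ℂ t) (ht : P.v t < 0) :
    P.v (fK p q t) < 0 ∨ ∃ c : ℂ, δ c = 0 ∧ P.ge 1 (fK p q t - algebraMap ℂ K c) := by
  have hp : p ≠ 0 := by
    have := hD.hnc 0
    rwa [C_0, zero_mul, sub_zero] at this
  have hvf : P.v (fK p q t) = ((p.natDegree : ℤ) - q.natDegree) * P.v t := by
    rw [fK, P.v_div (aeval_ne htr hp) (aeval_ne htr hD.hq), (ev_inf ht hp).2,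
      (ev_inf ht hD.hq).2]
    ring
  rcases lt_trichotomy p.natDegree q.natDegree with h | h | h
  · right
    refine ⟨0, hk 0 k.zero_mem, ?_⟩
    rw [map_zero, sub_zero]
    right
    rw [hvf]
    have : (p.natDegree : ℤ) + 1 ≤ q.natDegree := by exact_mod_cast h
    nlinarith
  · right
    set c := p.leadingCoeff / q.leadingCoeff with hc
    refine ⟨c, hk c (hD.hinf h), ?_⟩
    right
    have hlq : q.leadingCoeff ≠ 0 := leadingCoeff_ne_zero.2 hD.hq
    rw [f_sub htr hD.hq, P.v_div (aeval_ne htr (hD.hnc c)) (aeval_ne htr hD.hq),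
      (ev_inf ht (hD.hnc c)).2, (ev_inf ht hD.hq).2]
    have h1 : (p - C c * q).natDegree ≤ q.natDegree := by
      refine (natDegree_sub_le _ _).trans ?_
      refine max_le (by omega) ?_
      exact natDegree_C_mul_le c q
    have h2 : (p - C c * q).coeff q.natDegree = 0 := by
      rw [coeff_sub, coeff_C_mul, coeff_natDegree, ← h, coeff_natDegree, hc,
        div_mul_cancel₀ _ hlq, sub_self]
    have h3 : (p - C c * q).natDegree ≠ q.natDegree := by
      intro h3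
      rw [← h3, coeff_natDegree] at h2
      exact hD.hnc c (leadingCoeff_eq_zero.1 h2)
    have h4 : ((p - C c * q).natDegree : ℤ) + 1 ≤ q.natDegree := by
      have : (p - C c * q).natDegree + 1 ≤ q.natDegree := by omega
      exact_mod_cast this
    nlinarith
  · left
    rw [hvf]
    have : (q.natDegree : ℤ) + 1 ≤ p.natDegree := by exact_mod_cast h
    nlinarith

/- t infinite: orders of a(t) / t^n -/
lemma inf_div_ge {t : K} (ht : P.v t < 0) {a : ℂ[X]} {n j : ℕ} (h : a.natDegree + j ≤ n) :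
    P.ge (-(j * P.v t)) (aeval t a / t ^ n) := by
  have ht0 := ne_zero_of_inf ht
  have h1 := (ge_inf (P := P) ht (q := a) (m := n - j) (by omega)).div (pow_ne_zero n ht0)
  rw [P.v_pow ht0] at h1
  refine h1.mono ?_
  have h2 : ((n - j : ℕ) : ℤ) = n - j := by omega
  rw [h2]
  nlinarith

lemma inf_div_le {t : K} (ht : P.v t < 0) {a : ℂ[X]} {n j : ℕ} (hjn : j ≤ n)
    (h : P.ge (-(j * P.v t)) (aeval t a / t ^ n)) : a.natDegree + j ≤ n := by
  by_cases ha : a = 0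
  · rw [ha, natDegree_zero]; omega
  have ht0 := ne_zero_of_inf ht
  obtain ⟨h1, h2⟩ := ev_inf ht ha
  have h3 := h.le (div_ne_zero h1 (pow_ne_zero n ht0))
  rw [P.v_div h1 (pow_ne_zero n ht0), h2, P.v_pow ht0] at h3
  by_contra hcon
  push Not at hcon
  have h4 : (n : ℤ) + 1 ≤ a.natDegree + j := by exact_mod_cast hcon
  nlinarith

/- t finite: divisibility -/
lemma fin_dvd {t : K} {t₀ : ℂ} (ht : P.ge 1 (t - algebraMap ℂ K t₀))
    (ht0 : t - algebraMap ℂ K t₀ ≠ 0) {a : ℂ[X]} {j : ℕ}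
    (h : P.ge (j * P.v (t - algebraMap ℂ K t₀)) (aeval t a)) : (X - C t₀) ^ j ∣ a := by
  by_cases ha : a = 0
  · rw [ha]; exact dvd_zero _
  obtain ⟨h1, h2⟩ := ev_mult ht ht0 ha
  have h3 := h.le h1
  rw [h2] at h3
  have hte := ht.le ht0
  rw [← le_rootMultiplicity_iff ha]
  by_contra hcon
  push Not at hcon
  have h4 : (a.rootMultiplicity t₀ : ℤ) + 1 ≤ j := by exact_mod_cast hcon
  nlinarith

/- the derivation N: basic facts -/
lemma N_C {N : Derivation ℤ K K} {κ : K} (hN : ∀ x, N x = P.D x - κ * P.d x) (c : ℂ) :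
    N (algebraMap ℂ K c) = algebraMap ℂ K (δ c) := by
  rw [hN, P.D_C, P.d_C, mul_zero, sub_zero]

lemma N_f {N : Derivation ℤ K K} {f : K} (hN : ∀ x, N x = P.D x - (P.D f / P.d f) * P.d x)
    (hdf : P.d f ≠ 0) : N f = 0 := by
  rw [hN, div_mul_cancel₀ _ hdf, sub_self]

end Pl

section

variable {K : Type} [Field K] [Algebra ℂ K] {k : Subfield ℂ}

lemma N_aeval {N : Derivation ℤ K K} {f : K} (hNk : ∀ z ∈ k, N (algebraMap ℂ K z) = 0)
    (hNf : N f = 0) {V : ℂ[X]} (hV : ∀ i, V.coeff i ∈ k) : N (aeval f V) = 0 := by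
  rw [aeval_eq_sum_range, map_sum]
  apply Finset.sum_eq_zero
  intro i _
  rw [Algebra.smul_def, Derivation.leibniz, hNk _ (hV i), Derivation.leibniz_pow, hNf]
  simp

/- the weights of A and B are compatible -/
lemma N_B {N : Derivation ℤ K K} {A B u v l : K} (hA : A ≠ 0) (hB : B ≠ 0) (hv : v ≠ 0)
    (hu0 : N u = 0) (hv0 : N v = 0) (hrel : A ^ 3 * v = B ^ 2 * u) (hNA : N A = 4 * l * A) :
    N B = 6 * l * B := by
  have h1 := congrArg N hrel
  rw [Derivation.leibniz, Derivation.leibniz, hu0, hv0, Derivation.leibniz_pow,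
    Derivation.leibniz_pow, hNA] at h1
  simp only [smul_eq_mul, nsmul_eq_mul, mul_zero, zero_add] at h1
  push_cast at h1
  have hu : u ≠ 0 := by
    rintro rfl
    rw [mul_zero] at hrel
    exact (mul_ne_zero (pow_ne_zero 3 hA) hv) hrel
  have h2 : (B * u) * (2 * N B - 12 * l * B) = 0 := by
    have h3 : 12 * l * (A ^ 3 * v) = 2 * B * u * N B := by linear_combination h1
    rw [hrel] at h3
    linear_combination -h3
  have h3 := (mul_eq_zero.1 h2).resolve_left (mul_ne_zero hB hu)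
  have h2ne : (2 : K) ≠ 0 := by
    have : algebraMap ℂ K 2 ≠ 0 := by simp
    rwa [map_ofNat] at this
  have h4 : 2 * (N B - 6 * l * B) = 0 := by linear_combination h3
  exact sub_eq_zero.1 ((mul_eq_zero.1 h4).resolve_left h2ne)

end

namespace Pl

variable {K : Type} [Field K] [Algebra ℂ K] {δ : ℂ → ℂ} {P : Pl K δ}
variable {k : Subfield ℂ} {a b p q U V : ℂ[X]} {χ : ℕ}

/- if f has no pole then q does not vanish -/
lemma q_ne_zero_of (hD : Dat k a b p q U V χ) {t : K} {t₀ : ℂ} (htr : Transcendental ℂ t)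
    (ht : P.ge 1 (t - algebraMap ℂ K t₀)) (h : 0 ≤ P.v (fK p q t)) : q.eval t₀ ≠ 0 := by
  have ht0 : t - algebraMap ℂ K t₀ ≠ 0 := sub_ne_zero.2 (t_ne_C htr t₀)
  have hte := ht.le ht0
  intro hqt
  have hp : p.eval t₀ ≠ 0 := by
    intro hp
    obtain ⟨u, v, huv⟩ := hD.hcop
    have := congrArg (eval t₀) huv
    rw [eval_add, eval_mul, eval_mul, hp, hqt, eval_one] at this
    simp at this
  have hp0 : p ≠ 0 := by rintro rfl; simp at hp
  have h1 : P.v (fK p q t) = - (q.rootMultiplicity t₀ *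
      P.v (t - algebraMap ℂ K t₀)) := by
    rw [fK, P.v_div (aeval_ne htr hp0) (aeval_ne htr hD.hq), (ev_unit ht hp).2,
      (ev_mult ht ht0 hD.hq).2]
    ring
  have h2 : 0 < q.rootMultiplicity t₀ := by
    rw [rootMultiplicity_pos hD.hq]; exact hqt
  have h3 : (1 : ℤ) ≤ q.rootMultiplicity t₀ := by omega
  nlinarith

lemma disc_unit {t : K} {t₀ : ℂ} (ht : P.ge 1 (t - algebraMap ℂ K t₀))
    (hd : (4 * a ^ 3 + 27 * b ^ 2).eval t₀ ≠ 0) :
    ¬ P.ge 1 (4 * (aeval t a) ^ 3 + 27 * (aeval t b) ^ 2) := by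
  obtain ⟨h1, h2⟩ := ev_unit ht hd
  rw [disc_aeval] at h1 h2
  intro h
  have := h.le h1
  omega

/- the bound of nu at a place -/
theorem nu_bound (k : Subfield ℂ) (hk : ∀ z ∈ k, δ z = 0)
    (hD : Dat k a b p q U V χ) {t : K} (htr : Transcendental ℂ t)
    {N : Derivation ℤ K K}
    (hN : ∀ x, N x = P.D x - (P.D (fK p q t) / P.d (fK p q t)) * P.d x)
    {x y l : K} (hl : N (aeval t a) = 4 * l * aeval t a)
    (hl' : N (aeval t b) = 6 * l * aeval t b)
    (hxy : y ^ 2 = x ^ 3 + aeval t a * x + aeval t b) (hy : y ≠ 0)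
    {M : ℂ[X]} (hM0 : M ≠ 0)
    (hM : ∀ z, mu k p q (4 * a ^ 3 + 27 * b ^ 2) z ≤ M.rootMultiplicity z)
    (hMdeg : M.natDegree + 2 ≤ χ) :
    P.ge 0 (P.d t * (N x - 2 * l * x) / y * aeval t M) := by
  have hfc := f_ne_C (K := K) htr hD.hq hD.hnc
  have hAB : aeval t a ≠ 0 ∨ aeval t b ≠ 0 :=
    hD.hab.imp (fun h => aeval_ne htr h) (fun h => aeval_ne htr h)
  rcases P.pole_or_res t with hinf | ⟨t₀, ht⟩
  · -- t infinite
    obtain ⟨hdf, hκ⟩ := kappa_I hfc (f_inf hD hk htr hinf)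
    have hN1 := fun n x hx => N_I hN hκ n x hx
    have ht0 := ne_zero_of_inf hinf
    have g1 := inf_div_ge (P := P) hinf (a := a) (n := 4 * χ) (j := 0) hD.hχa
    have g2 := inf_div_ge (P := P) hinf (a := b) (n := 6 * χ) (j := 0) hD.hχb
    have h1 := nu_inf (P := P) hN1 (t := t) ht0 (by omega) hAB χ hl hl'
      (g1.mono (by simp)) (g2.mono (by simp)) hxy hy (by
        rintro ⟨h2, h3⟩
        have hχ1 := hD.hχ1
        have h4 := inf_div_le (P := P) hinf (a := a) (n := 4 * χ) (j := 4) (by omega) h2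
        have h5 := inf_div_le (P := P) hinf (a := b) (n := 6 * χ) (j := 6) (by omega) h3
        exact hD.hχ ⟨by omega, by omega⟩)
    have hvM := (ev_inf hinf hM0).2
    refine (h1.mul (P.ge_self (aeval t M))).mono ?_
    rw [hvM]
    have c3 : (M.natDegree : ℤ) + 2 ≤ χ := by exact_mod_cast hMdeg
    nlinarith
  · have ht0 : t - algebraMap ℂ K t₀ ≠ 0 := sub_ne_zero.2 (t_ne_C htr t₀)
    have hte := ht.le ht0
    have hM1 := ev_mult ht ht0 hM0
    have hA0 := ev_ge0 (ge0_of_fin ht) a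
    have hB0 := ev_ge0 (ge0_of_fin ht) b
    have hmin : ¬ (P.ge (4 * P.v (t - algebraMap ℂ K t₀)) (aeval t a) ∧
        P.ge (6 * P.v (t - algebraMap ℂ K t₀)) (aeval t b)) := by
      rintro ⟨h2, h3⟩
      exact hD.hmin t₀ ⟨fin_dvd ht ht0 h2, fin_dvd ht ht0 h3⟩
    by_cases hI : P.v (fK p q t) < 0 ∨ ∃ c : ℂ, δ c = 0 ∧
        P.ge 1 (fK p q t - algebraMap ℂ K c)
    · -- type I
      obtain ⟨hdf, hκ⟩ := kappa_I hfc hI
      have hN1 := fun n x hx => N_I hN hκ n x hx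
      have h1 := nu_fin (P := P) hN1 ht0 hte hAB hl hl' hA0 hB0 hxy hy hmin
      have h2 := h1.mul (ev_ge0 (ge0_of_fin ht) M)
      simpa using h2
    · -- type II
      push Not at hI
      obtain ⟨hI1, hI2⟩ := hI
      have hqt : q.eval t₀ ≠ 0 := q_ne_zero_of hD htr ht hI1
      set c := p.eval t₀ / q.eval t₀ with hcdef
      have hfres : P.ge 1 (fK p q t - algebraMap ℂ K c) := f_res htr hD.hq hD.hnc ht hqt
      have hδc : δ c ≠ 0 := fun h => hI2 c h hfres
      have hck : c ∉ k := fun h => hδc (hk c h)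
      obtain ⟨hdf, hκ0, hκ⟩ := kappa_II hfc hδc hfres
      have hvf := v_f_sub htr hD.hq hD.hnc ht hqt c
      set g := (p - C c * q).rootMultiplicity t₀ with hg
      have hg1 : 0 < g := by
        rw [hg, rootMultiplicity_pos (hD.hnc _)]
        change (p - C c * q).eval t₀ = 0
        rw [eval_sub, eval_mul, eval_C, hcdef, div_mul_cancel₀ _ hqt, sub_self]
      rw [hvf] at hκ
      have hge : 1 ≤ (g : ℤ) * P.v (t - algebraMap ℂ K t₀) := by
        have h2 : (1 : ℤ) ≤ g := by exact_mod_cast hg1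
        nlinarith
      have hκ' : P.ge (1 - (g : ℤ) * P.v (t - algebraMap ℂ K t₀))
          (P.D (fK p q t) / P.d (fK p q t)) := Or.inr hκ.ge
      have hmu := hM t₀
      rw [mu, if_neg hck, ← hg] at hmu
      by_cases hd : (4 * a ^ 3 + 27 * b ^ 2).eval t₀ = 0
      · rw [if_pos hd] at hmu
        have hN1 := fun n x hx => N_II hN hge hκ' n x hx
        have h1 := nu_fin (P := P) hN1 ht0 hte hAB hl hl' hA0 hB0 hxy hy hmin
        refine (h1.mul (P.ge_self (aeval t M))).mono ?_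
        rw [hM1.2]
        have h2 : (g : ℤ) ≤ M.rootMultiplicity t₀ := by omega
        nlinarith
      · rw [if_neg hd] at hmu
        have h1 := nu_smooth (P := P) hN hge hκ' ht0 hte hl hl' hA0 hB0 (disc_unit ht hd) hxy hy
        refine (h1.mul (P.ge_self (aeval t M))).mono ?_
        rw [hM1.2]
        have h2 : (g : ℤ) - 1 ≤ M.rootMultiplicity t₀ := by omega
        nlinarith

end Pl

end Pool.Agent.Lib.MP_4f5f6e_ag
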