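import Mathlib
import Pool.Agent.Lib.MP_4f5f6e_ag.Place
import Pool.Agent.Lib.MP_4f5f6e_ag.Der

/- The finite places of the rational function field (helper39). -/

namespace Pool.Agent.Lib.MP_4f5f6e_ag

open Polynomial

attribute [local instance 10000] Ring.toIntAlgebra

/- order at the point a -/
noncomputable def ordF (a : ℂ) (x : RatFunc ℂ) : ℤ :=
  (x.num.rootMultiplicity a : ℤ) - x.denom.rootMultiplicity a

lemma ordF_poly (a : ℂ) (p : ℂ[X]) : ordF a (algebraMap ℂ[X] (RatFunc ℂ) p) = p.rootMultiplicity a := by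
  rw [ordF, RatFunc.num_algebraMap, RatFunc.denom_algebraMap]
  have : rootMultiplicity a (1 : ℂ[X]) = 0 := by
    rw [← C_1, rootMultiplicity_C]
  rw [this]
  simp

lemma ordF_mul (a : ℂ) {x y : RatFunc ℂ} (hx : x ≠ 0) (hy : y ≠ 0) :
    ordF a (x * y) = ordF a x + ordF a y := by
  have h := RatFunc.num_denom_mul x y
  have h1 := congrArg (rootMultiplicity a) h
  have nx := RatFunc.num_ne_zero hx
  have ny := RatFunc.num_ne_zero hy
  have nxy := RatFunc.num_ne_zero (mul_ne_zero hx hy)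
  have dx := RatFunc.denom_ne_zero x
  have dy := RatFunc.denom_ne_zero y
  have dxy := RatFunc.denom_ne_zero (x * y)
  rw [rootMultiplicity_mul (mul_ne_zero nxy (mul_ne_zero dx dy)),
    rootMultiplicity_mul (mul_ne_zero dx dy),
    rootMultiplicity_mul (mul_ne_zero (mul_ne_zero nx ny) dxy),
    rootMultiplicity_mul (mul_ne_zero nx ny)] at h1
  rw [ordF, ordF, ordF]
  omega

lemma iota_ne {p : ℂ[X]} (hp : p ≠ 0) : algebraMap ℂ[X] (RatFunc ℂ) p ≠ 0 := RatFunc.algebraMap_ne_zero hp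

lemma ordF_div (a : ℂ) {p q : ℂ[X]} (hp : p ≠ 0) (hq : q ≠ 0) :
    ordF a (algebraMap ℂ[X] (RatFunc ℂ) p / algebraMap ℂ[X] (RatFunc ℂ) q) = (p.rootMultiplicity a : ℤ) - q.rootMultiplicity a := by
  have h1 : algebraMap ℂ[X] (RatFunc ℂ) p / algebraMap ℂ[X] (RatFunc ℂ) q ≠ 0 := div_ne_zero (iota_ne hp) (iota_ne hq)
  have h2 := ordF_mul a h1 (iota_ne hq)
  rw [div_mul_cancel₀ _ (iota_ne hq), ordF_poly, ordF_poly] at h2
  omega

/- every nonzero element is a quotient of nonzero polynomials, coprime -/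
lemma exists_frac {x : RatFunc ℂ} (hx : x ≠ 0) :
    ∃ p q : ℂ[X], p ≠ 0 ∧ q ≠ 0 ∧ IsCoprime p q ∧ x = algebraMap ℂ[X] (RatFunc ℂ) p / algebraMap ℂ[X] (RatFunc ℂ) q :=
  ⟨x.num, x.denom, RatFunc.num_ne_zero hx, RatFunc.denom_ne_zero x,
    RatFunc.isCoprime_num_denom x, (RatFunc.num_div_denom x).symm⟩

lemma ordF_add (a : ℂ) {x y : RatFunc ℂ} (hx : x ≠ 0) (hy : y ≠ 0) (hxy : x + y ≠ 0) :
    min (ordF a x) (ordF a y) ≤ ordF a (x + y) := by
  obtain ⟨p, q, hp, hq, -, rfl⟩ := exists_frac hx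
  obtain ⟨r, s, hr, hs, -, rfl⟩ := exists_frac hy
  have e : algebraMap ℂ[X] (RatFunc ℂ) p / algebraMap ℂ[X] (RatFunc ℂ) q + algebraMap ℂ[X] (RatFunc ℂ) r / algebraMap ℂ[X] (RatFunc ℂ) s = algebraMap ℂ[X] (RatFunc ℂ) (p * s + q * r) / algebraMap ℂ[X] (RatFunc ℂ) (q * s) := by
    rw [map_add, map_mul, map_mul, map_mul, div_add_div _ _ (iota_ne hq) (iota_ne hs)]
  have h0 : p * s + q * r ≠ 0 := by
    intro h
    apply hxy
    rw [e, h, map_zero, zero_div]
  rw [e, ordF_div a h0 (mul_ne_zero hq hs), ordF_div a hp hq, ordF_div a hr hs]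
  have h1 := rootMultiplicity_add a h0
  rw [rootMultiplicity_mul (mul_ne_zero hp hs), rootMultiplicity_mul (mul_ne_zero hq hr)] at h1
  rw [rootMultiplicity_mul (mul_ne_zero hq hs)]
  push_cast
  rw [Nat.min_def] at h1
  rw [min_def]
  split_ifs at h1 ⊢ <;> omega

lemma ordF_C (a c : ℂ) : ordF a (algebraMap ℂ (RatFunc ℂ) c) = 0 := by
  rw [alg_C, ordF_poly, rootMultiplicity_C]
  rfl

lemma mult_pos_iff {p : ℂ[X]} (hp : p ≠ 0) (a : ℂ) :
    0 < p.rootMultiplicity a ↔ p.eval a = 0 := by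
  rw [rootMultiplicity_pos hp]; rfl

lemma not_both {p q : ℂ[X]} (h : IsCoprime p q) (a : ℂ) : ¬ (p.eval a = 0 ∧ q.eval a = 0) := by
  rintro ⟨h1, h2⟩
  obtain ⟨u, v, huv⟩ := h
  have := congrArg (eval a) huv
  rw [eval_add, eval_mul, eval_mul, h1, h2, eval_one] at this
  simp at this

lemma ordF_res (a : ℂ) (x : RatFunc ℂ) (hx : x ≠ 0) (h : 0 ≤ ordF a x) :
    ∃ c : ℂ, x - algebraMap ℂ (RatFunc ℂ) c = 0 ∨
      1 ≤ ordF a (x - algebraMap ℂ (RatFunc ℂ) c) := by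
  obtain ⟨p, q, hp, hq, hc, rfl⟩ := exists_frac hx
  rw [ordF_div a hp hq] at h
  have hqa : q.eval a ≠ 0 := by
    intro hqa
    have h1 := (mult_pos_iff hq a).2 hqa
    have h2 : 0 < p.rootMultiplicity a := by omega
    exact not_both hc a ⟨(mult_pos_iff hp a).1 h2, hqa⟩
  refine ⟨p.eval a / q.eval a, ?_⟩
  set c := p.eval a / q.eval a with hcdef
  have e : algebraMap ℂ[X] (RatFunc ℂ) p / algebraMap ℂ[X] (RatFunc ℂ) q - algebraMap ℂ (RatFunc ℂ) c = algebraMap ℂ[X] (RatFunc ℂ) (p - C c * q) / algebraMap ℂ[X] (RatFunc ℂ) q := by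
    rw [alg_C, map_sub, map_mul, sub_div, mul_div_assoc, div_self (iota_ne hq), mul_one]
  by_cases h0 : p - C c * q = 0
  · left; rw [e, h0, map_zero, zero_div]
  · right
    rw [e, ordF_div a h0 hq]
    have h1 : (p - C c * q).eval a = 0 := by
      rw [eval_sub, eval_mul, eval_C, hcdef, div_mul_cancel₀ _ hqa, sub_self]
    have h2 := (mult_pos_iff h0 a).2 h1
    have h3 : q.rootMultiplicity a = 0 := by
      by_contra h3
      exact hqa ((mult_pos_iff hq a).1 (Nat.pos_of_ne_zero h3))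
    omega

/- decomposition of a polynomial at a -/
lemma exists_dec {p : ℂ[X]} (hp : p ≠ 0) (a : ℂ) :
    ∃ r : ℂ[X], p = (X - C a) ^ p.rootMultiplicity a * r ∧ r.eval a ≠ 0 := by
  obtain ⟨r, hr, hr2⟩ := exists_eq_pow_rootMultiplicity_mul_and_not_dvd p hp a
  exact ⟨r, hr, fun h => hr2 (dvd_iff_isRoot.2 h)⟩

lemma mult_dec (a : ℂ) (i : ℕ) {r : ℂ[X]} (hr : r.eval a ≠ 0) :
    rootMultiplicity a ((X - C a) ^ i * r) = i := by
  have hr0 : r ≠ 0 := by rintro rfl; simp at hr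
  have hX : (X - C a) ^ i ≠ 0 := pow_ne_zero _ (X_sub_C_ne_zero a)
  rw [rootMultiplicity_mul (mul_ne_zero hX hr0), rootMultiplicity_X_sub_C_pow]
  have : rootMultiplicity a r = 0 := rootMultiplicity_eq_zero (fun h => hr h)
  omega

lemma Dx_frac (p : ℂ[X]) {q : ℂ[X]} (hq : q ≠ 0) :
    Dx (algebraMap ℂ[X] (RatFunc ℂ) p / algebraMap ℂ[X] (RatFunc ℂ) q) = algebraMap ℂ[X] (RatFunc ℂ) (derivative p * q - p * derivative q) / algebraMap ℂ[X] (RatFunc ℂ) (q * q) := by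
  rw [Derivation.leibniz_div, Dx_poly, Dx_poly]
  simp only [smul_eq_mul, map_sub, map_mul]
  have := iota_ne hq
  field_simp

lemma ordF_Dx (a : ℂ) (x : RatFunc ℂ) (hx : x ≠ 0) (h : ordF a x ≠ 0) :
    Dx x ≠ 0 ∧ ordF a (Dx x) = ordF a x - 1 := by
  obtain ⟨p, q, hp, hq, hc, rfl⟩ := exists_frac hx
  rw [ordF_div a hp hq] at h ⊢
  rw [Dx_frac p hq]
  obtain ⟨r, hr, hra⟩ := exists_dec hp a
  obtain ⟨s, hs, hsa⟩ := exists_dec hq a
  set i := p.rootMultiplicity a with hi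
  set j := q.rootMultiplicity a with hj
  have key : (X - C a) * (derivative p * q - p * derivative q) =
      (X - C a) ^ (i + j) * (C ((i : ℂ) - j) * r * s +
        (X - C a) * (derivative r * s - r * derivative s)) := by
    have dpow : ∀ n : ℕ, (X - C a) * derivative ((X - C a) ^ n) = C (n : ℂ) * (X - C a) ^ n := by
      intro n
      rw [derivative_X_sub_C_pow]
      rcases n with _ | n
      · simp
      · rw [Nat.add_sub_cancel, pow_succ]
        push_cast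
        simp only [map_add, map_natCast, map_one]
        ring
    have e1 := dpow i
    have e2 := dpow j
    calc (X - C a) * (derivative p * q - p * derivative q)
        = (X - C a) * (derivative ((X - C a) ^ i * r) * ((X - C a) ^ j * s) -
          ((X - C a) ^ i * r) * derivative ((X - C a) ^ j * s)) := by rw [← hr, ← hs]
      _ = _ := by
        rw [derivative_mul, derivative_mul, pow_add, map_sub]
        linear_combination (r * (X - C a) ^ j * s) * e1 - ((X - C a) ^ i * r * s) * e2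
  have hev : (C ((i : ℂ) - j) * r * s +
      (X - C a) * (derivative r * s - r * derivative s)).eval a ≠ 0 := by
    simp only [eval_add, eval_mul, eval_C, eval_sub, eval_X, sub_self, zero_mul, add_zero]
    refine mul_ne_zero (mul_ne_zero ?_ hra) hsa
    intro h0
    apply h
    have h1 : (i : ℂ) = j := sub_eq_zero.1 h0
    have h2 : i = j := by exact_mod_cast h1
    rw [h2, sub_self]
  have hm := mult_dec a (i + j) hev
  rw [← key] at hm
  have hne : derivative p * q - p * derivative q ≠ 0 := by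
    intro h0
    rw [h0, mul_zero] at key
    have h1 := key.symm
    rcases mul_eq_zero.1 h1 with h2 | h2
    · exact pow_ne_zero _ (X_sub_C_ne_zero a) h2
    · rw [h2] at hev; simp at hev
  rw [rootMultiplicity_mul (mul_ne_zero (X_sub_C_ne_zero a) hne), rootMultiplicity_X_sub_C_self]
    at hm
  refine ⟨div_ne_zero (iota_ne hne) (iota_ne (mul_ne_zero hq hq)), ?_⟩
  rw [ordF_div a hne (mul_ne_zero hq hq), rootMultiplicity_mul (mul_ne_zero hq hq)]
  push_cast
  omega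

/- the derivation at a killing the uniformizer -/
noncomputable def Da (δ : Derivation ℤ ℂ ℂ) (a : ℂ) : DZ (RatFunc ℂ) :=
  Dl δ + (algebraMap ℂ (RatFunc ℂ) (δ a)) • Dx

noncomputable def da (δ : Derivation ℤ ℂ ℂ) (a : ℂ) (p : ℂ[X]) : ℂ[X] :=
  mc δ p + C (δ a) * derivative p

lemma Da_apply (δ : Derivation ℤ ℂ ℂ) (a : ℂ) (x : RatFunc ℂ) :
    Da δ a x = Dl δ x + algebraMap ℂ (RatFunc ℂ) (δ a) * Dx x := rfl

lemma Da_poly (δ : Derivation ℤ ℂ ℂ) (a : ℂ) (p : ℂ[X]) : Da δ a (algebraMap ℂ[X] (RatFunc ℂ) p) = algebraMap ℂ[X] (RatFunc ℂ) (da δ a p) := by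
  rw [Da_apply, Dl_poly, Dx_poly, da, map_add, map_mul, alg_C]

lemma da_dvd (δ : Derivation ℤ ℂ ℂ) (a : ℂ) (i : ℕ) {p : ℂ[X]} (h : (X - C a) ^ i ∣ p) :
    (X - C a) ^ i ∣ da δ a p := by
  obtain ⟨r, rfl⟩ := h
  have h1 : mc δ (X - C a) = - C (δ a) := by
    rw [map_sub, mc_X, mc_C, zero_sub]
  have h2 : da δ a ((X - C a) ^ i * r) = (X - C a) ^ i * da δ a r := by
    rw [da, Derivation.leibniz, Derivation.leibniz_pow, h1, derivative_mul,
      derivative_X_sub_C_pow, da]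
    simp only [smul_eq_mul, nsmul_eq_mul, C_eq_natCast]
    ring
  rw [h2]
  exact dvd_mul_right _ _

lemma Da_frac (δ : Derivation ℤ ℂ ℂ) (a : ℂ) (p : ℂ[X]) {q : ℂ[X]} (hq : q ≠ 0) :
    Da δ a (algebraMap ℂ[X] (RatFunc ℂ) p / algebraMap ℂ[X] (RatFunc ℂ) q) = algebraMap ℂ[X] (RatFunc ℂ) (da δ a p * q - p * da δ a q) / algebraMap ℂ[X] (RatFunc ℂ) (q * q) := by
  rw [Derivation.leibniz_div, Da_poly, Da_poly]
  simp only [smul_eq_mul, map_sub, map_mul]
  have := iota_ne hq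
  field_simp

lemma ordF_Da (δ : Derivation ℤ ℂ ℂ) (a : ℂ) (x : RatFunc ℂ) (hx : x ≠ 0) :
    Da δ a x = 0 ∨ ordF a x ≤ ordF a (Da δ a x) := by
  obtain ⟨p, q, hp, hq, hc, rfl⟩ := exists_frac hx
  rw [Da_frac δ a p hq]
  by_cases h0 : da δ a p * q - p * da δ a q = 0
  · left; rw [h0, map_zero, zero_div]
  · right
    rw [ordF_div a hp hq, ordF_div a h0 (mul_ne_zero hq hq),
      rootMultiplicity_mul (mul_ne_zero hq hq)]
    set i := p.rootMultiplicity a with hi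
    set j := q.rootMultiplicity a with hj
    have hpi : (X - C a) ^ i ∣ p := pow_rootMultiplicity_dvd p a
    have hqj : (X - C a) ^ j ∣ q := pow_rootMultiplicity_dvd q a
    have h1 : (X - C a) ^ (i + j) ∣ da δ a p * q - p * da δ a q := by
      rw [pow_add]
      exact dvd_sub (mul_dvd_mul (da_dvd δ a i hpi) hqj) (mul_dvd_mul hpi (da_dvd δ a j hqj))
    have h2 := (le_rootMultiplicity_iff h0).2 h1
    push_cast
    omega

/- the finite place a -/
noncomputable def PF (δ : Derivation ℤ ℂ ℂ) (a : ℂ) : Pl (RatFunc ℂ) δ where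
  v := ordF a
  v_mul := ordF_mul a
  v_add := ordF_add a
  v_C := ordF_C a
  res := ordF_res a
  d := Dx
  D := Da δ a
  d_C := Dx_C
  D_C := fun c => by rw [Da_apply, Dl_C, Dx_C, mul_zero, add_zero]
  d_ord := ordF_Dx a
  D_ord := ordF_Da δ a

lemma PF_v (δ : Derivation ℤ ℂ ℂ) (a : ℂ) (x : RatFunc ℂ) : (PF δ a).v x = ordF a x := rfl

lemma PF_d (δ : Derivation ℤ ℂ ℂ) (a : ℂ) (x : RatFunc ℂ) : (PF δ a).d x = Dx x := rfl

lemma PF_D (δ : Derivation ℤ ℂ ℂ) (a : ℂ) (x : RatFunc ℂ) :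
    (PF δ a).D x = Dl δ x + algebraMap ℂ (RatFunc ℂ) (δ a) * Dx x := rfl

end Pool.Agent.Lib.MP_4f5f6e_ag
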