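import Mathlib
import Pool.Agent.Lib.MP_4f5f6e_ag.PlFin

/- The infinite place of the rational function field, and the global lemma (helper39). -/

namespace Pool.Agent.Lib.MP_4f5f6e_ag

open Polynomial

attribute [local instance 10000] Ring.toIntAlgebra

/- order at infinity -/
noncomputable def ordI (x : RatFunc ℂ) : ℤ := - x.intDegree

lemma ordI_poly (p : ℂ[X]) : ordI (algebraMap ℂ[X] (RatFunc ℂ) p) = - (p.natDegree : ℤ) := by
  rw [ordI, RatFunc.intDegree_polynomial]

lemma ordI_mul {x y : RatFunc ℂ} (hx : x ≠ 0) (hy : y ≠ 0) :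
    ordI (x * y) = ordI x + ordI y := by
  rw [ordI, ordI, ordI, RatFunc.intDegree_mul hx hy]
  ring

lemma ordI_div {p q : ℂ[X]} (hp : p ≠ 0) (hq : q ≠ 0) :
    ordI (algebraMap ℂ[X] (RatFunc ℂ) p / algebraMap ℂ[X] (RatFunc ℂ) q) = (q.natDegree : ℤ) - p.natDegree := by
  have h1 : algebraMap ℂ[X] (RatFunc ℂ) p / algebraMap ℂ[X] (RatFunc ℂ) q ≠ 0 := div_ne_zero (iota_ne hp) (iota_ne hq)
  have h2 := ordI_mul h1 (iota_ne hq)
  rw [div_mul_cancel₀ _ (iota_ne hq), ordI_poly, ordI_poly] at h2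
  omega

lemma ordI_add {x y : RatFunc ℂ} (hx : x ≠ 0) (hy : y ≠ 0) (hxy : x + y ≠ 0) :
    min (ordI x) (ordI y) ≤ ordI (x + y) := by
  have h := RatFunc.intDegree_add_le hy hxy
  rw [ordI, ordI, ordI]
  rw [max_def] at h
  rw [min_def]
  split_ifs at h ⊢ <;> omega

lemma ordI_C (c : ℂ) : ordI (algebraMap ℂ (RatFunc ℂ) c) = 0 := by
  rw [alg_C, ordI_poly, natDegree_C]
  rfl

lemma ordI_res (x : RatFunc ℂ) (hx : x ≠ 0) (h : 0 ≤ ordI x) :
    ∃ c : ℂ, x - algebraMap ℂ (RatFunc ℂ) c = 0 ∨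
      1 ≤ ordI (x - algebraMap ℂ (RatFunc ℂ) c) := by
  obtain ⟨p, q, hp, hq, hc, rfl⟩ := exists_frac hx
  rw [ordI_div hp hq] at h
  have hlq : q.leadingCoeff ≠ 0 := leadingCoeff_ne_zero.2 hq
  refine ⟨p.coeff q.natDegree / q.leadingCoeff, ?_⟩
  set c := p.coeff q.natDegree / q.leadingCoeff with hcdef
  have e : algebraMap ℂ[X] (RatFunc ℂ) p / algebraMap ℂ[X] (RatFunc ℂ) q - algebraMap ℂ (RatFunc ℂ) c = algebraMap ℂ[X] (RatFunc ℂ) (p - C c * q) / algebraMap ℂ[X] (RatFunc ℂ) q := by
    rw [alg_C, map_sub, map_mul, sub_div, mul_div_assoc, div_self (iota_ne hq), mul_one]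
  by_cases h0 : p - C c * q = 0
  · left; rw [e, h0, map_zero, zero_div]
  · right
    rw [e, ordI_div h0 hq]
    have h1 : (p - C c * q).natDegree ≤ q.natDegree := by
      refine (natDegree_sub_le _ _).trans ?_
      refine max_le (by omega) ?_
      exact natDegree_C_mul_le c q
    have h2 : (p - C c * q).coeff q.natDegree = 0 := by
      rw [coeff_sub, coeff_C_mul, coeff_natDegree, hcdef, div_mul_cancel₀ _ hlq, sub_self]
    have h3 : (p - C c * q).natDegree ≠ q.natDegree := by
      intro h3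
      rw [← h3, coeff_natDegree] at h2
      exact h0 (leadingCoeff_eq_zero.1 h2)
    omega

/- the derivation with respect to 1/X -/
noncomputable def dI : DZ (RatFunc ℂ) := (-(RatFunc.X : RatFunc ℂ) ^ 2) • Dx

lemma dI_apply (x : RatFunc ℂ) : dI x = -(RatFunc.X : RatFunc ℂ) ^ 2 * Dx x := rfl

lemma coeff_X_mul_derivative (p : ℂ[X]) (m : ℕ) :
    (X * derivative p).coeff m = m * p.coeff m := by
  rcases m with _ | m
  · simp
  · rw [coeff_X_mul, coeff_derivative]
    push_cast
    ring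

lemma ordI_dI (x : RatFunc ℂ) (hx : x ≠ 0) (h : ordI x ≠ 0) :
    dI x ≠ 0 ∧ ordI (dI x) = ordI x - 1 := by
  obtain ⟨p, q, hp, hq, hc, rfl⟩ := exists_frac hx
  rw [ordI_div hp hq] at h ⊢
  rw [dI_apply, Dx_frac p hq]
  set m := p.natDegree with hm
  set n := q.natDegree with hn
  have hcoef : (X * (derivative p * q - p * derivative q)).coeff (m + n) =
      ((m : ℂ) - n) * (p.leadingCoeff * q.leadingCoeff) := by
    have e : X * (derivative p * q - p * derivative q) =
        (X * derivative p) * q - p * (X * derivative q) := by ring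
    have d1 : (X * derivative p).natDegree ≤ m := by
      rw [natDegree_le_iff_coeff_eq_zero]
      intro N hN
      rw [coeff_X_mul_derivative, coeff_eq_zero_of_natDegree_lt (by omega), mul_zero]
    have d2 : (X * derivative q).natDegree ≤ n := by
      rw [natDegree_le_iff_coeff_eq_zero]
      intro N hN
      rw [coeff_X_mul_derivative, coeff_eq_zero_of_natDegree_lt (by omega), mul_zero]
    rw [e, coeff_sub, coeff_mul_add_eq_of_natDegree_le d1 le_rfl, coeff_mul_add_eq_of_natDegree_le le_rfl d2,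
      coeff_X_mul_derivative, coeff_X_mul_derivative, hm, hn, coeff_natDegree, coeff_natDegree]
    ring
  have hne' : (X * (derivative p * q - p * derivative q)).coeff (m + n) ≠ 0 := by
    rw [hcoef]
    refine mul_ne_zero ?_ (mul_ne_zero (leadingCoeff_ne_zero.2 hp) (leadingCoeff_ne_zero.2 hq))
    intro h0
    apply h
    have h1 : (m : ℂ) = n := sub_eq_zero.1 h0
    have h2 : m = n := by exact_mod_cast h1
    rw [h2, sub_self]
  have hle := le_natDegree_of_ne_zero hne'
  have hne : derivative p * q - p * derivative q ≠ 0 := by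
    intro h0
    rw [h0, mul_zero, coeff_zero] at hne'
    exact hne' rfl
  have hge : (X * (derivative p * q - p * derivative q)).natDegree ≤ m + n := by
    have e : X * (derivative p * q - p * derivative q) =
        (X * derivative p) * q - p * (X * derivative q) := by ring
    have d1 : (X * derivative p).natDegree ≤ m := by
      rw [natDegree_le_iff_coeff_eq_zero]
      intro N hN
      rw [coeff_X_mul_derivative, coeff_eq_zero_of_natDegree_lt (by omega), mul_zero]
    have d2 : (X * derivative q).natDegree ≤ n := by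
      rw [natDegree_le_iff_coeff_eq_zero]
      intro N hN
      rw [coeff_X_mul_derivative, coeff_eq_zero_of_natDegree_lt (by omega), mul_zero]
    rw [e]
    refine (natDegree_sub_le _ _).trans (max_le ?_ ?_)
    · exact natDegree_mul_le.trans (by omega)
    · exact natDegree_mul_le.trans (by omega)
  have hdeg : (derivative p * q - p * derivative q).natDegree + 1 = m + n := by
    rw [natDegree_X_mul hne] at hle hge
    omega
  have hX2 : -(RatFunc.X : RatFunc ℂ) ^ 2 ≠ 0 := neg_ne_zero.2 (pow_ne_zero 2 RatFunc.X_ne_zero)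
  have hd : algebraMap ℂ[X] (RatFunc ℂ) (derivative p * q - p * derivative q) / algebraMap ℂ[X] (RatFunc ℂ) (q * q) ≠ 0 :=
    div_ne_zero (iota_ne hne) (iota_ne (mul_ne_zero hq hq))
  refine ⟨mul_ne_zero hX2 hd, ?_⟩
  have hX : ordI (-(RatFunc.X : RatFunc ℂ) ^ 2) = -2 := by
    have e : -(RatFunc.X : RatFunc ℂ) ^ 2 = algebraMap ℂ[X] (RatFunc ℂ) (-(X ^ 2)) := by
      rw [map_neg, map_pow, RatFunc.algebraMap_X]
    rw [e, ordI_poly, natDegree_neg, natDegree_X_pow]
    rfl
  rw [ordI_mul hX2 hd, hX, ordI_div hne (mul_ne_zero hq hq), natDegree_mul hq hq]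
  push_cast
  omega

lemma ordI_Dl (δ : Derivation ℤ ℂ ℂ) (x : RatFunc ℂ) (hx : x ≠ 0) :
    Dl δ x = 0 ∨ ordI x ≤ ordI (Dl δ x) := by
  obtain ⟨p, q, hp, hq, hc, rfl⟩ := exists_frac hx
  have e : Dl δ (algebraMap ℂ[X] (RatFunc ℂ) p / algebraMap ℂ[X] (RatFunc ℂ) q) = algebraMap ℂ[X] (RatFunc ℂ) (mc δ p * q - p * mc δ q) / algebraMap ℂ[X] (RatFunc ℂ) (q * q) := by
    rw [Derivation.leibniz_div, Dl_poly, Dl_poly]
    simp only [smul_eq_mul, map_sub, map_mul]
    have := iota_ne hq
    field_simp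
  rw [e]
  by_cases h0 : mc δ p * q - p * mc δ q = 0
  · left; rw [h0, map_zero, zero_div]
  · right
    rw [ordI_div hp hq, ordI_div h0 (mul_ne_zero hq hq), natDegree_mul hq hq]
    have h1 : (mc δ p * q - p * mc δ q).natDegree ≤ p.natDegree + q.natDegree := by
      refine (natDegree_sub_le _ _).trans (max_le ?_ ?_)
      · have := mc_natDegree δ p
        exact natDegree_mul_le.trans (by omega)
      · have := mc_natDegree δ q
        exact natDegree_mul_le.trans (by omega)
    push_cast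
    omega

/- the infinite place -/
noncomputable def PI (δ : Derivation ℤ ℂ ℂ) : Pl (RatFunc ℂ) δ where
  v := ordI
  v_mul := ordI_mul
  v_add := ordI_add
  v_C := ordI_C
  res := ordI_res
  d := dI
  D := Dl δ
  d_C := fun c => by rw [dI_apply, Dx_C, mul_zero]
  D_C := Dl_C δ
  d_ord := ordI_dI
  D_ord := ordI_Dl δ

lemma PI_v (δ : Derivation ℤ ℂ ℂ) (x : RatFunc ℂ) : (PI δ).v x = ordI x := rfl

lemma PI_d (δ : Derivation ℤ ℂ ℂ) (x : RatFunc ℂ) :
    (PI δ).d x = -(RatFunc.X : RatFunc ℂ) ^ 2 * Dx x := rfl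

lemma PI_D (δ : Derivation ℤ ℂ ℂ) (x : RatFunc ℂ) : (PI δ).D x = Dl δ x := rfl

/- a rational function without poles at finite distance that vanishes at infinity is zero -/
theorem eq_zero_of_places {x : RatFunc ℂ} (hF : ∀ a : ℂ, x = 0 ∨ 0 ≤ ordF a x)
    (hI : x = 0 ∨ 1 ≤ ordI x) : x = 0 := by
  by_contra hx
  have hI' := hI.resolve_left hx
  have hF' : ∀ a, 0 ≤ ordF a x := fun a => (hF a).resolve_left hx
  obtain ⟨p, q, hp, hq, hc, rfl⟩ := exists_frac hx
  rw [ordI_div hp hq] at hI'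
  have hdeg : 0 < q.natDegree := by omega
  obtain ⟨a, ha⟩ := Complex.exists_root (f := q) (by
    rw [← natDegree_pos_iff_degree_pos]; exact hdeg)
  have h1 := hF' a
  rw [ordF_div a hp hq] at h1
  have h2 := (mult_pos_iff hq a).2 ha
  have h3 : 0 < p.rootMultiplicity a := by omega
  exact not_both hc a ⟨(mult_pos_iff hp a).1 h3, ha⟩

/- the places of the rational function field -/
inductive IsPlace (δ : Derivation ℤ ℂ ℂ) : Pl (RatFunc ℂ) δ → Prop
  | fin (a : ℂ) : IsPlace δ (PF δ a)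
  | inf : IsPlace δ (PI δ)

end Pool.Agent.Lib.MP_4f5f6e_ag
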