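import Mathlib
import Pool.Agent.Lib.MP_4f5f6e_ag.PlInf
import Pool.Agent.Lib.MP_4f5f6e_ag.Ev

/- The ramification count (helper39). -/

namespace Pool.Agent.Lib.MP_4f5f6e_ag

open Polynomial

attribute [local instance 10000] Ring.toIntAlgebra

/- a polynomial whose multiplicities are at most twice those of W -/
lemma natDegree_le_of_mult {T W : ℂ[X]} (hT : T ≠ 0) (hW : W ≠ 0)
    (h : ∀ z, T.rootMultiplicity z ≤ 2 * W.rootMultiplicity z) :
    T.natDegree ≤ 2 * W.natDegree := by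
  classical
  have h1 : T.roots ≤ (W ^ 2).roots := by
    rw [Multiset.le_iff_count]
    intro z
    rw [count_roots, count_roots, sq, rootMultiplicity_mul (mul_ne_zero hW hW)]
    have := h z
    omega
  have h2 : T.roots.card = T.natDegree :=
    (splits_iff_card_roots.1 (IsAlgClosed.splits T))
  have h3 := Multiset.card_le_card h1
  have h4 := card_roots' (W ^ 2)
  rw [natDegree_pow] at h4
  omega

/- the Wronskian of numerator and denominator -/
noncomputable def wr (r s : ℂ[X]) : ℂ[X] := derivative r * s - r * derivative s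

lemma Dx_wr (r : ℂ[X]) {s : ℂ[X]} (hs : s ≠ 0) :
    Dx (algebraMap ℂ[X] (RatFunc ℂ) r / algebraMap ℂ[X] (RatFunc ℂ) s) = algebraMap ℂ[X] (RatFunc ℂ) (wr r s) / algebraMap ℂ[X] (RatFunc ℂ) (s * s) := Dx_frac r hs

/- finite places -/
lemma wr_fin {r s : ℂ[X]} (hr : r ≠ 0) (hs : s ≠ 0) (hcop : IsCoprime r s)
    (hz : ∀ c : ℂ, algebraMap ℂ[X] (RatFunc ℂ) r / algebraMap ℂ[X] (RatFunc ℂ) s ≠ algebraMap ℂ (RatFunc ℂ) c) (hW : wr r s ≠ 0) (a : ℂ) {G : ℤ}
    (hG0 : ordF a (algebraMap ℂ[X] (RatFunc ℂ) r / algebraMap ℂ[X] (RatFunc ℂ) s) < 0 → G ∣ ordF a (algebraMap ℂ[X] (RatFunc ℂ) r / algebraMap ℂ[X] (RatFunc ℂ) s))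
    (hG : ∀ c : ℂ, 1 ≤ ordF a (algebraMap ℂ[X] (RatFunc ℂ) r / algebraMap ℂ[X] (RatFunc ℂ) s - algebraMap ℂ (RatFunc ℂ) c) →
      G ∣ ordF a (algebraMap ℂ[X] (RatFunc ℂ) r / algebraMap ℂ[X] (RatFunc ℂ) s - algebraMap ℂ (RatFunc ℂ) c)) :
    G - 1 ≤ (wr r s).rootMultiplicity a := by
  have hz0 : algebraMap ℂ[X] (RatFunc ℂ) r / algebraMap ℂ[X] (RatFunc ℂ) s ≠ 0 := div_ne_zero (iota_ne hr) (iota_ne hs)
  have hd : ordF a (Dx (algebraMap ℂ[X] (RatFunc ℂ) r / algebraMap ℂ[X] (RatFunc ℂ) s)) =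
      ((wr r s).rootMultiplicity a : ℤ) - 2 * s.rootMultiplicity a := by
    rw [Dx_wr r hs, ordF_div a hW (mul_ne_zero hs hs), rootMultiplicity_mul (mul_ne_zero hs hs)]
    push_cast
    ring
  rcases Pl.pole_or_res (P := PF 0 a) (algebraMap ℂ[X] (RatFunc ℂ) r / algebraMap ℂ[X] (RatFunc ℂ) s) with h | ⟨c, h⟩
  · rw [PF_v] at h
    have h1 := hG0 h
    have h2 := (ordF_Dx a _ hz0 (by omega)).2
    rw [hd] at h2
    rw [ordF_div a hr hs] at h h1 h2
    have h3 : r.rootMultiplicity a = 0 := by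
      by_contra h3
      have h4 := (mult_pos_iff hr a).1 (Nat.pos_of_ne_zero h3)
      have h5 : 0 < s.rootMultiplicity a := by omega
      exact not_both hcop a ⟨h4, (mult_pos_iff hs a).1 h5⟩
    rw [h3] at h h1 h2
    have h6 : G ∣ (s.rootMultiplicity a : ℤ) := by
      have := (dvd_neg (a := G)).2 h1
      simpa using this
    have h7 := Int.le_of_dvd (by omega) h6
    push_cast at h2
    omega
  · have h0 : algebraMap ℂ[X] (RatFunc ℂ) r / algebraMap ℂ[X] (RatFunc ℂ) s - algebraMap ℂ (RatFunc ℂ) c ≠ 0 := sub_ne_zero.2 (hz c)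
    have h1 := h.le h0
    rw [PF_v] at h1
    have h2 := Int.le_of_dvd (by omega) (hG c h1)
    have h3 := (ordF_Dx a _ h0 (by omega)).2
    rw [map_sub, Dx_C, sub_zero, hd] at h3
    omega

/- the infinite place -/
lemma wr_inf {r s : ℂ[X]} (hr : r ≠ 0) (hs : s ≠ 0)
    (hz : ∀ c : ℂ, algebraMap ℂ[X] (RatFunc ℂ) r / algebraMap ℂ[X] (RatFunc ℂ) s ≠ algebraMap ℂ (RatFunc ℂ) c) (hW : wr r s ≠ 0) {G : ℤ}
    (hG0 : ordI (algebraMap ℂ[X] (RatFunc ℂ) r / algebraMap ℂ[X] (RatFunc ℂ) s) < 0 → G ∣ ordI (algebraMap ℂ[X] (RatFunc ℂ) r / algebraMap ℂ[X] (RatFunc ℂ) s))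
    (hG : ∀ c : ℂ, 1 ≤ ordI (algebraMap ℂ[X] (RatFunc ℂ) r / algebraMap ℂ[X] (RatFunc ℂ) s - algebraMap ℂ (RatFunc ℂ) c) →
      G ∣ ordI (algebraMap ℂ[X] (RatFunc ℂ) r / algebraMap ℂ[X] (RatFunc ℂ) s - algebraMap ℂ (RatFunc ℂ) c)) :
    ((wr r s).natDegree : ℤ) + G + 1 ≤ 2 * (max r.natDegree s.natDegree : ℕ) := by
  have hz0 : algebraMap ℂ[X] (RatFunc ℂ) r / algebraMap ℂ[X] (RatFunc ℂ) s ≠ 0 := div_ne_zero (iota_ne hr) (iota_ne hs)
  have hX : ordI (-(RatFunc.X : RatFunc ℂ) ^ 2) = -2 := by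
    have e : -(RatFunc.X : RatFunc ℂ) ^ 2 = algebraMap ℂ[X] (RatFunc ℂ) (-(X ^ 2)) := by
      rw [map_neg, map_pow, RatFunc.algebraMap_X]
    rw [e, ordI_poly, natDegree_neg, natDegree_X_pow]
    rfl
  have hX2 : -(RatFunc.X : RatFunc ℂ) ^ 2 ≠ 0 := neg_ne_zero.2 (pow_ne_zero 2 RatFunc.X_ne_zero)
  have hDne : Dx (algebraMap ℂ[X] (RatFunc ℂ) r / algebraMap ℂ[X] (RatFunc ℂ) s) ≠ 0 := by
    rw [Dx_wr r hs]
    exact div_ne_zero (iota_ne hW) (iota_ne (mul_ne_zero hs hs))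
  have hd : ordI (dI (algebraMap ℂ[X] (RatFunc ℂ) r / algebraMap ℂ[X] (RatFunc ℂ) s)) =
      2 * (s.natDegree : ℤ) - (wr r s).natDegree - 2 := by
    rw [dI_apply, ordI_mul hX2 hDne, hX, Dx_wr r hs, ordI_div hW (mul_ne_zero hs hs),
      natDegree_mul hs hs]
    push_cast
    ring
  have m1 : r.natDegree ≤ max r.natDegree s.natDegree := le_max_left _ _
  have m2 : s.natDegree ≤ max r.natDegree s.natDegree := le_max_right _ _
  rcases Pl.pole_or_res (P := PI 0) (algebraMap ℂ[X] (RatFunc ℂ) r / algebraMap ℂ[X] (RatFunc ℂ) s) with h | ⟨c, h⟩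
  · rw [PI_v] at h
    have h1 := hG0 h
    have h2 := (ordI_dI _ hz0 (by omega)).2
    rw [hd] at h2
    rw [ordI_div hr hs] at h h1 h2
    have h6 : G ∣ (r.natDegree : ℤ) - s.natDegree := by
      have := (dvd_neg (a := G)).2 h1
      rwa [neg_sub] at this
    have h7 := Int.le_of_dvd (by omega) h6
    omega
  · have h0 : algebraMap ℂ[X] (RatFunc ℂ) r / algebraMap ℂ[X] (RatFunc ℂ) s - algebraMap ℂ (RatFunc ℂ) c ≠ 0 := sub_ne_zero.2 (hz c)
    have h1 := h.le h0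
    rw [PI_v] at h1
    have h2 := Int.le_of_dvd (by omega) (hG c h1)
    have h3 := (ordI_dI _ h0 (by omega)).2
    have h4 : dI (algebraMap ℂ[X] (RatFunc ℂ) r / algebraMap ℂ[X] (RatFunc ℂ) s - algebraMap ℂ (RatFunc ℂ) c) = dI (algebraMap ℂ[X] (RatFunc ℂ) r / algebraMap ℂ[X] (RatFunc ℂ) s) := by
      rw [map_sub, dI_apply (algebraMap ℂ (RatFunc ℂ) c), Dx_C, mul_zero, sub_zero]
    rw [h4, hd] at h3
    omega

/- the count: t takes the value t₁ at places where orders of elements of L are divisible -/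
theorem count {t z : RatFunc ℂ} {t₁ : ℂ} (htc : ∀ c : ℂ, t ≠ algebraMap ℂ (RatFunc ℂ) c)
    (hzc : ∀ c : ℂ, z ≠ algebraMap ℂ (RatFunc ℂ) c)
    (L : IntermediateField ℂ (RatFunc ℂ)) (hzL : z ∈ L)
    (hF : ∀ a : ℂ, 1 ≤ ordF a (t - algebraMap ℂ (RatFunc ℂ) t₁) →
      ∃ G : ℤ, 1 ≤ G ∧ ordF a (t - algebraMap ℂ (RatFunc ℂ) t₁) ≤ 2 * (G - 1) ∧
        ∀ w ∈ L, w ≠ 0 → G ∣ ordF a w)
    (hI : 1 ≤ ordI (t - algebraMap ℂ (RatFunc ℂ) t₁) →
      ∃ G : ℤ, 1 ≤ G ∧ ordI (t - algebraMap ℂ (RatFunc ℂ) t₁) ≤ 2 * (G - 1) ∧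
        ∀ w ∈ L, w ≠ 0 → G ∣ ordI w) :
    max t.num.natDegree t.denom.natDegree + 4 ≤
      4 * max z.num.natDegree z.denom.natDegree := by
  have hz0 : z ≠ 0 := by
    have := hzc 0
    rwa [map_zero] at this
  have ht0 : t ≠ 0 := by
    have := htc 0
    rwa [map_zero] at this
  set r := z.num with hr
  set s := z.denom with hs
  have hrne : r ≠ 0 := RatFunc.num_ne_zero hz0
  have hsne : s ≠ 0 := RatFunc.denom_ne_zero z
  have hcop : IsCoprime r s := RatFunc.isCoprime_num_denom z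
  have hzeq : algebraMap ℂ[X] (RatFunc ℂ) r / algebraMap ℂ[X] (RatFunc ℂ) s = z := RatFunc.num_div_denom z
  have hzc' : ∀ c : ℂ, algebraMap ℂ[X] (RatFunc ℂ) r / algebraMap ℂ[X] (RatFunc ℂ) s ≠ algebraMap ℂ (RatFunc ℂ) c := by rw [hzeq]; exact hzc
  have hW : wr r s ≠ 0 := by
    intro h
    have h1 : Dx z = 0 := by
      rw [← hzeq, Dx_wr r hsne, h, map_zero, zero_div]
    exact (Pl.d_ne_zero (P := PF 0 0) hzc) h1
  have hsubL : ∀ c : ℂ, z - algebraMap ℂ (RatFunc ℂ) c ∈ L := fun c =>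
    L.sub_mem hzL (L.algebraMap_mem c)
  set u := t.num with hu
  set w := t.denom with hw
  have hune : u ≠ 0 := RatFunc.num_ne_zero ht0
  have hwne : w ≠ 0 := RatFunc.denom_ne_zero t
  have htcop : IsCoprime u w := RatFunc.isCoprime_num_denom t
  have hteq : algebraMap ℂ[X] (RatFunc ℂ) u / algebraMap ℂ[X] (RatFunc ℂ) w = t := RatFunc.num_div_denom t
  set T := u - C t₁ * w with hT
  have hsub : t - algebraMap ℂ (RatFunc ℂ) t₁ = algebraMap ℂ[X] (RatFunc ℂ) T / algebraMap ℂ[X] (RatFunc ℂ) w := by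
    rw [← hteq, alg_C, hT, map_sub, map_mul, sub_div, mul_div_assoc, div_self (iota_ne hwne),
      mul_one]
  have hTne : T ≠ 0 := by
    intro h
    rw [h, map_zero, zero_div] at hsub
    exact htc t₁ (sub_eq_zero.1 hsub)
  have hmult : ∀ a, T.rootMultiplicity a ≤ 2 * (wr r s).rootMultiplicity a := by
    intro a
    by_cases hTa : T.rootMultiplicity a = 0
    · omega
    · have h1 : T.eval a = 0 := (mult_pos_iff hTne a).1 (Nat.pos_of_ne_zero hTa)
      have h2 : w.eval a ≠ 0 := by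
        intro h2
        rw [hT, eval_sub, eval_mul, h2, mul_zero, sub_zero] at h1
        exact not_both htcop a ⟨h1, h2⟩
      have h3 : w.rootMultiplicity a = 0 := by
        by_contra h3
        exact h2 ((mult_pos_iff hwne a).1 (Nat.pos_of_ne_zero h3))
      have h4 : ordF a (t - algebraMap ℂ (RatFunc ℂ) t₁) = T.rootMultiplicity a := by
        rw [hsub, ordF_div a hTne hwne, h3]
        simp
      obtain ⟨G, hG1, hG2, hG3⟩ := hF a (by rw [h4]; omega)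
      have h5 := wr_fin hrne hsne hcop hzc' hW a (G := G)
        (fun _ => by rw [hzeq]; exact hG3 z hzL hz0)
        (fun c _ => by rw [hzeq]; exact hG3 _ (hsubL c) (sub_ne_zero.2 (hzc c)))
      rw [h4] at hG2
      omega
  have hdeg := natDegree_le_of_mult hTne hW hmult
  have hTI : ordI (t - algebraMap ℂ (RatFunc ℂ) t₁) = (w.natDegree : ℤ) - T.natDegree := by
    rw [hsub, ordI_div hTne hwne]
  by_cases hc : 1 ≤ ordI (t - algebraMap ℂ (RatFunc ℂ) t₁)
  · obtain ⟨G, hG1, hG2, hG3⟩ := hI hc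
    have h5 := wr_inf hrne hsne hzc' hW (G := G)
      (fun _ => by rw [hzeq]; exact hG3 z hzL hz0)
      (fun c _ => by rw [hzeq]; exact hG3 _ (hsubL c) (sub_ne_zero.2 (hzc c)))
    rw [hTI] at hc hG2
    -- natDegree u ≤ natDegree w
    have h6 : u.natDegree ≤ w.natDegree := by
      have e : u = T + C t₁ * w := by rw [hT]; ring
      rw [e]
      refine (natDegree_add_le _ _).trans (max_le (by omega) ?_)
      exact natDegree_C_mul_le _ _
    rw [max_eq_right h6]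
    omega
  · push Not at hc
    have h5 := wr_inf hrne hsne hzc' hW (G := 1) (fun _ => one_dvd _) (fun _ _ => one_dvd _)
    rw [hTI] at hc
    have h6 : max u.natDegree w.natDegree ≤ T.natDegree := by
      by_cases h7 : w.natDegree < u.natDegree
      · have h8 : T.natDegree = u.natDegree := by
          rw [hT]
          apply natDegree_sub_eq_left_of_natDegree_lt
          exact lt_of_le_of_lt (natDegree_C_mul_le _ _) h7
        rw [h8, max_eq_left h7.le]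
      · rw [max_eq_right (by omega)]
        omega
    omega

end Pool.Agent.Lib.MP_4f5f6e_ag
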