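import Mathlib
import Pool.Agent.Lib.MP_4f5f6e_ag.Bnd

/- Degrees of the intermediate fields (helper39). -/

namespace Pool.Agent.Lib.MP_4f5f6e_ag

open Polynomial IntermediateField

section general

variable {K : Type} [Field K] [Algebra ℂ K] {F : Type} [Field F] [Algebra F K]

lemma finrank_le_of_root (z : K) {h : F[X]} (h0 : h ≠ 0) (hz : aeval z h = 0)
    (htop : IntermediateField.adjoin F {z} = ⊤) : Module.finrank F K ≤ h.natDegree := by
  have hint : IsIntegral F z := (isAlgebraic_iff_isIntegral).1 ⟨h, h0, hz⟩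
  have h1 : Module.finrank F (IntermediateField.adjoin F {z}) = (minpoly F z).natDegree :=
    IntermediateField.adjoin.finrank hint
  have h2 : Module.finrank F (IntermediateField.adjoin F {z}) = Module.finrank F K := by
    rw [htop, IntermediateField.finrank_top']
  rw [← h2, h1]
  exact natDegree_le_natDegree (minpoly.degree_le_of_ne_zero F z h0 hz)

lemma adjoin_top [Algebra ℂ F] [IsScalarTower ℂ F K] (z : K)
    (h : ∀ S : IntermediateField ℂ K, (∀ u : F, algebraMap F K u ∈ S) → z ∈ S → S = ⊤) :
    IntermediateField.adjoin F {z} = ⊤ := by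
  set E := IntermediateField.adjoin F {z} with hE
  have h1 : E.restrictScalars ℂ = ⊤ := by
    apply h
    · intro u
      rw [IntermediateField.mem_restrictScalars]
      exact E.algebraMap_mem u
    · rw [IntermediateField.mem_restrictScalars]
      exact IntermediateField.mem_adjoin_simple_self F z
  rw [eq_top_iff]
  intro w _
  have h2 : w ∈ E.restrictScalars ℂ := by rw [h1]; exact IntermediateField.mem_top
  rwa [IntermediateField.mem_restrictScalars] at h2

lemma aeval_mem' (S : IntermediateField ℂ K) {t : K} (ht : t ∈ S) (a : ℂ[X]) :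
    aeval t a ∈ S := by
  have h1 : aeval t a ∈ Algebra.adjoin ℂ {t} := aeval_mem_adjoin_singleton ℂ t
  have h2 : Algebra.adjoin ℂ {t} ≤ S.toSubalgebra := by
    rw [Algebra.adjoin_le_iff]
    intro w hw
    rw [Set.mem_singleton_iff] at hw
    rw [hw]
    exact ht
  exact h2 h1

end general

variable {K : Type} [Field K] [Algebra ℂ K]

/- the order of the group of automorphisms of the generic fibre -/
noncomputable def autOrd (a b : ℂ[X]) : ℕ := by
  classical
  exact if a = 0 then 6 else if b = 0 then 4 else 2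

theorem deg_L {t x y : K} (htr : Transcendental ℂ t) {a b p q : ℂ[X]} (hab : a ≠ 0 ∨ b ≠ 0)
    (hq : q ≠ 0) (hnc : ∀ c, p - C c * q ≠ 0)
    (hgen : IntermediateField.adjoin ℂ {t, x, y} = ⊤) (hx : x ≠ 0) (hy : y ≠ 0)
    (hxy : y ^ 2 = x ^ 3 + aeval t a * x + aeval t b) :
    Module.finrank (IntermediateField.adjoin ℂ
        {fK p q t, aeval t a / x ^ 2, aeval t b / x ^ 3}) K ≤
      autOrd a b * max p.natDegree q.natDegree := by
  set L := IntermediateField.adjoin ℂ {fK p q t, aeval t a / x ^ 2, aeval t b / x ^ 3} with hL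
  have hfL : fK p q t ∈ L := IntermediateField.subset_adjoin _ _ (Set.mem_insert _ _)
  have hαL : aeval t a / x ^ 2 ∈ L :=
    IntermediateField.subset_adjoin _ _ (Set.mem_insert_of_mem _ (Set.mem_insert _ _))
  have hβL : aeval t b / x ^ 3 ∈ L :=
    IntermediateField.subset_adjoin _ _
      (Set.mem_insert_of_mem _ (Set.mem_insert_of_mem _ rfl))
  have hqt := aeval_ne htr hq
  -- t over L
  set h : L[X] := p.map (algebraMap ℂ L) - C (⟨fK p q t, hfL⟩ : L) * q.map (algebraMap ℂ L)
    with hh
  have hroot : aeval t h = 0 := by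
    rw [hh, map_sub, map_mul, aeval_C, aeval_map_algebraMap, aeval_map_algebraMap]
    change aeval t p - fK p q t * aeval t q = 0
    rw [fK, div_mul_cancel₀ _ hqt, sub_self]
  have hne : h ≠ 0 := by
    intro h0
    have hc := f_ne_C (K := K) htr hq hnc
    have h1 : ∀ i, algebraMap ℂ K (p.coeff i) = fK p q t * algebraMap ℂ K (q.coeff i) := by
      intro i
      have h2 := congrArg (fun w : L[X] => (w.coeff i : K)) h0
      simp only [hh, coeff_sub, coeff_map, coeff_C_mul, coeff_zero] at h2
      have h3 : algebraMap ℂ K (p.coeff i) - fK p q t * algebraMap ℂ K (q.coeff i) = 0 := h2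
      exact sub_eq_zero.1 h3
    have h2 := h1 q.natDegree
    have hlq : q.coeff q.natDegree ≠ 0 := by
      rw [coeff_natDegree]; exact leadingCoeff_ne_zero.2 hq
    apply hc (p.coeff q.natDegree / q.coeff q.natDegree)
    rw [map_div₀, h2, mul_div_cancel_right₀]
    exact (_root_.map_ne_zero _).2 hlq
  have hdeg : h.natDegree ≤ max p.natDegree q.natDegree := by
    rw [hh]
    refine (natDegree_sub_le _ _).trans (max_le_max ?_ ?_)
    · exact natDegree_map_le
    · exact (natDegree_C_mul_le _ _).trans natDegree_map_le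
  have hint : IsIntegral L t := (isAlgebraic_iff_isIntegral).1 ⟨h, hne, hroot⟩
  set F1 := IntermediateField.adjoin L {t} with hF1
  have hf1 : Module.finrank L F1 ≤ max p.natDegree q.natDegree := by
    have h1 : Module.finrank L F1 = (minpoly L t).natDegree := IntermediateField.adjoin.finrank hint
    rw [h1]
    exact (natDegree_le_natDegree (minpoly.degree_le_of_ne_zero L t hne hroot)).trans hdeg
  -- elements of F1
  have htF : t ∈ F1.restrictScalars ℂ := by
    rw [IntermediateField.mem_restrictScalars]
    exact IntermediateField.mem_adjoin_simple_self L t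
  have hAF := aeval_mem' _ htF a
  have hBF := aeval_mem' _ htF b
  have hαF : aeval t a / x ^ 2 ∈ F1.restrictScalars ℂ := by
    rw [IntermediateField.mem_restrictScalars]
    exact F1.algebraMap_mem ⟨_, hαL⟩
  have hβF : aeval t b / x ^ 3 ∈ F1.restrictScalars ℂ := by
    rw [IntermediateField.mem_restrictScalars]
    exact F1.algebraMap_mem ⟨_, hβL⟩
  set γ := y ^ 2 / x ^ 3 with hγdef
  have hγ : γ = 1 + aeval t a / x ^ 2 + aeval t b / x ^ 3 := by
    rw [hγdef, hxy]
    field_simp
  have hγ0 : γ ≠ 0 := div_ne_zero (pow_ne_zero 2 hy) (pow_ne_zero 3 hx)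
  have hγF : γ ∈ F1.restrictScalars ℂ := by
    rw [hγ]
    exact add_mem (add_mem (one_mem _) hαF) hβF
  have hz2 : (y / x) ^ 2 = γ * x := by
    rw [hγdef]
    field_simp
  -- a power of y / x in F1
  have hpow : (y / x) ^ autOrd a b ∈ F1 := by
    have hmem : (y / x) ^ autOrd a b ∈ F1.restrictScalars ℂ := by
      unfold autOrd
      split_ifs with ha hb
      · -- a = 0
        have hb : b ≠ 0 := hab.resolve_left (fun h => h ha)
        have hB0 := aeval_ne htr hb
        have e : (y / x) ^ 6 = γ ^ 3 * (aeval t b / (aeval t b / x ^ 3)) := by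
          have : (y / x) ^ 6 = ((y / x) ^ 2) ^ 3 := by ring
          rw [this, hz2, mul_pow]
          field_simp
        rw [e]
        exact mul_mem (pow_mem hγF 3) (div_mem hBF hβF)
      · -- b = 0
        have hA0 := aeval_ne htr ha
        have e : (y / x) ^ 4 = γ ^ 2 * (aeval t a / (aeval t a / x ^ 2)) := by
          have : (y / x) ^ 4 = ((y / x) ^ 2) ^ 2 := by ring
          rw [this, hz2, mul_pow]
          field_simp
        rw [e]
        exact mul_mem (pow_mem hγF 2) (div_mem hAF hαF)
      · have hA0 := aeval_ne htr ha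
        have hB0 := aeval_ne htr hb
        have e : (y / x) ^ 2 = γ * (((aeval t a / x ^ 2) / (aeval t b / x ^ 3)) *
            (aeval t b / aeval t a)) := by
          rw [hz2]
          field_simp
        rw [e]
        exact mul_mem hγF (mul_mem (div_mem hαF hβF) (div_mem hBF hAF))
    rwa [IntermediateField.mem_restrictScalars] at hmem
  have hst : IsScalarTower ℂ F1 K := IsScalarTower.of_algebraMap_eq (fun c => rfl)
  have htop : IntermediateField.adjoin F1 {y / x} = ⊤ := by
    apply adjoin_top (F := F1)
    intro S hS hz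
    rw [IntermediateField.mem_restrictScalars] at htF hγF
    have hγS : γ ∈ S := hS ⟨_, hγF⟩
    have hxS : x ∈ S := by
      have e : x = (y / x) ^ 2 / γ := by
        rw [hz2, mul_div_cancel_left₀ _ hγ0]
      rw [e]
      exact div_mem (pow_mem hz 2) hγS
    have hyS : y ∈ S := by
      have e : y = (y / x) * x := by field_simp
      rw [e]
      exact mul_mem hz hxS
    rw [eq_top_iff, ← hgen, IntermediateField.adjoin_le_iff]
    rintro w (rfl | rfl | hw)
    · exact hS ⟨_, htF⟩
    · exact hxS
    · rw [Set.mem_singleton_iff] at hw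
      rw [hw]
      exact hyS
  have hpos : autOrd a b ≠ 0 := by
    unfold autOrd
    split_ifs <;> norm_num
  have hf2 : Module.finrank F1 K ≤ autOrd a b := by
    set h2 : F1[X] := X ^ autOrd a b - C (⟨_, hpow⟩ : F1) with hh2
    have h0 : h2 ≠ 0 := (monic_X_pow_sub_C _ hpos).ne_zero
    have hr : aeval (y / x) h2 = 0 := by
      rw [hh2, map_sub, map_pow, aeval_X, aeval_C]
      change (y / x) ^ autOrd a b - (y / x) ^ autOrd a b = 0
      rw [sub_self]
    have h3 := finrank_le_of_root (F := F1) (y / x) h0 hr htop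
    have h4 : h2.natDegree = autOrd a b := natDegree_X_pow_sub_C
    omega
  have h5 := Module.finrank_mul_finrank L F1 K
  rw [← h5, mul_comm (autOrd a b)]
  exact Nat.mul_le_mul hf1 hf2

/- the case y = 0 -/
theorem deg_y0 {t x : K} {a b : ℂ[X]}
    (hgen : IntermediateField.adjoin ℂ {t, x, 0} = ⊤)
    (hxy : 0 = x ^ 3 + aeval t a * x + aeval t b) :
    Module.finrank (IntermediateField.adjoin ℂ {t}) K ≤ 3 := by
  set L := IntermediateField.adjoin ℂ {t} with hL
  have htL : t ∈ L := IntermediateField.mem_adjoin_simple_self ℂ t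
  have hAL := aeval_mem' L htL a
  have hBL := aeval_mem' L htL b
  have htop : IntermediateField.adjoin L {x} = ⊤ := by
    apply adjoin_top (F := L)
    intro S hS hy
    rw [eq_top_iff, ← hgen, IntermediateField.adjoin_le_iff]
    rintro w (rfl | rfl | hw)
    · exact hS ⟨_, htL⟩
    · exact hy
    · rw [Set.mem_singleton_iff] at hw
      rw [hw]
      exact S.zero_mem
  set h : L[X] := X ^ 3 + (C (⟨_, hAL⟩ : L) * X + C (⟨_, hBL⟩ : L)) with hh
  have hm : (C (⟨_, hAL⟩ : L) * X + C (⟨_, hBL⟩ : L) : L[X]).degree < 3 :=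
    lt_of_le_of_lt degree_linear_le (by norm_num)
  have hdeg : h.natDegree = 3 := by
    rw [hh]
    apply natDegree_eq_of_degree_eq_some
    rw [degree_add_eq_left_of_degree_lt]
    · exact degree_X_pow 3
    · rw [degree_X_pow]; exact hm
  have h0 : h ≠ 0 := by
    intro h0
    rw [h0, natDegree_zero] at hdeg
    omega
  have hr : aeval x h = 0 := by
    rw [hh, map_add, map_pow, aeval_X, map_add, map_mul, aeval_C, aeval_C, aeval_X]
    change x ^ 3 + (aeval t a * x + aeval t b) = 0
    rw [← add_assoc, ← hxy]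
  have h3 := finrank_le_of_root (F := L) x h0 hr htop
  omega

/- the case x = 0 -/
theorem deg_x0 {t y : K} {b : ℂ[X]}
    (hgen : IntermediateField.adjoin ℂ {t, 0, y} = ⊤) (hxy : y ^ 2 = aeval t b) :
    Module.finrank (IntermediateField.adjoin ℂ {t}) K ≤ 2 := by
  set L := IntermediateField.adjoin ℂ {t} with hL
  have htL : t ∈ L := IntermediateField.mem_adjoin_simple_self ℂ t
  have hBL := aeval_mem' L htL b
  have htop : IntermediateField.adjoin L {y} = ⊤ := by
    apply adjoin_top (F := L)
    intro S hS hy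
    rw [eq_top_iff, ← hgen, IntermediateField.adjoin_le_iff]
    rintro w (rfl | rfl | hw)
    · exact hS ⟨_, htL⟩
    · exact S.zero_mem
    · rw [Set.mem_singleton_iff] at hw
      rw [hw]
      exact hy
  set h : L[X] := X ^ 2 - C (⟨_, hBL⟩ : L) with hh
  have h0 : h ≠ 0 := (monic_X_pow_sub_C _ two_ne_zero).ne_zero
  have hr : aeval y h = 0 := by
    rw [hh, map_sub, map_pow, aeval_X, aeval_C]
    change y ^ 2 - aeval t b = 0
    rw [hxy, sub_self]
  have h3 := finrank_le_of_root (F := L) y h0 hr htop
  have h4 : h.natDegree = 2 := natDegree_X_pow_sub_C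
  omega

end Pool.Agent.Lib.MP_4f5f6e_ag
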