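import Mathlib
import Pool.Agent.Lib.MP_4f5f6e_ag.Ev

/- Divisibility of orders in the field generated by the constants of N (helper39). -/

namespace Pool.Agent.Lib.MP_4f5f6e_ag

namespace Pl

variable {K : Type} [Field K] [Algebra ℂ K] {δ : ℂ → ℂ} {P : Pl K δ}

/- constants of N have order 0 at a place of type II -/
lemma const_ord {N : Derivation ℤ K K} {κ : K} (hN : ∀ x, N x = P.D x - κ * P.d x)
    (hκ0 : κ ≠ 0) (hκ : P.v κ ≤ 0) {z : K} (hz : z ≠ 0) (hNz : N z = 0) : P.v z = 0 := by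
  by_contra hv
  obtain ⟨h1, h2⟩ := P.d_ord z hz hv
  have h3 : κ * P.d z = P.D z := by
    have := hN z
    rw [hNz] at this
    exact (sub_eq_zero.1 this.symm).symm
  have h4 := (P.ge_self z).D.le (by rw [← h3]; exact mul_ne_zero hκ0 h1)
  rw [← h3, P.v_mul hκ0 h1, h2] at h4
  omega

/- orders of elements of the algebra generated by the constants of N -/
theorem adjoin_ord {N Δ : Derivation ℤ K K} {κ f : K}
    (hN : ∀ x, N x = P.D x - κ * P.d x) (hΔ : ∀ x, Δ x = P.d x / P.d f)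
    (hcomm : ∀ z, N z = 0 → N (Δ z) = 0) (hdf : P.d f ≠ 0) {G : ℤ} (hG : 1 ≤ G)
    (hvdf : P.v (P.d f) = G - 1) (hκ0 : κ ≠ 0) (hκ : P.v κ ≤ 0)
    {z : K} (hz : z ∈ Algebra.adjoin ℂ {z : K | N z = 0}) (hz0 : z ≠ 0) :
    0 ≤ P.v z ∧ G ∣ P.v z := by
  have hge : ∀ z ∈ Algebra.adjoin ℂ {z : K | N z = 0}, P.ge 0 z := by
    intro z hz
    refine Algebra.adjoin_induction (p := fun z _ => P.ge 0 z) ?_ ?_ ?_ ?_ hz
    · intro w hw
      by_cases hw0 : w = 0
      · left; exact hw0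
      · right; exact (const_ord hN hκ0 hκ hw0 hw).ge
    · intro c
      exact P.ge_C c
    · intro x y _ _ hx hy
      exact hx.add hy
    · intro x y _ _ hx hy
      have := hx.mul hy
      rwa [add_zero] at this
  have hΔR : ∀ z ∈ Algebra.adjoin ℂ {z : K | N z = 0},
      Δ z ∈ Algebra.adjoin ℂ {z : K | N z = 0} := by
    intro z hz
    refine Algebra.adjoin_induction
      (p := fun z _ => Δ z ∈ Algebra.adjoin ℂ {z : K | N z = 0}) ?_ ?_ ?_ ?_ hz
    · intro w hw
      exact Algebra.subset_adjoin (hcomm w hw)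
    · intro c
      rw [hΔ, P.d_C, zero_div]
      exact Subalgebra.zero_mem _
    · intro x y _ _ hx hy
      rw [map_add]
      exact Subalgebra.add_mem _ hx hy
    · intro x y hx hy hx' hy'
      rw [Derivation.leibniz]
      exact Subalgebra.add_mem _ (Subalgebra.mul_mem _ hx hy') (Subalgebra.mul_mem _ hy hx')
  have main : ∀ n : ℕ, ∀ z ∈ Algebra.adjoin ℂ {z : K | N z = 0}, z ≠ 0 → P.v z = n →
      G ∣ P.v z := by
    intro n
    induction n using Nat.strong_induction_on with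
    | _ n ih =>
      intro z hz hz0 hv
      by_cases hn : n = 0
      · rw [hv, hn]; exact dvd_zero G
      · obtain ⟨h1, h2⟩ := P.d_ord z hz0 (by omega)
        have h3 : Δ z ≠ 0 := by rw [hΔ]; exact div_ne_zero h1 hdf
        have h4 : P.v (Δ z) = P.v z - G := by
          rw [hΔ, P.v_div h1 hdf, h2, hvdf]; ring
        have h5 := (hge _ (hΔR z hz)).le h3
        have h6 : G ∣ P.v (Δ z) := by
          refine ih (P.v (Δ z)).toNat ?_ _ (hΔR z hz) h3 ?_
          · omega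
          · omega
        rw [h4] at h6
        have h7 : P.v z = (P.v z - G) + G := by ring
        rw [h7]
        exact dvd_add h6 (dvd_refl G)
  have h0 := (hge z hz).le hz0
  exact ⟨h0, main (P.v z).toNat z hz hz0 (by omega)⟩

/- the same for the field generated by constants of N -/
theorem field_ord {N Δ : Derivation ℤ K K} {κ f : K}
    (hN : ∀ x, N x = P.D x - κ * P.d x) (hΔ : ∀ x, Δ x = P.d x / P.d f)
    (hcomm : ∀ z, N z = 0 → N (Δ z) = 0) (hdf : P.d f ≠ 0) {G : ℤ} (hG : 1 ≤ G)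
    (hvdf : P.v (P.d f) = G - 1) (hκ0 : κ ≠ 0) (hκ : P.v κ ≤ 0)
    {S : Set K} (hS : ∀ z ∈ S, N z = 0)
    {z : K} (hz : z ∈ IntermediateField.adjoin ℂ S) (hz0 : z ≠ 0) : G ∣ P.v z := by
  rw [IntermediateField.mem_adjoin_iff_div] at hz
  obtain ⟨r, hr, s, hs, rfl⟩ := hz
  have hr0 : r ≠ 0 := fun h => hz0 (by rw [h, zero_div])
  have hs0 : s ≠ 0 := fun h => hz0 (by rw [h, div_zero])
  have hmono : Algebra.adjoin ℂ S ≤ Algebra.adjoin ℂ {z : K | N z = 0} :=
    Algebra.adjoin_mono hS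
  rw [P.v_div hr0 hs0]
  exact dvd_sub (adjoin_ord hN hΔ hcomm hdf hG hvdf hκ0 hκ (hmono hr) hr0).2
    (adjoin_ord hN hΔ hcomm hdf hG hvdf hκ0 hκ (hmono hs) hs0).2

end Pl

end Pool.Agent.Lib.MP_4f5f6e_ag
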