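import Mathlib
import Pool.Agent.Lib.MP_4f5f6e_ag.Bnd
import Pool.Agent.Lib.MP_4f5f6e_ag.Ram

/- Divisibility of orders at the places over a moving point (helper39). -/

namespace Pool.Agent.Lib.MP_4f5f6e_ag

open Polynomial

/- transcendental elements stay transcendental under p / q -/
lemma fK_tr {K : Type} [Field K] [Algebra ℂ K] {p q : ℂ[X]} {t : K} (htr : Transcendental ℂ t)
    (hq : q ≠ 0) (hnc : ∀ c, p - C c * q ≠ 0) : Transcendental ℂ (fK p q t) := by
  rintro ⟨w, hw0, hw⟩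
  have hint : IsIntegral ℂ (fK p q t) := (isAlgebraic_iff_isIntegral).1 ⟨w, hw0, hw⟩
  have h3 := IsAlgClosed.degree_eq_one_of_irreducible ℂ (minpoly.irreducible hint)
  obtain ⟨z, hz⟩ := minpoly.mem_range_of_degree_eq_one ℂ (fK p q t) h3
  exact f_ne_C htr hq hnc z hz.symm

namespace Pl

variable {K : Type} [Field K] [Algebra ℂ K] {δ : ℂ → ℂ} {P : Pl K δ}
variable {k : Subfield ℂ} {a b p q U V : ℂ[X]} {χ : ℕ}

lemma mul_res {x y : K} {α β : ℂ} (hx : P.ge 1 (x - algebraMap ℂ K α))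
    (hy : P.ge 1 (y - algebraMap ℂ K β)) : P.ge 1 (x * y - algebraMap ℂ K (α * β)) := by
  have e : x * y - algebraMap ℂ K (α * β) =
      (x - algebraMap ℂ K α) * y + algebraMap ℂ K α * (y - algebraMap ℂ K β) := by
    rw [map_mul]; ring
  rw [e]
  have h1 := hx.mul (ge0_of_fin hy)
  rw [add_zero] at h1
  exact h1.add (hy.C_mul α)

/- a moving singular fibre is not a fibre with a, b both nonzero -/
lemma moving_sing (k : Subfield ℂ) [IsAlgClosed k] (hD : Dat k a b p q U V χ)
    {t : K} {t₀ : ℂ} (htr : Transcendental ℂ t)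
    (ht : P.ge 1 (t - algebraMap ℂ K t₀)) (hqt : q.eval t₀ ≠ 0)
    (hc : p.eval t₀ / q.eval t₀ ∉ k)
    (hrel : (aeval t a) ^ 3 * aeval (fK p q t) V = (aeval t b) ^ 2 * aeval (fK p q t) U)
    (hbt : b.eval t₀ ≠ 0) (hd : (4 * a ^ 3 + 27 * b ^ 2).eval t₀ = 0) : False := by
  set c := p.eval t₀ / q.eval t₀ with hcdef
  have hfres : P.ge 1 (fK p q t - algebraMap ℂ K c) := f_res htr hD.hq hD.hnc ht hqt
  have h1 := mul_res (ev_res ht (a ^ 3)) (ev_res hfres V)
  have h2 := mul_res (ev_res ht (b ^ 2)) (ev_res hfres U)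
  rw [map_pow] at h1 h2
  rw [hrel] at h1
  have h3 := res_unique h1 h2
  rw [eval_pow, eval_pow] at h3
  have hd' : 4 * (a.eval t₀) ^ 3 + 27 * (b.eval t₀) ^ 2 = 0 := by
    have e : (4 * a ^ 3 + 27 * b ^ 2).eval t₀ =
        4 * (a.eval t₀) ^ 3 + 27 * (b.eval t₀) ^ 2 := by simp
    rwa [e] at hd
  have h4 : (b.eval t₀) ^ 2 * (4 * U.eval c + 27 * V.eval c) = 0 := by
    linear_combination V.eval c * hd' - 4 * h3
  have h5 := (mul_eq_zero.1 h4).resolve_left (pow_ne_zero 2 hbt)
  have h6 : (4 * U + 27 * V : ℂ[X]) = 0 := by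
    by_contra h6
    refine eval_ne_zero_of_coeff k (V := 4 * U + 27 * V) ?_ h6 hc ?_
    · intro i
      have e4 : (4 : ℂ[X]) = C 4 := (map_ofNat C 4).symm
      have e27 : (27 : ℂ[X]) = C 27 := (map_ofNat C 27).symm
      rw [e4, e27, coeff_add, coeff_C_mul, coeff_C_mul]
      refine k.add_mem (k.mul_mem ?_ (hD.hU i)) (k.mul_mem ?_ (hD.hV i))
      · exact_mod_cast natCast_mem k 4
      · exact_mod_cast natCast_mem k 27
    · simpa using h5
  have hV0 : V ≠ 0 := by
    rintro rfl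
    rw [mul_zero, add_zero] at h6
    have h4ne : (4 : ℂ[X]) ≠ 0 := by
      rw [← map_ofNat C 4]
      exact Polynomial.C_ne_zero.2 (by norm_num)
    have hU0 := (mul_eq_zero.1 h6).resolve_left h4ne
    rcases hD.hUV with h | h
    · exact h hU0
    · exact h rfl
  have hV1 : aeval (fK p q t) V ≠ 0 := aeval_ne (fK_tr htr hD.hq hD.hnc) hV0
  have h7 : 4 * aeval (fK p q t) U + 27 * aeval (fK p q t) V = 0 := by
    have := congrArg (aeval (fK p q t)) h6
    rw [map_add, map_mul, map_mul, map_ofNat, map_ofNat, map_zero] at this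
    exact this
  have h8 : (4 * (aeval t a) ^ 3 + 27 * (aeval t b) ^ 2) * aeval (fK p q t) V = 0 := by
    linear_combination 4 * hrel + (aeval t b) ^ 2 * h7
  have h9 := (mul_eq_zero.1 h8).resolve_right hV1
  have h10 : aeval t (4 * a ^ 3 + 27 * b ^ 2) = 0 := by
    rw [disc_aeval]
    exact h9
  exact aeval_ne htr hD.hdisc h10

theorem place_over (k : Subfield ℂ) [IsAlgClosed k] (hδ0 : ∀ z, δ z ≠ 0 → z ∉ k)
    (hD : Dat k a b p q U V χ) {t : K} (htr : Transcendental ℂ t)
    (hrel : (aeval t a) ^ 3 * aeval (fK p q t) V = (aeval t b) ^ 2 * aeval (fK p q t) U)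
    {N Δ : Derivation ℤ K K}
    (hN : ∀ x, N x = P.D x - (P.D (fK p q t) / P.d (fK p q t)) * P.d x)
    (hΔ : ∀ x, Δ x = P.d x / P.d (fK p q t))
    (hcomm : ∀ z, N z = 0 → N (Δ z) = 0)
    {x y l : K} (hl : N (aeval t a) = 4 * l * aeval t a)
    (hl' : N (aeval t b) = 6 * l * aeval t b)
    (hx : N x - 2 * l * x = 0)
    (hxy : y ^ 2 = x ^ 3 + aeval t a * x + aeval t b) (hx0 : x ≠ 0) (hy : y ≠ 0)
    {t₁ : ℂ} (hmu : 1 ≤ mu k p q (4 * a ^ 3 + 27 * b ^ 2) t₁)
    (hδ1 : δ (p.eval t₁ / q.eval t₁) ≠ 0)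
    (ht : P.ge 1 (t - algebraMap ℂ K t₁)) :
    ∃ G : ℤ, 1 ≤ G ∧ P.v (t - algebraMap ℂ K t₁) ≤ 2 * (G - 1) ∧
      ∀ z ∈ IntermediateField.adjoin ℂ {fK p q t, aeval t a / x ^ 2, aeval t b / x ^ 3}, z ≠ 0 →
        G ∣ P.v z := by
  have hfc := f_ne_C (K := K) htr hD.hq hD.hnc
  have ht0 : t - algebraMap ℂ K t₁ ≠ 0 := sub_ne_zero.2 (t_ne_C htr t₁)
  have hte := ht.le ht0
  set c := p.eval t₁ / q.eval t₁ with hcdef
  have hck : c ∉ k := hδ0 c hδ1
  have hqt : q.eval t₁ ≠ 0 := by
    intro h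
    rw [hcdef, h, div_zero] at hck
    exact hck k.zero_mem
  have hfres : P.ge 1 (fK p q t - algebraMap ℂ K c) := f_res htr hD.hq hD.hnc ht hqt
  obtain ⟨hdf, hκ0, hκ⟩ := kappa_II hfc hδ1 hfres
  have hvf := v_f_sub htr hD.hq hD.hnc ht hqt c
  set g := (p - C c * q).rootMultiplicity t₁ with hg
  have hg1 : 0 < g := by
    rw [hg, rootMultiplicity_pos (hD.hnc _)]
    change (p - C c * q).eval t₁ = 0
    rw [eval_sub, eval_mul, eval_C, hcdef, div_mul_cancel₀ _ hqt, sub_self]
  rw [hvf] at hκ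
  have hge : 1 ≤ (g : ℤ) * P.v (t - algebraMap ℂ K t₁) := by
    have h2 : (1 : ℤ) ≤ g := by exact_mod_cast hg1
    nlinarith
  have hdford : P.v (P.d (fK p q t)) = g * P.v (t - algebraMap ℂ K t₁) - 1 := by
    have h2 := (P.d_ord (fK p q t - algebraMap ℂ K c) (sub_ne_zero.2 (hfc c)) (by
      rw [hvf]; omega)).2
    rw [map_sub, P.d_C, sub_zero, hvf] at h2
    exact h2
  -- constants of N
  have hNx : N x = 2 * l * x := sub_eq_zero.1 hx
  have hNα : N (aeval t a / x ^ 2) = 0 := by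
    rw [Derivation.leibniz_div, Derivation.leibniz_pow, hl, hNx]
    simp only [smul_eq_mul, nsmul_eq_mul]
    push_cast
    ring
  have hNβ : N (aeval t b / x ^ 3) = 0 := by
    rw [Derivation.leibniz_div, Derivation.leibniz_pow, hl', hNx]
    simp only [smul_eq_mul, nsmul_eq_mul]
    push_cast
    ring
  have hγ : y ^ 2 / x ^ 3 = 1 + aeval t a / x ^ 2 + aeval t b / x ^ 3 := by
    rw [hxy]
    field_simp
  have hNγ : N (y ^ 2 / x ^ 3) = 0 := by
    rw [hγ, map_add, map_add, Derivation.map_one_eq_zero, hNα, hNβ]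
    simp
  have hκle : P.v (P.D (fK p q t) / P.d (fK p q t)) ≤ 0 := by rw [hκ]; omega
  have hγ0 : y ^ 2 / x ^ 3 ≠ 0 := div_ne_zero (pow_ne_zero 2 hy) (pow_ne_zero 3 hx0)
  have o1 := const_ord hN hκ0 hκle hγ0 hNγ
  rw [P.v_div (pow_ne_zero 2 hy) (pow_ne_zero 3 hx0), P.v_pow hy, P.v_pow hx0] at o1
  have o2 : aeval t a ≠ 0 → P.v (aeval t a) = 2 * P.v x := by
    intro h
    have := const_ord hN hκ0 hκle (div_ne_zero h (pow_ne_zero 2 hx0)) hNα
    rw [P.v_div h (pow_ne_zero 2 hx0), P.v_pow hx0] at this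
    push_cast at this
    omega
  have o3 : aeval t b ≠ 0 → P.v (aeval t b) = 3 * P.v x := by
    intro h
    have := const_ord hN hκ0 hκle (div_ne_zero h (pow_ne_zero 3 hx0)) hNβ
    rw [P.v_div h (pow_ne_zero 3 hx0), P.v_pow hx0] at this
    push_cast at this
    omega
  push_cast at o1
  refine ⟨g * P.v (t - algebraMap ℂ K t₁), hge, ?_, ?_⟩
  · by_cases hg2 : 2 ≤ g
    · have h2 : (2 : ℤ) ≤ g := by exact_mod_cast hg2
      nlinarith
    · have hg3 : g = 1 := by omega
      rw [mu, if_neg hck, ← hg, hg3] at hmu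
      have hd : (4 * a ^ 3 + 27 * b ^ 2).eval t₁ = 0 := by
        by_contra hd
        rw [if_neg hd] at hmu
        omega
      rw [hg3]
      push_cast
      by_contra hcon
      have he1 : P.v (t - algebraMap ℂ K t₁) = 1 := by omega
      -- orders of A and B
      have hvx : ∃ r, P.v x = 2 * r := ⟨P.v y - P.v x, by omega⟩
      obtain ⟨r, hr⟩ := hvx
      have hA0 := ev_ge0 (ge0_of_fin ht) a
      have hB0 := ev_ge0 (ge0_of_fin ht) b
      by_cases hr1 : 1 ≤ r
      · apply hD.hmin t₁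
        constructor
        · apply fin_dvd ht ht0
          by_cases hA : aeval t a = 0
          · left; exact hA
          · right; rw [o2 hA, he1]; push_cast; omega
        · apply fin_dvd ht ht0
          by_cases hB : aeval t b = 0
          · left; exact hB
          · right; rw [o3 hB, he1]; push_cast; omega
      · -- r = 0
        have hr0 : r = 0 := by
          rcases hD.hab with h | h
          · have hA := aeval_ne htr h
            have h1 := hA0.le hA
            rw [o2 hA] at h1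
            omega
          · have hB := aeval_ne htr h
            have h1 := hB0.le hB
            rw [o3 hB] at h1
            omega
        have hnonzero : ∀ w : ℂ[X], w ≠ 0 → P.v (aeval t w) = 0 → w.eval t₁ ≠ 0 := by
          intro w hw hv he
          have h1 := (ev_mult ht ht0 hw).2
          rw [hv, he1, mul_one] at h1
          have h2 : 0 < w.rootMultiplicity t₁ := by
            rw [rootMultiplicity_pos hw]; exact he
          omega
        have e : (4 * a ^ 3 + 27 * b ^ 2).eval t₁ =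
            4 * (a.eval t₁) ^ 3 + 27 * (b.eval t₁) ^ 2 := by simp
        by_cases hb : b = 0
        · have ha : a ≠ 0 := hD.hab.resolve_right (fun h => h hb)
          have h1 := hnonzero a ha (by rw [o2 (aeval_ne htr ha)]; omega)
          rw [e, hb, eval_zero] at hd
          have h2 : (a.eval t₁) ^ 3 = 0 := by linear_combination hd / 4
          exact h1 (pow_eq_zero_iff (three_ne_zero) |>.1 h2)
        · have h1 := hnonzero b hb (by rw [o3 (aeval_ne htr hb)]; omega)
          exact moving_sing k hD htr ht hqt hck hrel h1 hd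
  · intro z hz hz0
    refine field_ord (P := P) hN hΔ hcomm hdf hge hdford hκ0 hκle
      (S := {fK p q t, aeval t a / x ^ 2, aeval t b / x ^ 3}) ?_ hz hz0
    intro w hw
    rcases hw with rfl | rfl | hw
    · exact N_f hN hdf
    · exact hNα
    · rw [Set.mem_singleton_iff] at hw
      rw [hw]
      exact hNβ

end Pl

end Pool.Agent.Lib.MP_4f5f6e_ag
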