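import Mathlib
import Pool.Agent.Lib.MP_4f5f6e_ag.PlInf
import Pool.Agent.Lib.MP_4f5f6e_ag.Over

/- Global statements on the rational function field (helper39). -/

namespace Pool.Agent.Lib.MP_4f5f6e_ag

open Polynomial

attribute [local instance 10000] Ring.toIntAlgebra

/- the derivation killing f -/
noncomputable def NN (δ : Derivation ℤ ℂ ℂ) (f : RatFunc ℂ) : DZ (RatFunc ℂ) :=
  Dl δ - (Dl δ f / Dx f) • Dx

/- the derivation d / df -/
noncomputable def DD (f : RatFunc ℂ) : DZ (RatFunc ℂ) := (Dx f)⁻¹ • Dx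

lemma NN_apply (δ : Derivation ℤ ℂ ℂ) (f x : RatFunc ℂ) :
    NN δ f x = Dl δ x - (Dl δ f / Dx f) * Dx x := rfl

lemma DD_apply (f x : RatFunc ℂ) : DD f x = Dx x / Dx f := by
  have : DD f x = (Dx f)⁻¹ * Dx x := rfl
  rw [this, div_eq_mul_inv, mul_comm]

lemma NN_PF (δ : Derivation ℤ ℂ ℂ) (a : ℂ) {f : RatFunc ℂ} (hf : Dx f ≠ 0) (x : RatFunc ℂ) :
    NN δ f x = (PF δ a).D x - ((PF δ a).D f / (PF δ a).d f) * (PF δ a).d x := by
  rw [NN_apply, PF_D, PF_D, PF_d, PF_d]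
  field_simp
  ring

lemma DD_PF (δ : Derivation ℤ ℂ ℂ) (a : ℂ) (f x : RatFunc ℂ) :
    DD f x = (PF δ a).d x / (PF δ a).d f := by
  rw [DD_apply, PF_d, PF_d]

lemma X2_ne : -(RatFunc.X : RatFunc ℂ) ^ 2 ≠ 0 :=
  neg_ne_zero.2 (pow_ne_zero 2 RatFunc.X_ne_zero)

lemma NN_PI (δ : Derivation ℤ ℂ ℂ) {f : RatFunc ℂ} (hf : Dx f ≠ 0) (x : RatFunc ℂ) :
    NN δ f x = (PI δ).D x - ((PI δ).D f / (PI δ).d f) * (PI δ).d x := by
  rw [NN_apply, PI_D, PI_D, PI_d, PI_d]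
  have := X2_ne
  have h2 := RatFunc.X_ne_zero (K := ℂ)
  field_simp

lemma DD_PI (δ : Derivation ℤ ℂ ℂ) (f x : RatFunc ℂ) :
    DD f x = (PI δ).d x / (PI δ).d f := by
  rw [DD_apply, PI_d, PI_d, mul_div_mul_left _ _ X2_ne]

/- constants of N are stable under d / df -/
lemma NN_comm (δ : Derivation ℤ ℂ ℂ) {f : RatFunc ℂ} (hf : Dx f ≠ 0) (z : RatFunc ℂ)
    (hz : NN δ f z = 0) : NN δ f (DD f z) = 0 := by
  have key : ∀ w, NN δ f w = 0 → NN δ f (Dx w) = Dx (Dl δ f / Dx f) * Dx w := by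
    intro w hw
    rw [NN_apply] at hw ⊢
    have h1 : Dl δ w = (Dl δ f / Dx f) * Dx w := sub_eq_zero.1 hw
    rw [Dl_Dx_comm, h1, Derivation.leibniz]
    simp only [smul_eq_mul]
    ring
  have hNf : NN δ f f = 0 := by
    rw [NN_apply, div_mul_cancel₀ _ hf, sub_self]
  rw [DD_apply, Derivation.leibniz_div, key z hz, key f hNf]
  simp only [smul_eq_mul]
  ring

lemma Dx_ne (x : RatFunc ℂ) (hx : ∀ c : ℂ, x ≠ algebraMap ℂ (RatFunc ℂ) c) : Dx x ≠ 0 := by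
  have := (Pl.d_ne_zero (P := PF 0 0) hx)
  rwa [PF_d] at this

variable {k : Subfield ℂ} {a b p q U V : ℂ[X]} {χ : ℕ}

/- the vanishing of the contraction -/
theorem W_zero (k : Subfield ℂ) (δ : Derivation ℤ ℂ ℂ) (hk : ∀ z ∈ k, δ z = 0)
    (hD : Dat k a b p q U V χ) {t : RatFunc ℂ} (htr : Transcendental ℂ t)
    {x y l : RatFunc ℂ} (hl : NN δ (fK p q t) (aeval t a) = 4 * l * aeval t a)
    (hl' : NN δ (fK p q t) (aeval t b) = 6 * l * aeval t b)
    (hxy : y ^ 2 = x ^ 3 + aeval t a * x + aeval t b) (hy : y ≠ 0)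
    {M : ℂ[X]} (hM0 : M ≠ 0)
    (hM : ∀ z, mu k p q (4 * a ^ 3 + 27 * b ^ 2) z ≤ M.rootMultiplicity z)
    (hMdeg : M.natDegree + 2 ≤ χ) : NN δ (fK p q t) x - 2 * l * x = 0 := by
  have hfc := f_ne_C (K := RatFunc ℂ) htr hD.hq hD.hnc
  have hf := Dx_ne _ hfc
  set N := NN δ (fK p q t) with hN
  have hDt : Dx t ≠ 0 := Dx_ne _ (t_ne_C htr)
  have hMt : aeval t M ≠ 0 := aeval_ne htr hM0
  have h0 : Dx t * (N x - 2 * l * x) / y * aeval t M = 0 := by
    apply eq_zero_of_places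
    · intro z
      have h1 := Pl.nu_bound (P := PF δ z) k hk hD htr (N := N)
        (fun w => NN_PF δ z hf w) hl hl' hxy hy hM0 hM hMdeg
      exact h1
    · have h1 := Pl.nu_bound (P := PI δ) k hk hD htr (N := N)
        (fun w => NN_PI δ hf w) hl hl' hxy hy hM0 hM hMdeg
      have h2 := h1.div X2_ne
      have h3 : (PI δ).d t * (N x - 2 * l * x) / y * aeval t M / -(RatFunc.X : RatFunc ℂ) ^ 2 =
          Dx t * (N x - 2 * l * x) / y * aeval t M := by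
        rw [PI_d]
        have h4 := RatFunc.X_ne_zero (K := ℂ)
        field_simp
      rw [h3] at h2
      have h5 : (PI δ).v (-(RatFunc.X : RatFunc ℂ) ^ 2) = -2 := by
        have e : -(RatFunc.X : RatFunc ℂ) ^ 2 = algebraMap ℂ[X] (RatFunc ℂ) (-(X ^ 2)) := by
          rw [map_neg, map_pow, RatFunc.algebraMap_X]
        rw [PI_v, e, ordI_poly, natDegree_neg, natDegree_X_pow]
        rfl
      rw [h5] at h2
      exact h2.mono (by norm_num)
  have h6 := (mul_eq_zero.1 h0).resolve_right hMt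
  have h7 := (div_eq_zero_iff.1 h6).resolve_right hy
  exact (mul_eq_zero.1 h7).resolve_left hDt

end Pool.Agent.Lib.MP_4f5f6e_ag
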