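import Mathlib
import Pool.Agent.Lib.MP_4f5f6e_ag.Count
import Pool.Agent.Lib.MP_4f5f6e_ag.Glob

/- Enlarging the field of constants (helper39). -/

namespace Pool.Agent.Lib.MP_4f5f6e_ag

open Polynomial

attribute [local instance 10000] Ring.toIntAlgebra

open scoped IntermediateField.algebraAdjoinAdjoin in
theorem exists_field (k : Subfield ℂ) {s : Set ℂ} {c₁ : ℂ} (hc : c₁ ∈ s)
    (hind : AlgebraicIndependent k (fun c : s => (c : ℂ))) :
    ∃ k' : Subfield ℂ, IsAlgClosed k' ∧ k ≤ k' ∧ (∀ c ∈ s, c ≠ c₁ → c ∈ k') ∧ c₁ ∉ k' := by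
  set s' : Set ℂ := s \ {c₁} with hs'
  have hins : insert c₁ s' = s := by
    rw [hs', Set.insert_diff_singleton, Set.insert_eq_of_mem hc]
  have h1 : AlgebraicIndepOn k (id : ℂ → ℂ) (insert c₁ s') := by
    rw [hins]
    exact hind
  have hnot : c₁ ∉ s' := by simp [hs']
  have h2 := ((AlgebraicIndepOn.insert_iff hnot).1 h1).2
  rw [Set.image_id] at h2
  set F := IntermediateField.adjoin k s' with hF
  refine ⟨(algebraicClosure F ℂ).toSubfield, ?_, ?_, ?_, ?_⟩
  · exact (algebraicClosure.isAlgClosure F ℂ).isAlgClosed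
  · intro z hz
    change z ∈ algebraicClosure F ℂ
    rw [mem_algebraicClosure_iff]
    have h3 : z ∈ F := F.algebraMap_mem ⟨z, hz⟩
    exact isAlgebraic_algebraMap (⟨z, h3⟩ : F)
  · intro c hcs hne
    change c ∈ algebraicClosure F ℂ
    rw [mem_algebraicClosure_iff]
    have h3 : c ∈ F := IntermediateField.subset_adjoin _ _ ⟨hcs, hne⟩
    exact isAlgebraic_algebraMap (⟨c, h3⟩ : F)
  · intro hmem
    have h3 : c₁ ∈ algebraicClosure F ℂ := hmem
    rw [mem_algebraicClosure_iff] at h3
    apply h2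
    exact (IsFractionRing.isAlgebraic_iff (Algebra.adjoin k s') F ℂ).2 h3

/- finiteness of the set of special points -/
lemma wr_ne {p q : ℂ[X]} (hq : q ≠ 0) (hnc : ∀ c, p - C c * q ≠ 0) : wr p q ≠ 0 := by
  intro h
  have hne : ∀ c : ℂ, algebraMap ℂ[X] (RatFunc ℂ) p / algebraMap ℂ[X] (RatFunc ℂ) q ≠ algebraMap ℂ (RatFunc ℂ) c := by
    intro c hc
    rw [div_eq_iff (iota_ne hq), alg_C, ← map_mul] at hc
    have := RatFunc.algebraMap_injective ℂ hc
    exact hnc c (sub_eq_zero.2 this)
  apply Dx_ne _ hne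
  rw [Dx_wr p hq, h, map_zero, zero_div]

lemma mu_support {k : Subfield ℂ} {p q d : ℂ[X]} (hq : q ≠ 0) (hnc : ∀ c, p - C c * q ≠ 0)
    (hd : d ≠ 0) : (Function.support (mu k p q d)).Finite := by
  classical
  refine Set.Finite.subset ((wr p q).roots.toFinset ∪ d.roots.toFinset).finite_toSet ?_
  intro z hz
  rw [Function.mem_support] at hz
  rw [Finset.coe_union, Set.mem_union, Finset.mem_coe, Finset.mem_coe, Multiset.mem_toFinset,
    Multiset.mem_toFinset, mem_roots (wr_ne hq hnc), mem_roots hd]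
  unfold mu at hz
  split_ifs at hz with h1 h2 h3
  · exact absurd rfl hz
  · right
    exact h2
  · left
    rw [add_zero] at hz
    have hm : 2 ≤ (p - C (p.eval z / q.eval z) * q).rootMultiplicity z := by omega
    rw [le_rootMultiplicity_iff (hnc _)] at hm
    obtain ⟨r, hr⟩ := hm
    set c := p.eval z / q.eval z with hc
    have e1 : p = C c * q + (X - C z) ^ 2 * r := by rw [← hr]; ring
    have hder : derivative p = C c * derivative q + derivative ((X - C z) ^ 2 * r) := by
      conv_lhs => rw [e1]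
      rw [derivative_add, derivative_C_mul]
    have hder2 : (derivative ((X - C z) ^ 2 * r)).eval z = 0 := by
      rw [derivative_mul, derivative_X_sub_C_sq]
      simp
    have hpz : p.eval z = c * q.eval z := by
      conv_lhs => rw [e1]
      simp
    change (wr p q).eval z = 0
    rw [wr, eval_sub, eval_mul, eval_mul, hder, eval_add, hder2, eval_mul, eval_C, hpz]
    ring

/- the count of special points after enlarging the field -/
theorem mu_sum {k k' : Subfield ℂ} (hkk : k ≤ k') {p q d : ℂ[X]}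
    (hfin : (Function.support (mu k p q d)).Finite) (s : Finset ℂ) {c₁ : ℂ} (hc₁ : c₁ ∈ s)
    (hs : ∀ c ∈ s, ∃ z, p.eval z / q.eval z = c ∧ mu k p q d z ≠ 0)
    (hsk : ∀ c ∈ s, c ≠ c₁ → c ∈ k') (hc₁k : c₁ ∉ k') :
    1 ≤ ∑ᶠ z, mu k' p q d z ∧
      ∑ᶠ z, mu k' p q d z + s.card ≤ ∑ᶠ z, mu k p q d z + 1 := by
  classical
  have hle : ∀ z, mu k' p q d z ≤ mu k p q d z := by
    intro z
    unfold mu
    by_cases h1 : p.eval z / q.eval z ∈ k'
    · rw [if_pos h1]; exact Nat.zero_le _
    · rw [if_neg h1, if_neg (fun h => h1 (hkk h))]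
  have hfin' : (Function.support (mu k' p q d)).Finite := by
    refine hfin.subset ?_
    intro z hz
    rw [Function.mem_support] at hz ⊢
    have := hle z
    omega
  have hS : ∑ᶠ z, mu k p q d z = ∑ z ∈ hfin.toFinset, mu k p q d z :=
    finsum_eq_sum_of_support_toFinset_subset _ hfin (le_refl _)
  have hS' : ∑ᶠ z, mu k' p q d z = ∑ z ∈ hfin.toFinset, mu k' p q d z := by
    apply finsum_eq_sum_of_support_subset
    intro z hz
    rw [Set.Finite.coe_toFinset]
    rw [Function.mem_support] at hz ⊢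
    have := hle z
    omega
  choose! zz hzz using hs
  constructor
  · -- the point over c₁
    obtain ⟨h1, h2⟩ := hzz c₁ hc₁
    have h3 : mu k' p q d (zz c₁) = mu k p q d (zz c₁) := by
      unfold mu
      rw [h1, if_neg hc₁k, if_neg (fun h => hc₁k (hkk h))]
    rw [hS']
    have h4 : zz c₁ ∈ hfin.toFinset := by
      rw [Set.Finite.mem_toFinset]
      exact h2
    have h5 := Finset.single_le_sum (f := fun z => mu k' p q d z)
      (fun _ _ => Nat.zero_le _) h4
    have h6 : 1 ≤ mu k' p q d (zz c₁) := by rw [h3]; exact Nat.one_le_iff_ne_zero.2 h2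
    exact h6.trans h5
  · set Z : Finset ℂ := (s.erase c₁).image zz with hZ
    have hZcard : Z.card + 1 = s.card := by
      rw [hZ, Finset.card_image_of_injOn, Finset.card_erase_of_mem hc₁]
      · have : 0 < s.card := Finset.card_pos.2 ⟨c₁, hc₁⟩
        omega
      · intro c hc c' hc' hcc
        have e1 := (hzz c (Finset.mem_of_mem_erase hc)).1
        have e2 := (hzz c' (Finset.mem_of_mem_erase hc')).1
        rw [← e1, ← e2, hcc]
    have hZS : Z ⊆ hfin.toFinset := by
      intro z hz
      rw [hZ, Finset.mem_image] at hz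
      obtain ⟨c, hc, rfl⟩ := hz
      rw [Set.Finite.mem_toFinset]
      exact (hzz c (Finset.mem_of_mem_erase hc)).2
    have hpt : ∀ z ∈ hfin.toFinset, mu k' p q d z + (if z ∈ Z then 1 else 0) ≤
        mu k p q d z := by
      intro z _
      split_ifs with hz
      · rw [hZ, Finset.mem_image] at hz
        obtain ⟨c, hc, rfl⟩ := hz
        obtain ⟨e1, e2⟩ := hzz c (Finset.mem_of_mem_erase hc)
        have e3 : mu k' p q d (zz c) = 0 := by
          unfold mu
          rw [e1, if_pos (hsk c (Finset.mem_of_mem_erase hc) (Finset.ne_of_mem_erase hc))]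
        rw [e3]
        omega
      · rw [add_zero]; exact hle z
    have hsum := Finset.sum_le_sum hpt
    rw [Finset.sum_add_distrib, Finset.sum_ite_mem, Finset.inter_eq_right.2 hZS,
      Finset.sum_const, smul_eq_mul, mul_one] at hsum
    rw [hS, hS']
    omega

end Pool.Agent.Lib.MP_4f5f6e_ag
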