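import Mathlib
import Pool.Agent.Lib.MP_4f5f6e_ag.Tr
import Pool.Agent.Lib.MP_4f5f6e_ag.Deg

/- The main theorem (helper39). -/

namespace Pool.Agent.Lib.MP_4f5f6e_ag

open Polynomial

attribute [local instance 10000] Ring.toIntAlgebra

lemma four_ne' : (4 : RatFunc ℂ) ≠ 0 := Pl.four_ne

lemma six_ne' : (6 : RatFunc ℂ) ≠ 0 := Pl.six_ne

/- the polynomial with prescribed multiplicities -/
lemma exists_M {m : ℂ → ℕ} (h : 1 ≤ ∑ᶠ z, m z) :
    ∃ M : ℂ[X], M ≠ 0 ∧ (∀ z, m z ≤ M.rootMultiplicity z) ∧ M.natDegree = ∑ᶠ z, m z := by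
  classical
  have hfin : (Function.support m).Finite := by
    by_contra hinf
    rw [finsum_of_infinite_support hinf] at h
    omega
  set S := hfin.toFinset with hS
  refine ⟨∏ z ∈ S, (X - C z) ^ m z, ?_, ?_, ?_⟩
  · exact Finset.prod_ne_zero_iff.2 fun z _ => pow_ne_zero _ (X_sub_C_ne_zero z)
  · intro z
    by_cases hz : z ∈ S
    · rw [le_rootMultiplicity_iff (Finset.prod_ne_zero_iff.2 fun z _ =>
        pow_ne_zero _ (X_sub_C_ne_zero z))]
      exact Finset.dvd_prod_of_mem (fun z => (X - C z) ^ m z) hz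
    · have : m z = 0 := by
        by_contra h0
        exact hz (by rw [hS, Set.Finite.mem_toFinset]; exact h0)
      omega
  · rw [natDegree_prod _ _ (fun z _ => pow_ne_zero _ (X_sub_C_ne_zero z)),
      finsum_eq_sum_of_support_toFinset_subset m hfin (le_refl _)]
    refine Finset.sum_congr rfl fun z _ => ?_
    rw [natDegree_pow, natDegree_X_sub_C, mul_one]

/- the function lambda -/
lemma exists_l {N : DZ (RatFunc ℂ)} {A B u v : RatFunc ℂ} (hAB : A ≠ 0 ∨ B ≠ 0)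
    (huv : A ≠ 0 → B ≠ 0 → v ≠ 0)
    (hu0 : N u = 0) (hv0 : N v = 0) (hrel : A ^ 3 * v = B ^ 2 * u) :
    ∃ l, N A = 4 * l * A ∧ N B = 6 * l * B := by
  by_cases hA : A = 0
  · have hB : B ≠ 0 := hAB.resolve_left (fun h => h hA)
    refine ⟨N B / (6 * B), ?_, ?_⟩
    · rw [hA, map_zero, mul_zero]
    · have h6 := six_ne'
      field_simp
  · refine ⟨N A / (4 * A), ?_, ?_⟩
    · have h4 := four_ne'
      field_simp
    · by_cases hB : B = 0
      · rw [hB, map_zero, mul_zero]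
      · refine N_B hA hB (huv hA hB) hu0 hv0 hrel ?_
        have h4 := four_ne'
        field_simp

theorem main_dat (k : Subfield ℂ) [IsAlgClosed k] {a b p q U V : ℂ[X]} {χ : ℕ}
    (hD : Dat k a b p q U V χ) (hpq : p.natDegree ≠ 0 ∨ q.natDegree ≠ 0)
    (hr1 : 1 ≤ ∑ᶠ z, mu k p q (4 * a ^ 3 + 27 * b ^ 2) z)
    (hr2 : ∑ᶠ z, mu k p q (4 * a ^ 3 + 27 * b ^ 2) z + 2 ≤ χ)
    {t x y : RatFunc ℂ} (htc : ∀ c : ℂ, t ≠ algebraMap ℂ (RatFunc ℂ) c)
    (hrel : (aeval t a) ^ 3 * aeval (fK p q t) V = (aeval t b) ^ 2 * aeval (fK p q t) U)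
    (hxy : y ^ 2 = x ^ 3 + aeval t a * x + aeval t b)
    (hgen : IntermediateField.adjoin ℂ {t, x, y} = ⊤) :
    max t.num.natDegree t.denom.natDegree + 4 ≤
      4 * autOrd a b * max p.natDegree q.natDegree := by
  have htC : ¬ ∃ c, t = RatFunc.C c := by
    rintro ⟨c, hc⟩
    apply htc c
    rw [RatFunc.algebraMap_eq_C]
    exact hc
  have htr : Transcendental ℂ t := RatFunc.transcendental_of_ne_C t htC
  have hpos : 1 ≤ max p.natDegree q.natDegree := by
    rcases hpq with h | h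
    · exact (Nat.one_le_iff_ne_zero.2 h).trans (le_max_left _ _)
    · exact (Nat.one_le_iff_ne_zero.2 h).trans (le_max_right _ _)
  have haut : 2 ≤ autOrd a b := by
    unfold autOrd
    split_ifs <;> norm_num
  have hbig : 8 ≤ 4 * autOrd a b * max p.natDegree q.natDegree := by
    calc 8 = 4 * 2 * 1 := by norm_num
      _ ≤ 4 * autOrd a b * max p.natDegree q.natDegree :=
        Nat.mul_le_mul (Nat.mul_le_mul_left 4 haut) hpos
  by_cases hy : y = 0
  · -- y = 0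
    subst hy
    have h1 := deg_y0 (t := t) (x := x) (a := a) (b := b) hgen (by rw [← hxy]; ring)
    rw [RatFunc.finrank_eq_max_natDegree] at h1
    omega
  by_cases hx : x = 0
  · -- x = 0
    subst hx
    have h1 := deg_x0 (t := t) (y := y) (b := b) hgen (by rw [hxy]; ring)
    rw [RatFunc.finrank_eq_max_natDegree] at h1
    omega
  obtain ⟨M, hM0, hM, hMdeg⟩ := exists_M hr1
  -- a moving point
  obtain ⟨t₁, ht₁⟩ : ∃ t₁, mu k p q (4 * a ^ 3 + 27 * b ^ 2) t₁ ≠ 0 := by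
    by_contra hcon
    push Not at hcon
    rw [finsum_congr hcon, finsum_zero] at hr1
    omega
  have hmu1 : 1 ≤ mu k p q (4 * a ^ 3 + 27 * b ^ 2) t₁ := Nat.one_le_iff_ne_zero.2 ht₁
  have hc1 : p.eval t₁ / q.eval t₁ ∉ k := by
    intro hc
    apply ht₁
    rw [mu, if_pos hc]
  obtain ⟨δ, hk, hδ⟩ := exists_delta k hc1
  have hδ0 : ∀ z, δ z ≠ 0 → z ∉ k := fun z hz hzk => hz (hk z hzk)
  have hfc := f_ne_C (K := RatFunc ℂ) htr hD.hq hD.hnc
  have hf : Dx (fK p q t) ≠ 0 := Dx_ne _ hfc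
  have hftr : Transcendental ℂ (fK p q t) := fK_tr htr hD.hq hD.hnc
  have hNk : ∀ z ∈ k, NN δ (fK p q t) (algebraMap ℂ (RatFunc ℂ) z) = 0 := by
    intro z hz
    rw [NN_apply, Dl_C, Dx_C, hk z hz, map_zero, mul_zero, sub_zero]
  have hNf : NN δ (fK p q t) (fK p q t) = 0 := by
    rw [NN_apply, div_mul_cancel₀ _ hf, sub_self]
  obtain ⟨l, hlA, hlB⟩ := exists_l (N := NN δ (fK p q t))
    (hD.hab.imp (fun h => aeval_ne htr h) (fun h => aeval_ne htr h))
    (fun hA hB hV => by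
      have hV0 : V = 0 := by
        by_contra h
        exact aeval_ne hftr h hV
      rw [hV0, map_zero, mul_zero] at hrel
      have h1 := (mul_eq_zero.1 hrel.symm).resolve_left (pow_ne_zero 2 hB)
      have hU0 : U = 0 := by
        by_contra h
        exact aeval_ne hftr h h1
      rcases hD.hUV with h | h
      · exact h hU0
      · exact h hV0)
    (N_aeval hNk hNf hD.hU) (N_aeval hNk hNf hD.hV) hrel
  have hW := W_zero k δ hk hD htr hlA hlB hxy hy hM0 hM (by rw [hMdeg]; exact hr2)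
  set L := IntermediateField.adjoin ℂ {fK p q t, aeval t a / x ^ 2, aeval t b / x ^ 3} with hL
  have hfL : fK p q t ∈ L := IntermediateField.subset_adjoin _ _ (Set.mem_insert _ _)
  have hLbot : L ≠ ⊥ := by
    intro h
    rw [h, IntermediateField.mem_bot] at hfL
    obtain ⟨c, hc⟩ := hfL
    exact hfc c hc.symm
  have hzL : RatFunc.Luroth.generator L ∈ L := RatFunc.Luroth.generator_mem
  have hzc : ∀ c : ℂ, RatFunc.Luroth.generator L ≠ algebraMap ℂ (RatFunc ℂ) c := by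
    intro c hc
    exact RatFunc.Luroth.generator_ne_C hLbot ⟨c, by rw [hc, RatFunc.algebraMap_eq_C]⟩
  have hcount := count (t := t) (z := RatFunc.Luroth.generator L) (t₁ := t₁) htc hzc L hzL
    (fun z hz => Pl.place_over (P := PF δ z) k hδ0 hD htr hrel (N := NN δ (fK p q t))
      (Δ := DD (fK p q t)) (fun w => NN_PF δ z hf w) (fun w => DD_PF δ z _ w)
      (NN_comm δ hf) hlA hlB hW hxy hx hy hmu1 hδ (Or.inr hz))
    (fun hz => Pl.place_over (P := PI δ) k hδ0 hD htr hrel (N := NN δ (fK p q t))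
      (Δ := DD (fK p q t)) (fun w => NN_PI δ hf w) (fun w => DD_PI δ _ w)
      (NN_comm δ hf) hlA hlB hW hxy hx hy hmu1 hδ (Or.inr hz))
  have hdeg := deg_L (t := t) (x := x) (y := y) htr hD.hab hD.hq hD.hnc hgen hx hy hxy
  rw [← hL] at hdeg
  have he : Module.finrank L (RatFunc ℂ) =
      Module.finrank (IntermediateField.adjoin ℂ {RatFunc.Luroth.generator L}) (RatFunc ℂ) := by
    rw [← RatFunc.Luroth.eq_adjoin_generator (E := L)]
  rw [he, RatFunc.finrank_eq_max_natDegree] at hdeg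
  calc max t.num.natDegree t.denom.natDegree + 4
      ≤ 4 * max (RatFunc.Luroth.generator L).num.natDegree
        (RatFunc.Luroth.generator L).denom.natDegree := hcount
    _ ≤ 4 * (autOrd a b * max p.natDegree q.natDegree) := Nat.mul_le_mul_left 4 hdeg
    _ = _ := by ring

/- substitution of t for the variable -/
lemma subst_t {t : RatFunc ℂ} (htr : Transcendental ℂ t) {a b U V : ℂ[X]} {Φ : RatFunc ℂ}
    (hrel : (algebraMap ℂ[X] (RatFunc ℂ) a) ^ 3 * aeval Φ V = (algebraMap ℂ[X] (RatFunc ℂ) b) ^ 2 * aeval Φ U) :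
    (aeval t a) ^ 3 * aeval (fK Φ.num Φ.denom t) V =
      (aeval t b) ^ 2 * aeval (fK Φ.num Φ.denom t) U := by
  set φ : RatFunc ℂ →ₐ[ℂ] RatFunc ℂ :=
    (IntermediateField.val _).comp (RatFunc.algEquivOfTranscendental t htr).toAlgHom with hφ
  have h1 : ∀ w : ℂ[X], φ (algebraMap ℂ[X] (RatFunc ℂ) w) = aeval t w := by
    intro w
    have e : φ (algebraMap ℂ[X] (RatFunc ℂ) w) = (IntermediateField.val (IntermediateField.adjoin ℂ {t}))
        (RatFunc.algEquivOfTranscendental t htr (algebraMap ℂ[X] (RatFunc ℂ) w)) := rfl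
    rw [e, RatFunc.algEquivOfTranscendental_algebraMap, ← aeval_algHom_apply]
    rfl
  have h2 : φ Φ = fK Φ.num Φ.denom t := by
    conv_lhs => rw [← RatFunc.num_div_denom Φ]
    rw [map_div₀, h1, h1]
    rfl
  have h3 := congrArg φ hrel
  rw [map_mul, map_mul, map_pow, map_pow, h1, h1, ← aeval_algHom_apply, ← aeval_algHom_apply,
    h2] at h3
  exact h3

theorem main (k : Subfield ℂ) [IsAlgClosed k] {a b : ℂ[X]} {χ : ℕ}
    (hdisc : 4 * a ^ 3 + 27 * b ^ 2 ≠ 0)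
    (hmin : ∀ z, ¬ ((X - C z) ^ 4 ∣ a ∧ (X - C z) ^ 6 ∣ b))
    (hχ : IsLeast {N : ℕ | a.natDegree ≤ 4 * N ∧ b.natDegree ≤ 6 * N} χ)
    {Φ : RatFunc ℂ} (hΦ : ∀ c, Φ ≠ RatFunc.C c)
    (hinf : Φ.num.natDegree = Φ.denom.natDegree → Φ.num.leadingCoeff ∈ k)
    {U V : ℂ[X]} (hU : ∀ i, U.coeff i ∈ k) (hV : ∀ i, V.coeff i ∈ k) (hUV : U ≠ 0 ∨ V ≠ 0)
    (hrel : (algebraMap ℂ[X] (RatFunc ℂ) a) ^ 3 * aeval Φ V = (algebraMap ℂ[X] (RatFunc ℂ) b) ^ 2 * aeval Φ U)
    (s : Finset ℂ) (hs : s.Nonempty)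
    (hsv : ∀ c ∈ s, ∃ z, Φ.num.eval z / Φ.denom.eval z = c ∧
      mu k Φ.num Φ.denom (4 * a ^ 3 + 27 * b ^ 2) z ≠ 0)
    (hind : AlgebraicIndependent k (fun c : s => (c : ℂ)))
    (hcard : ∑ᶠ z, mu k Φ.num Φ.denom (4 * a ^ 3 + 27 * b ^ 2) z + 3 ≤ χ + s.card)
    {t x y : RatFunc ℂ} (htc : ∀ c : ℂ, t ≠ RatFunc.C c)
    (hxy : y ^ 2 = x ^ 3 + aeval t a * x + aeval t b)
    (hgen : IntermediateField.adjoin ℂ {t, x, y} = ⊤) :
    max t.num.natDegree t.denom.natDegree + 4 ≤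
      4 * autOrd a b * max Φ.num.natDegree Φ.denom.natDegree := by
  have hq : Φ.denom ≠ 0 := RatFunc.denom_ne_zero Φ
  have hnc : ∀ c, Φ.num - C c * Φ.denom ≠ 0 := by
    intro c h
    apply hΦ c
    have h1 : Φ.num = C c * Φ.denom := sub_eq_zero.1 h
    rw [← RatFunc.num_div_denom Φ, h1, map_mul, mul_div_assoc, div_self (iota_ne hq), mul_one,
      RatFunc.algebraMap_C]
  obtain ⟨c₁, hc₁⟩ := hs
  obtain ⟨k', hk', hkk, hsk, hc₁k⟩ := exists_field k (s := (s : Set ℂ)) (c₁ := c₁) hc₁ hind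
  have hfin := mu_support (k := k) (d := 4 * a ^ 3 + 27 * b ^ 2) hq hnc hdisc
  obtain ⟨hsum1, hsum2⟩ := mu_sum hkk hfin s hc₁ hsv hsk hc₁k
  have hχ1 : 1 ≤ χ := by omega
  have hD : Dat k' a b Φ.num Φ.denom U V χ :=
    { hdisc := hdisc
      hmin := hmin
      hχa := hχ.1.1
      hχb := hχ.1.2
      hχ1 := hχ1
      hχ := fun h => by
        have := hχ.2 h
        omega
      hcop := RatFunc.isCoprime_num_denom Φ
      hq := hq
      hnc := hnc
      hinf := fun h => by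
        rw [(RatFunc.monic_denom Φ).leadingCoeff, div_one]
        exact hkk (hinf h)
      hU := fun i => hkk (hU i)
      hV := fun i => hkk (hV i)
      hUV := hUV }
  have htC : ¬ ∃ c, t = RatFunc.C c := by
    rintro ⟨c, hc⟩
    exact htc c hc
  have htr : Transcendental ℂ t := RatFunc.transcendental_of_ne_C t htC
  refine main_dat k' hD ?_ hsum1 (by omega) (fun c hc => htc c (by
    rw [← RatFunc.algebraMap_eq_C]; exact hc)) (subst_t htr hrel) hxy hgen
  by_contra hcon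
  push Not at hcon
  obtain ⟨c, hc⟩ := (RatFunc.eq_C_iff Φ).2 hcon
  exact hΦ c hc

end Pool.Agent.Lib.MP_4f5f6e_ag
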