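import Mathlib

/- Residue degrees (helper39). -/

namespace Pool.Agent.Lib.MP_4f5f6e_ag

open Polynomial IntermediateField

variable {F K : Type} [Field F] [Field K] [Algebra ℂ F] [Algebra ℂ K]

/- the inclusion of the subfield G in the valuation ring -/
def incG {G : IntermediateField ℂ F} {O : ValuationSubring F} (hG : ∀ z ∈ G, z ∈ O) : G →+* O where
  toFun z := ⟨z, hG z z.2⟩
  map_one' := rfl
  map_mul' _ _ := rfl
  map_zero' := rfl
  map_add' _ _ := rfl

lemma psi_G {T : F} {O : ValuationSubring F}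
    (hG : ∀ z ∈ IntermediateField.adjoin ℂ {T}, z ∈ O) (ψ : O →+* K)
    (hψ : ∀ c : ℂ, ψ (incG hG (algebraMap ℂ _ c)) = algebraMap ℂ K c)
    (z : IntermediateField.adjoin ℂ {T}) :
    ψ (incG hG z) ∈ IntermediateField.adjoin ℂ
      {ψ (incG hG ⟨T, IntermediateField.mem_adjoin_simple_self ℂ T⟩)} := by
  obtain ⟨z, hz⟩ := z
  refine IntermediateField.adjoin_induction (p := fun z hz => ψ (incG hG ⟨z, hz⟩) ∈
    IntermediateField.adjoin ℂ
      {ψ (incG hG ⟨T, IntermediateField.mem_adjoin_simple_self ℂ T⟩)}) ℂ ?_ ?_ ?_ ?_ ?_ hz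
  · intro x hx
    rw [Set.mem_singleton_iff] at hx
    subst hx
    exact IntermediateField.mem_adjoin_simple_self ℂ _
  · intro c
    have h := hψ c
    have e : incG hG ⟨algebraMap ℂ F c, (IntermediateField.adjoin ℂ {T}).algebraMap_mem c⟩ =
      incG hG (algebraMap ℂ _ c) := rfl
    rw [e, h]
    exact IntermediateField.algebraMap_mem _ c
  · intro x y hx hy hx' hy'
    have e : incG hG ⟨x + y, add_mem hx hy⟩ = incG hG ⟨x, hx⟩ + incG hG ⟨y, hy⟩ := rfl
    rw [e, map_add]
    exact add_mem hx' hy'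
  · intro x hx hx'
    by_cases h0 : x = 0
    · have e : incG hG ⟨x⁻¹, inv_mem hx⟩ = 0 := by
        apply Subtype.ext
        change x⁻¹ = 0
        rw [h0, inv_zero]
      rw [e, map_zero]
      exact zero_mem _
    · have e : incG hG ⟨x⁻¹, inv_mem hx⟩ * incG hG ⟨x, hx⟩ = 1 := by
        apply Subtype.ext
        change x⁻¹ * x = 1
        exact inv_mul_cancel₀ h0
      have e2 := congrArg ψ e
      rw [map_mul, map_one] at e2
      have e3 : ψ (incG hG ⟨x⁻¹, inv_mem hx⟩) = (ψ (incG hG ⟨x, hx⟩))⁻¹ :=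
        eq_inv_of_mul_eq_one_left e2
      rw [e3]
      exact inv_mem hx'
  · intro x y hx hy hx' hy'
    have e : incG hG ⟨x * y, mul_mem hx hy⟩ = incG hG ⟨x, hx⟩ * incG hG ⟨y, hy⟩ := rfl
    rw [e, map_mul]
    exact mul_mem hx' hy'

open scoped IntermediateField.algebraAdjoinAdjoin in
theorem resdeg {T w : F} {O : ValuationSubring F}
    (hG : ∀ z ∈ IntermediateField.adjoin ℂ {T}, z ∈ O) (hw : w ∈ O) (ψ : O →+* K)
    (hψs : Function.Surjective ψ)
    (hψ : ∀ c : ℂ, ψ (incG hG (algebraMap ℂ _ c)) = algebraMap ℂ K c)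
    [FiniteDimensional
      (IntermediateField.adjoin (IntermediateField.adjoin ℂ {T}) {w}) F]
    {κ : IntermediateField ℂ K}
    (ht : ψ (incG hG ⟨T, IntermediateField.mem_adjoin_simple_self ℂ T⟩) ∈ κ)
    (hwκ : ψ ⟨w, hw⟩ ∈ κ) {n : ℕ} (v : Fin n → K) (hv : LinearIndependent κ v) :
    n ≤ Module.finrank (IntermediateField.adjoin (IntermediateField.adjoin ℂ {T}) {w}) F := by
  classical
  set G := IntermediateField.adjoin ℂ {T} with hGdef
  choose z hz using fun i => hψs (v i)
  -- evaluation of polynomials over G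
  let ρ : G[X] →+* O := eval₂RingHom (incG hG) ⟨w, hw⟩
  have hρ : ∀ q : G[X], ((ρ q : O) : F) = aeval w q := by
    intro q
    have e : ((ρ q : O) : F) = O.subtype (eval₂ (incG hG) ⟨w, hw⟩ q) := rfl
    rw [e, hom_eval₂]
    rfl
  have hκle : IntermediateField.adjoin ℂ
      {ψ (incG hG ⟨T, IntermediateField.mem_adjoin_simple_self ℂ T⟩)} ≤ κ := by
    rw [IntermediateField.adjoin_simple_le_iff]
    exact ht
  have hρκ : ∀ q : G[X], ψ (ρ q) ∈ κ := by
    intro q
    have e : ψ (ρ q) = eval₂ (ψ.comp (incG hG)) (ψ ⟨w, hw⟩) q := by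
      change ψ (eval₂ (incG hG) ⟨w, hw⟩ q) = _
      rw [hom_eval₂]
    rw [e, eval₂_eq_sum_range]
    refine sum_mem fun i _ => mul_mem ?_ (pow_mem hwκ i)
    exact hκle (psi_G hG ψ hψ _)
  have hlin : LinearIndependent (IntermediateField.adjoin G {w}) (fun i => ((z i : O) : F)) := by
    rw [← LinearIndependent.iff_fractionRing (R := Algebra.adjoin G {w}),
      Fintype.linearIndependent_iff]
    intro g hg
    have hg' : ∀ i, ∃ p : G[X], aeval w p = ((g i : Algebra.adjoin G {w}) : F) := by
      intro i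
      have h1 : ((g i : Algebra.adjoin G {w}) : F) ∈ Algebra.adjoin G {w} := (g i).2
      exact (Algebra.adjoin_singleton_eq_range_aeval G w).le h1
    choose p hp using hg'
    by_contra hcon
    push Not at hcon
    obtain ⟨j, hj⟩ := hcon
    have hpj : aeval w (p j) ≠ 0 := by
      rw [hp j]
      intro h
      exact hj (Subtype.ext h)
    obtain ⟨d, hd⟩ := (IsPrincipalIdealRing.principal (Ideal.span (Set.range p))).principal
    have hd' : Ideal.span (Set.range p) = Ideal.span {d} := hd
    have hdvd : ∀ i, ∃ q, p i = d * q := by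
      intro i
      have h1 : p i ∈ Ideal.span {d} := by
        rw [← hd']
        exact Ideal.subset_span ⟨i, rfl⟩
      exact Ideal.mem_span_singleton.1 h1
    choose q hq using hdvd
    have hdw : aeval w d ≠ 0 := by
      intro h
      apply hpj
      rw [hq j, map_mul, h, zero_mul]
    have hd0 : d ≠ 0 := by
      rintro rfl
      exact hdw (map_zero _)
    have hone : ∃ c : Fin n → G[X], ∑ i, c i * q i = 1 := by
      have h1 : d ∈ Ideal.span (Set.range p) := by
        rw [hd']
        exact Ideal.mem_span_singleton_self d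
      obtain ⟨c, hc⟩ := Ideal.mem_span_range_iff_exists_fun.1 h1
      refine ⟨c, ?_⟩
      have h2 : d * ∑ i, c i * q i = d * 1 := by
        rw [mul_one]
        conv_rhs => rw [← hc]
        rw [Finset.mul_sum]
        refine Finset.sum_congr rfl fun i _ => ?_
        rw [hq i]
        ring
      exact mul_left_cancel₀ hd0 h2
    have hsum : ∑ i, aeval w (q i) * ((z i : O) : F) = 0 := by
      have h1 : ∑ i, aeval w (p i) * ((z i : O) : F) = 0 := by
        rw [← hg]
        refine Finset.sum_congr rfl fun i _ => ?_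
        rw [hp i]
        rfl
      have h2 : aeval w d * ∑ i, aeval w (q i) * ((z i : O) : F) = 0 := by
        rw [← h1, Finset.mul_sum]
        refine Finset.sum_congr rfl fun i _ => ?_
        rw [hq i, map_mul, mul_assoc]
      exact (mul_eq_zero.1 h2).resolve_left hdw
    have hsumO : ∑ i, ρ (q i) * z i = 0 := by
      apply Subtype.ext
      have e : ((∑ i, ρ (q i) * z i : O) : F) = ∑ i, aeval w (q i) * ((z i : O) : F) := by
        have e1 : ((∑ i, ρ (q i) * z i : O) : F) = O.subtype (∑ i, ρ (q i) * z i) := rfl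
        rw [e1, map_sum]
        refine Finset.sum_congr rfl fun i _ => ?_
        rw [map_mul, ← hρ]
        rfl
      rw [e, hsum]
      rfl
    have hψsum : ∑ i, ψ (ρ (q i)) * v i = 0 := by
      have h1 := congrArg ψ hsumO
      rw [map_sum, map_zero] at h1
      rw [← h1]
      refine Finset.sum_congr rfl fun i _ => ?_
      rw [map_mul, hz]
    have hzero : ∀ i, ψ (ρ (q i)) = 0 := by
      rw [Fintype.linearIndependent_iff] at hv
      intro i
      have h1 := hv (fun i => ⟨ψ (ρ (q i)), hρκ (q i)⟩) (by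
        rw [← hψsum]
        rfl) i
      exact congrArg Subtype.val h1
    obtain ⟨c, hc⟩ := hone
    have h1 := congrArg (fun u => ψ (ρ u)) hc
    simp only [map_sum, map_mul, map_one, hzero, mul_zero, Finset.sum_const_zero] at h1
    exact zero_ne_one h1
  have h1 := hlin.fintype_card_le_finrank
  rwa [Fintype.card_fin] at h1

theorem resdeg_finrank {T w : F} {O : ValuationSubring F}
    (hG : ∀ z ∈ IntermediateField.adjoin ℂ {T}, z ∈ O) (hw : w ∈ O) (ψ : O →+* K)
    (hψs : Function.Surjective ψ)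
    (hψ : ∀ c : ℂ, ψ (incG hG (algebraMap ℂ _ c)) = algebraMap ℂ K c)
    (hfin : FiniteDimensional (IntermediateField.adjoin ℂ {T, w}) F)
    {κ : IntermediateField ℂ K}
    (ht : ψ (incG hG ⟨T, IntermediateField.mem_adjoin_simple_self ℂ T⟩) ∈ κ)
    (hwκ : ψ ⟨w, hw⟩ ∈ κ) :
    Module.finrank κ K ≤ Module.finrank (IntermediateField.adjoin ℂ {T, w}) F := by
  have e : (IntermediateField.adjoin (IntermediateField.adjoin ℂ {T}) {w}).restrictScalars ℂ =
      IntermediateField.adjoin ℂ {T, w} := by
    rw [IntermediateField.adjoin_adjoin_left]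
    rfl
  rw [← e] at hfin ⊢
  have hfin' : FiniteDimensional
      (IntermediateField.adjoin (IntermediateField.adjoin ℂ {T}) {w}) F := hfin
  change Module.finrank κ K ≤
    Module.finrank (IntermediateField.adjoin (IntermediateField.adjoin ℂ {T}) {w}) F
  by_cases hK : Module.Finite κ K
  · have b := Module.finBasis κ K
    exact resdeg hG hw ψ hψs hψ ht hwκ b b.linearIndependent
  · rw [Module.finrank_of_not_finite hK]
    exact Nat.zero_le _

end Pool.Agent.Lib.MP_4f5f6e_ag
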