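import Mathlib
import Pool.Agent.Lib.MP_4f5f6e_ag.Main
import Pool.Agent.Lib.MP_4f5f6e_ag.Res

/- Surfaces dominating the Weierstrass surface (helper39). -/

namespace Pool.Agent.Lib.MP_4f5f6e_ag

open Polynomial IntermediateField

/- the kernel of a surjection onto a field from a valuation ring contains the nonunits -/
lemma psi_eq_zero {F K : Type} [Field F] [Field K] {O : ValuationSubring F} (ψ : O →+* K)
    (hψs : Function.Surjective ψ) {w : O} (hw : ¬ IsUnit w) : ψ w = 0 := by
  have h1 : (RingHom.ker ψ).IsMaximal := RingHom.ker_isMaximal_of_surjective ψ hψs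
  have h2 := IsLocalRing.eq_maximalIdeal h1
  have h3 : w ∈ IsLocalRing.maximalIdeal O := (IsLocalRing.mem_maximalIdeal w).2 hw
  rw [← h2] at h3
  exact h3

/- degree of a rational function -/
lemma finrank_deg (t : RatFunc ℂ) : Module.finrank (IntermediateField.adjoin ℂ {t}) (RatFunc ℂ) =
    max t.num.natDegree t.denom.natDegree := RatFunc.finrank_eq_max_natDegree t

/- non birational parametrisations -/
theorem deg_mul {t x y : RatFunc ℂ} {B : ℕ} (htc : ∀ c : ℂ, t ≠ RatFunc.C c)
    (a b : ℂ[X]) (hxy : y ^ 2 = x ^ 3 + aeval t a * x + aeval t b)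
    (hB : ∀ t' x' y' : RatFunc ℂ, (∀ c : ℂ, t' ≠ RatFunc.C c) →
      y' ^ 2 = x' ^ 3 + aeval t' a * x' + aeval t' b →
      IntermediateField.adjoin ℂ {t', x', y'} = ⊤ →
      max t'.num.natDegree t'.denom.natDegree ≤ B) :
    max t.num.natDegree t.denom.natDegree ≤
      B * Module.finrank (IntermediateField.adjoin ℂ {t, x, y}) (RatFunc ℂ) := by
  set E := IntermediateField.adjoin ℂ {t, x, y} with hE
  have htE : t ∈ E := IntermediateField.subset_adjoin _ _ (Set.mem_insert _ _)
  have hxE : x ∈ E :=
    IntermediateField.subset_adjoin _ _ (Set.mem_insert_of_mem _ (Set.mem_insert _ _))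
  have hyE : y ∈ E := IntermediateField.subset_adjoin _ _
      (Set.mem_insert_of_mem _ (Set.mem_insert_of_mem _ rfl))
  have hbot : E ≠ ⊥ := by
    intro h
    rw [h, IntermediateField.mem_bot] at htE
    obtain ⟨c, hc⟩ := htE
    apply htc c
    rw [← hc, RatFunc.algebraMap_eq_C]
  set e := RatFunc.Luroth.algEquiv hbot with he
  set f : RatFunc ℂ →ₐ[ℂ] RatFunc ℂ := (IntermediateField.val E).comp e.toAlgHom with hf
  set t' := e.symm ⟨t, htE⟩ with ht'
  set x' := e.symm ⟨x, hxE⟩ with hx'
  set y' := e.symm ⟨y, hyE⟩ with hy'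
  have hft : f t' = t := by
    change ((e (e.symm ⟨t, htE⟩) : E) : RatFunc ℂ) = t
    rw [AlgEquiv.apply_symm_apply]
  have hfx : f x' = x := by
    change ((e (e.symm ⟨x, hxE⟩) : E) : RatFunc ℂ) = x
    rw [AlgEquiv.apply_symm_apply]
  have hfy : f y' = y := by
    change ((e (e.symm ⟨y, hyE⟩) : E) : RatFunc ℂ) = y
    rw [AlgEquiv.apply_symm_apply]
  have hinj : Function.Injective f := f.toRingHom.injective
  have hfr : f.fieldRange = E := by
    ext w
    constructor
    · rintro ⟨v, rfl⟩
      exact (e v).2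
    · intro hw
      exact ⟨e.symm ⟨w, hw⟩, by
        change ((e (e.symm ⟨w, hw⟩) : E) : RatFunc ℂ) = w
        rw [AlgEquiv.apply_symm_apply]⟩
  have htop : IntermediateField.adjoin ℂ {t', x', y'} = ⊤ := by
    apply IntermediateField.map_injective f
    rw [IntermediateField.adjoin_map, Set.image_insert_eq, Set.image_insert_eq,
      Set.image_singleton, hft, hfx, hfy, ← AlgHom.fieldRange_eq_map, hfr]
  have htc' : ∀ c : ℂ, t' ≠ RatFunc.C c := by
    intro c hc
    apply htc c
    rw [← hft, hc, ← RatFunc.algebraMap_eq_C, AlgHom.commutes]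
  have hxy' : y' ^ 2 = x' ^ 3 + aeval t' a * x' + aeval t' b := by
    apply hinj
    rw [map_pow, map_add, map_add, map_mul, map_pow, ← aeval_algHom_apply, ← aeval_algHom_apply,
      hft, hfx, hfy, hxy]
  have h1 := hB t' x' y' htc' hxy' htop
  rw [← finrank_deg] at h1 ⊢
  have h2 : IntermediateField.adjoin ℂ {t} ≤ E := by
    rw [IntermediateField.adjoin_simple_le_iff]
    exact htE
  rw [← IntermediateField.relfinrank_mul_finrank_top h2]
  have h3 : IntermediateField.relfinrank (IntermediateField.adjoin ℂ {t}) E =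
      Module.finrank (IntermediateField.adjoin ℂ {t'}) (RatFunc ℂ) := by
    have h4 := IntermediateField.relfinrank_map_map (IntermediateField.adjoin ℂ {t'}) ⊤ f
    rw [IntermediateField.adjoin_map, Set.image_singleton, hft, ← AlgHom.fieldRange_eq_map, hfr,
      IntermediateField.relfinrank_top_right] at h4
    exact h4
  rw [h3]
  exact Nat.mul_le_mul_right _ h1

theorem final {B : ℕ} (hB8 : 8 ≤ B) (a b : ℂ[X])
    (hB : ∀ t x y : RatFunc ℂ, (∀ c : ℂ, t ≠ RatFunc.C c) →
      y ^ 2 = x ^ 3 + aeval t a * x + aeval t b →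
      IntermediateField.adjoin ℂ {t, x, y} = ⊤ →
      max t.num.natDegree t.denom.natDegree + 4 ≤ B)
    {F : Type} [Field F] [Algebra ℂ F] {T x y : F} (hT : Transcendental ℂ T)
    (hxy : y ^ 2 = x ^ 3 + aeval T a * x + aeval T b)
    (hfin : FiniteDimensional (IntermediateField.adjoin ℂ {T, x}) F)
    {O : ValuationSubring F} (hG : ∀ z ∈ IntermediateField.adjoin ℂ {T}, z ∈ O)
    (ψ : O →+* RatFunc ℂ) (hψs : Function.Surjective ψ)
    (hψ : ∀ c : ℂ, ψ (incG hG (algebraMap ℂ _ c)) = RatFunc.C c) :
    max (ψ (incG hG ⟨T, IntermediateField.mem_adjoin_simple_self ℂ T⟩)).num.natDegree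
      (ψ (incG hG ⟨T, IntermediateField.mem_adjoin_simple_self ℂ T⟩)).denom.natDegree +
        4 * Module.finrank (IntermediateField.adjoin ℂ {T, x}) F ≤
      B * Module.finrank (IntermediateField.adjoin ℂ {T, x}) F := by
  set G := IntermediateField.adjoin ℂ {T} with hGdef
  set g : G := ⟨T, IntermediateField.mem_adjoin_simple_self ℂ T⟩ with hg
  have hψ' : ∀ c : ℂ, ψ (incG hG (algebraMap ℂ _ c)) = algebraMap ℂ (RatFunc ℂ) c := by
    intro c
    rw [hψ, RatFunc.algebraMap_eq_C]
  let φ : G →ₐ[ℂ] RatFunc ℂ :=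
    { (ψ.comp (incG hG)) with commutes' := hψ' }
  have hφ : ∀ z, φ z = ψ (incG hG z) := fun _ => rfl
  set t := ψ (incG hG g) with ht
  have htφ : φ g = t := rfl
  have htc : ∀ c : ℂ, t ≠ RatFunc.C c := by
    intro c hc
    have h1 : φ g = φ (algebraMap ℂ G c) := by
      rw [htφ, hc, AlgHom.commutes, RatFunc.algebraMap_eq_C]
    have h2 := φ.toRingHom.injective h1
    have h3 : T = algebraMap ℂ F c := congrArg Subtype.val h2
    exact hT (h3 ▸ isAlgebraic_algebraMap c)
  have hNpos : 1 ≤ Module.finrank (IntermediateField.adjoin ℂ {T, x}) F :=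
    Module.finrank_pos
  set n := Module.finrank (IntermediateField.adjoin ℂ {T, x}) F with hn
  by_cases hx : x ∈ O
  · -- the curve is not contained in the zero section
    have hval : ∀ a : ℂ[X], ((aeval g a : G) : F) = aeval T a := by
      intro a
      have e : ((aeval g a : G) : F) = (IntermediateField.val G) (aeval g a) := rfl
      rw [e, ← aeval_algHom_apply]
      rfl
    have hyO : y ∈ O := by
      rcases O.mem_or_inv_mem y with h | h
      · exact h
      · by_cases hy0 : y = 0
        · rw [hy0]; exact zero_mem _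
        have h1 : y ^ 2 ∈ O := by
          rw [hxy]
          refine add_mem (add_mem (pow_mem hx 3) (mul_mem ?_ hx)) ?_
          · rw [← hval a]; exact hG _ (aeval g a).2
          · rw [← hval b]; exact hG _ (aeval g b).2
        have h2 : y = y ^ 2 * y⁻¹ := by field_simp
        rw [h2]
        exact mul_mem h1 h
    set x₁ := ψ ⟨x, hx⟩ with hx₁
    set y₁ := ψ ⟨y, hyO⟩ with hy₁
    have heq : y₁ ^ 2 = x₁ ^ 3 + aeval t a * x₁ + aeval t b := by
      have e : (⟨y, hyO⟩ : O) ^ 2 = ⟨x, hx⟩ ^ 3 + incG hG (aeval g a) * ⟨x, hx⟩ +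
          incG hG (aeval g b) := by
        apply Subtype.ext
        change y ^ 2 = x ^ 3 + ((aeval g a : G) : F) * x + ((aeval g b : G) : F)
        rw [hval, hval, hxy]
      have e2 := congrArg ψ e
      rw [map_pow, map_add, map_add, map_mul, map_pow, ← hφ, ← hφ, ← aeval_algHom_apply,
        ← aeval_algHom_apply, htφ] at e2
      exact e2
    have h1 := deg_mul (B := B - 4) htc a b heq (fun t' x' y' h1 h2 h3 => by
      have := hB t' x' y' h1 h2 h3
      omega)
    have h2 : Module.finrank (IntermediateField.adjoin ℂ {t, x₁, y₁}) (RatFunc ℂ) ≤ n :=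
      resdeg_finrank hG hx ψ hψs hψ' hfin
        (IntermediateField.subset_adjoin _ _ (Set.mem_insert _ _))
        (IntermediateField.subset_adjoin _ _ (Set.mem_insert_of_mem _ (Set.mem_insert _ _)))
    have h3 : max t.num.natDegree t.denom.natDegree ≤ (B - 4) * n :=
      h1.trans (Nat.mul_le_mul_left _ h2)
    have h4 : (B - 4) * n + 4 * n = B * n := by
      rw [← add_mul, Nat.sub_add_cancel (by omega)]
    omega
  · -- zero section
    have hx0 : x ≠ 0 := by
      rintro rfl
      exact hx (zero_mem _)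
    have hw : x⁻¹ ∈ O := (O.mem_or_inv_mem x).resolve_left hx
    have hunit : ¬ IsUnit (⟨x⁻¹, hw⟩ : O) := by
      rintro hu
      obtain ⟨v, hv⟩ := hu.exists_right_inv
      have h1 := congrArg Subtype.val hv
      change x⁻¹ * (v : F) = 1 at h1
      have h2 : (v : F) = x := by
        field_simp at h1
        exact h1
      exact hx (h2 ▸ v.2)
    have h0 := psi_eq_zero ψ hψs hunit
    have hadj : IntermediateField.adjoin ℂ {T, x⁻¹} = IntermediateField.adjoin ℂ {T, x} := by
      apply le_antisymm
      · rw [IntermediateField.adjoin_le_iff]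
        rintro z (rfl | hz)
        · exact IntermediateField.subset_adjoin _ _ (Set.mem_insert _ _)
        · rw [Set.mem_singleton_iff] at hz
          rw [hz]
          exact inv_mem (IntermediateField.subset_adjoin _ _ (Set.mem_insert_of_mem _ rfl))
      · rw [IntermediateField.adjoin_le_iff]
        rintro z (rfl | hz)
        · exact IntermediateField.subset_adjoin _ _ (Set.mem_insert _ _)
        · rw [Set.mem_singleton_iff] at hz
          rw [hz]
          have h1 : x⁻¹ ∈ IntermediateField.adjoin ℂ {T, x⁻¹} :=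
            IntermediateField.subset_adjoin _ _ (Set.mem_insert_of_mem _ rfl)
          have h2 := inv_mem h1
          rwa [inv_inv] at h2
    have h2 := resdeg_finrank (T := T) (w := x⁻¹) hG hw ψ hψs hψ' (by rw [hadj]; exact hfin)
      (κ := IntermediateField.adjoin ℂ {t})
      (IntermediateField.mem_adjoin_simple_self ℂ t) (by rw [h0]; exact zero_mem _)
    rw [hadj, finrank_deg] at h2
    calc max t.num.natDegree t.denom.natDegree + 4 * n ≤ n + 4 * n := by
          exact Nat.add_le_add_right h2 _
      _ = 5 * n := by ring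
      _ ≤ B * n := Nat.mul_le_mul_right _ (by omega)

end Pool.Agent.Lib.MP_4f5f6e_ag
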